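import Pool.Agent.Lib.MP_af3a4a_an.P1.H11.Chain

/-!
# BIGR: soundness of the data theorems (council 2, helper11)
-/

set_option autoImplicit false

namespace Pool.Agent.Lib.MP_af3a4a_an.P1.H11

open Pool.Agent.Lib.MP_af3a4a_an.P1.H28 (ECok cellsS mkAS mkBS kOK)

/-- **a data theorem excludes its cell** -/
theorem data_sound {k km ea eb A Bf : ℕ} {E : List ℕ} {C : List (ℕ × List ℕ)} (hC : C ≠ [])
    (h : fileD k km ea eb A Bf E C = true) (hk : kOK k km = true) (hab : ea < eb) :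
    BigC k km ea eb A Bf :=
  fileD_sound (ECok := ECok)
    (fun k km ea eb A B EL EE ec kk _ hc hec hEL hEE h =>
      cellsS k km ea eb A B EL EE ec kk hc.1 hc.2 hec hEL hEE h)
    mkAS mkBS (fun _ => rfl) ⟨hk, hab⟩ hC h

end Pool.Agent.Lib.MP_af3a4a_an.P1.H11
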