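import Pool.Agent.Lib.MP_af3a4a_an.P1.H11.CombA
import Pool.Agent.Lib.MP_af3a4a_an.P1.CHK.CurveK.Cell

/-!
# COMB: real analysis of the weighted cells (council 2, helper11), part 2
-/

set_option autoImplicit false

namespace Pool.Agent.Lib.MP_af3a4a_an.P1.H11

open Finset MeasureTheory intervalIntegral
open Pool.Agent.Lib.MP_af3a4a_an.SV (uu av sq EE)
open Pool.Agent.Lib.MP_af3a4a_an.P1.H80
open Pool.Agent.Lib.MP_af3a4a_an.P1.CHK.H80
open Pool.Agent.Lib.MP_af3a4a_an.P1.H32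
open Pool.Agent.Lib.MP_af3a4a_an.P1.CHK.CurveK (PosCell NegCell)

/-- nodes of the unit interval -/
noncomputable def xn (j : ℕ) : ℝ := (j : ℝ) / 32

/-- nodes of the tail -/
noncomputable def Xn (k : ℕ) : ℝ := 1 + (k : ℝ) / 8

/-- the data of the cells -/
structure CombH (q Qf : ℝ → ℂ) (R T T0 K μ φ : ℝ) (J0 J1 : ℕ) (p s n1 n2 Wa Wb : ℕ → ℝ)
    (EL E0 : ℝ) : Prop where
  hR : 1 < R
  hK : 1 ≤ K
  hμ : |μ| ≤ 1
  hT0 : 0 ≤ T0
  hT : T0 ≤ T
  hq : Continuous q
  hQ : ∀ x : ℝ, 0 ≤ x → x < 1 → q x = (Wf R T x : ℂ) * Qf x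
  hJ : J0 + J1 = 31
  hp : ∀ j < J0, PosCell Qf φ (xn j) (xn (j + 1)) (p j)
  hp0 : ∀ j < J0, 0 ≤ p j
  hs : ∀ j < J0, s j ≤ Real.exp (-(T0 * ((el R (xn j) + el R (xn (j + 1))) / 2)))
  hn : ∀ j < J1, NegCell Qf φ (xn (J0 + j)) (xn (J0 + j + 1)) (n1 j) (n2 j)
  hWa : ∀ j ≤ J1, Wf R T0 (xn (J0 + j)) ≤ Wa (J0 + j)
  hWb : ∀ j < J1, (1 ≤ T0 * R ∧ Wf R T0 (xn (J0 + j + 1)) ≤ Wb (J0 + j)) ∨
    Wf R T0 (xn (J0 + j)) ≤ Wb (J0 + j)
  hlast : ∀ x : ℝ, xn 31 ≤ x → x < 1 → ‖Qf x‖ ≤ GK K μ x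
  hEL : GK K μ (xn 31) ≤ EL
  hE0 : GK K μ 1 ≤ E0

/-- the value of the unit interval -/
noncomputable def unitS (J0 J1 : ℕ) (p s n1 n2 Wa Wb : ℕ → ℝ) (EL E0 : ℝ) : ℝ :=
  ∑ j ∈ range J0, p j * s j - ∑ j ∈ range J1, (n1 j * Wa (J0 + j) + n2 j * Wb (J0 + j)) -
    (EL + E0) / 64 * Wa 31

/-- the value of the tail -/
noncomputable def tailS (nt : ℕ) (g E Wl Wr : ℕ → ℝ) : ℝ :=
  ∑ k ∈ range nt, g k / 48 * (2 * E k * Wl k + 2 * E (k + 1) * Wr k + E k * Wr k +
    E (k + 1) * Wl k)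

section

variable {q Qf : ℝ → ℂ} {R T T0 K μ φ : ℝ} {J0 J1 nt : ℕ} {p s n1 n2 Wa Wb : ℕ → ℝ} {EL : ℝ}
  {g E Wl Wr : ℕ → ℝ}

/-- the real integrand -/
noncomputable def hr (q : ℝ → ℂ) (φ x : ℝ) : ℝ := (Complex.exp ((φ : ℂ) * Complex.I) * q x).re

theorem hr_cont (hq : Continuous q) (φ : ℝ) : Continuous (hr q φ) := by
  unfold hr
  exact Complex.continuous_re.comp (continuous_const.mul hq)

theorem hr_int (hq : Continuous q) (φ a b : ℝ) :
    (Complex.exp ((φ : ℂ) * Complex.I) * ∫ x in a..b, q x).re = ∫ x in a..b, hr q φ x := by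
  rw [← intervalIntegral.integral_const_mul]
  have h1 : Continuous fun x => Complex.exp ((φ : ℂ) * Complex.I) * q x := continuous_const.mul hq
  have h := Complex.reCLM.intervalIntegral_comp_comm (h1.intervalIntegrable (μ := volume) a b)
  simp only [Complex.reCLM_apply] at h
  rw [← h]
  rfl

theorem hr_abs (q : ℝ → ℂ) (φ x : ℝ) : |hr q φ x| ≤ ‖q x‖ := by
  unfold hr
  refine (Complex.abs_re_le_norm _).trans (le_of_eq ?_)
  rw [norm_mul, Complex.norm_exp_ofReal_mul_I, one_mul]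

theorem hr_mul {w : ℝ} {x : ℝ} (h : q x = (w : ℂ) * Qf x) :
    hr q φ x = w * (Complex.exp ((φ : ℂ) * Complex.I) * Qf x).re := by
  unfold hr
  rw [h, mul_left_comm, Complex.re_ofReal_mul]

/-- a positive cell -/
theorem pos_cell {a b v : ℝ} (hR : 0 < R) (hT : 0 ≤ T) (hab : a < b) (hbR : b < R)
    (hq : Continuous q) (hQ : ∀ x ∈ Set.Icc a b, q x = (Wf R T x : ℂ) * Qf x)
    (hc : PosCell Qf φ a b v) :
    v * Real.exp (-(T * ((el R a + el R b) / 2))) ≤ ∫ x in a..b, hr q φ x := by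
  obtain ⟨A, hAc, hA, hv⟩ := hc
  have hba : 0 < b - a := sub_pos.2 hab
  have hsub : Set.Icc a b ⊆ Set.Iio R := fun x hx => lt_of_le_of_lt hx.2 hbR
  have hec : ContinuousOn (el R) (Set.Icc a b) := (el_cont hR).mono hsub
  have htr := trap hab ((el_convex hR).subset hsub (convex_Icc a b)) hec
  set M := (el R a + el R b) / 2 with hM
  set mA := (∫ x in a..b, A x) / (b - a) with hmA
  set m := mA - T * M with hm
  have iA : IntervalIntegrable A volume a b := by
    apply ContinuousOn.intervalIntegrable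
    rwa [Set.uIcc_of_le hab.le]
  have iE : IntervalIntegrable (el R) volume a b := by
    apply ContinuousOn.intervalIntegrable
    rwa [Set.uIcc_of_le hab.le]
  have h1 : ∫ x in a..b, Real.exp m * (1 + (A x - T * el R x) - m) ≤ ∫ x in a..b, hr q φ x := by
    apply intervalIntegral.integral_mono_on hab.le
    · apply IntervalIntegrable.const_mul
      apply IntervalIntegrable.sub _ intervalIntegrable_const
      apply IntervalIntegrable.add intervalIntegrable_const
      exact iA.sub (iE.const_mul T)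
    · exact (hr_cont hq φ).intervalIntegrable a b
    · intro x hx
      rw [hr_mul (hQ x hx)]
      have h2 := hA x hx
      have h3 : Real.exp (A x - T * el R x) ≤
          Wf R T x * (Complex.exp ((φ : ℂ) * Complex.I) * Qf x).re := by
        have h4 := mul_le_mul_of_nonneg_left h2 (Wf_pos R T x).le
        refine le_trans (le_of_eq ?_) h4
        unfold Wf
        rw [← Real.exp_add]
        congr 1
        ring
      refine le_trans ?_ h3
      have h5 : Real.exp (A x - T * el R x) =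
          Real.exp m * Real.exp (A x - T * el R x - m) := by
        rw [← Real.exp_add]
        congr 1
        ring
      rw [h5]
      apply mul_le_mul_of_nonneg_left _ (Real.exp_pos m).le
      have := Real.add_one_le_exp (A x - T * el R x - m)
      linarith
  refine le_trans ?_ h1
  rw [intervalIntegral.integral_const_mul]
  have e2 : ∫ x in a..b, (1 + (A x - T * el R x) - m) =
      (b - a) + ((b - a) * mA - T * ∫ x in a..b, el R x) - (b - a) * m := by
    rw [intervalIntegral.integral_sub, intervalIntegral.integral_add,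
      intervalIntegral.integral_sub, intervalIntegral.integral_const_mul]
    · simp only [intervalIntegral.integral_const, smul_eq_mul, mul_one]
      have : ∫ x in a..b, A x = (b - a) * mA := by
        rw [hmA]
        field_simp
      rw [this]
    · exact iA
    · exact iE.const_mul T
    · exact intervalIntegrable_const
    · exact iA.sub (iE.const_mul T)
    · apply IntervalIntegrable.add intervalIntegrable_const
      exact iA.sub (iE.const_mul T)
    · exact intervalIntegrable_const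
  have h3 : b - a ≤ ∫ x in a..b, (1 + (A x - T * el R x) - m) := by
    rw [e2]
    have := mul_le_mul_of_nonneg_left htr hT
    rw [hm]
    nlinarith
  have h4 : v * Real.exp (-(T * M)) ≤ Real.exp m * (b - a) := by
    have h5 := mul_le_mul_of_nonneg_right hv (Real.exp_pos (-(T * M))).le
    refine h5.trans (le_of_eq ?_)
    have h6 : Real.exp m = Real.exp mA * Real.exp (-(T * M)) := by
      rw [← Real.exp_add]
      congr 1
    rw [h6]
    ring
  exact h4.trans (mul_le_mul_of_nonneg_left h3 (Real.exp_pos m).le)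

/-- the chord bound of the weight -/
theorem W_chord {a b wa wb y₀ : ℝ} (hR : 0 < R) (hT0 : 0 ≤ T0) (hT : T0 ≤ T) (hy0 : 0 ≤ y₀)
    (hya : y₀ ≤ a) (hab : a < b) (hbR : b < R) (hwa : Wf R T0 a ≤ wa)
    (hwb : (1 ≤ T0 * R ∧ Wf R T0 b ≤ wb) ∨ Wf R T0 a ≤ wb) (x : ℝ) (hx : x ∈ Set.Icc a b) :
    Wf R T x ≤ (Real.exp (-((T - T0) * el R y₀)) * wa * (b - x) +
      Real.exp (-((T - T0) * el R y₀)) * wb * (x - a)) / (b - a) := by
  have hba : 0 < b - a := sub_pos.2 hab
  have hf : 0 < Real.exp (-((T - T0) * el R y₀)) := Real.exp_pos _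
  have hxR : x < R := lt_of_le_of_lt hx.2 hbR
  have h1 := Wf_le hR hT hy0 (hya.trans hx.1) hxR
  refine h1.trans ?_
  have h2 : Wf R T0 x ≤ (wa * (b - x) + wb * (x - a)) / (b - a) := by
    have hbx : 0 ≤ b - x := by linarith [hx.2]
    have hxa : 0 ≤ x - a := by linarith [hx.1]
    rcases hwb with ⟨h3, h4⟩ | h3
    · have hsub : Set.Icc a b ⊆ Set.Iio R := fun x hx => lt_of_le_of_lt hx.2 hbR
      refine (chord_le hab ((Wf_convex hR h3).subset hsub (convex_Icc a b)) hx).trans ?_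
      apply div_le_div_of_nonneg_right _ hba.le
      have h5 := mul_le_mul_of_nonneg_right hwa hbx
      have h6 := mul_le_mul_of_nonneg_right h4 hxa
      linarith
    · have h4 := Wf_anti hR hT0 (hy0.trans hya) hx.1 hxR
      rw [le_div_iff₀ hba]
      have h5 := mul_le_mul_of_nonneg_right (h4.trans hwa) hbx
      have h6 := mul_le_mul_of_nonneg_right (h4.trans h3) hxa
      nlinarith
  calc Real.exp (-((T - T0) * el R y₀)) * Wf R T0 x ≤
      Real.exp (-((T - T0) * el R y₀)) * ((wa * (b - x) + wb * (x - a)) / (b - a)) :=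
        mul_le_mul_of_nonneg_left h2 hf.le
    _ = _ := by ring

/-- a negative cell -/
theorem neg_cell {a b v₁ v₂ wa wb : ℝ} (hab : a < b)
    (hq : Continuous q) (hQ : ∀ x ∈ Set.Icc a b, q x = (Wf R T x : ℂ) * Qf x)
    (hc : NegCell Qf φ a b v₁ v₂) (hwa0 : 0 ≤ wa) (hwb0 : 0 ≤ wb)
    (hW : ∀ x ∈ Set.Icc a b, Wf R T x ≤ (wa * (b - x) + wb * (x - a)) / (b - a)) :
    -(v₁ * wa + v₂ * wb) ≤ ∫ x in a..b, hr q φ x := by
  obtain ⟨c, hcc, hcQ, h1, h2⟩ := hc
  have hba : 0 < b - a := sub_pos.2 hab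
  have i1 : IntervalIntegrable (fun x => c x * ((b - x) / (b - a))) volume a b := by
    apply ContinuousOn.intervalIntegrable
    rw [Set.uIcc_of_le hab.le]
    exact hcc.mul (by fun_prop)
  have i2 : IntervalIntegrable (fun x => c x * ((x - a) / (b - a))) volume a b := by
    apply ContinuousOn.intervalIntegrable
    rw [Set.uIcc_of_le hab.le]
    exact hcc.mul (by fun_prop)
  have h3 : ∫ x in a..b, -(wa * (c x * ((b - x) / (b - a))) + wb * (c x * ((x - a) / (b - a)))) ≤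
      ∫ x in a..b, hr q φ x := by
    apply intervalIntegral.integral_mono_on hab.le
    · exact ((i1.const_mul wa).add (i2.const_mul wb)).neg
    · exact (hr_cont hq φ).intervalIntegrable a b
    · intro x hx
      rw [hr_mul (hQ x hx)]
      have h4 := mul_le_mul_of_nonneg_left (hcQ x hx).2 (Wf_pos R T x).le
      have h5 := mul_le_mul_of_nonneg_right (hW x hx) (hcQ x hx).1
      have e : (wa * (b - x) + wb * (x - a)) / (b - a) * c x =
          wa * (c x * ((b - x) / (b - a))) + wb * (c x * ((x - a) / (b - a))) := by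
        ring
      rw [e] at h5
      linarith
  refine le_trans ?_ h3
  rw [intervalIntegral.integral_neg, intervalIntegral.integral_add (i1.const_mul wa)
    (i2.const_mul wb), intervalIntegral.integral_const_mul, intervalIntegral.integral_const_mul]
  have h4 := mul_le_mul_of_nonneg_left h1 hwa0
  have h5 := mul_le_mul_of_nonneg_left h2 hwb0
  linarith

/-- a cell with an absolute bound -/
theorem abs_cell {a b v : ℝ} (hab : a ≤ b) (hq : Continuous q) {B : ℝ → ℝ}
    (hB : IntervalIntegrable B volume a b) (h : ∀ x ∈ Set.Ioo a b, ‖q x‖ ≤ B x)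
    (hv : ∫ x in a..b, B x ≤ v) : -v ≤ ∫ x in a..b, hr q φ x := by
  have h1 : ∫ x in a..b, -B x ≤ ∫ x in a..b, hr q φ x := by
    apply intervalIntegral.integral_mono_on_of_le_Ioo hab hB.neg
      ((hr_cont hq φ).intervalIntegrable a b)
    intro x hx
    have h2 := (abs_le.1 ((hr_abs q φ x).trans (h x hx))).1
    exact h2
  rw [intervalIntegral.integral_neg] at h1
  linarith

/-- the last cell of the unit interval -/
theorem last_cell {a b wa ea eb : ℝ} (hR : 0 < R) (hT : 0 ≤ T) (ha0 : 0 ≤ a) (hab : a < b)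
    (hbR : b < R) (hK : 1 ≤ K) (hμ : |μ| ≤ 1) (hq : Continuous q)
    (h : ∀ x ∈ Set.Ioo a b, ‖q x‖ ≤ Wf R T x * GK K μ x)
    (hwa : Wf R T a ≤ wa) (hea : GK K μ a ≤ ea) (heb : GK K μ b ≤ eb) :
    -((b - a) * ((ea + eb) / 2) * wa) ≤ ∫ x in a..b, hr q φ x := by
  have hGc : Continuous (GK K μ) := GK_cont (by linarith) μ
  have hwa0 : 0 ≤ wa := (Wf_pos R T a).le.trans hwa
  apply abs_cell hab.le hq (B := fun x => wa * GK K μ x)
    ((continuous_const.mul hGc).intervalIntegrable a b)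
  · intro x hx
    refine (h x hx).trans ?_
    apply mul_le_mul_of_nonneg_right _ (GK_nonneg hμ)
    exact (Wf_anti hR hT ha0 hx.1.le (hx.2.trans hbR)).trans hwa
  · rw [intervalIntegral.integral_const_mul]
    have h1 := trap hab ((GK_convex hK hμ).subset (Set.subset_univ _) (convex_Icc a b))
      hGc.continuousOn
    have h2 : (b - a) * ((GK K μ a + GK K μ b) / 2) ≤ (b - a) * ((ea + eb) / 2) := by
      apply mul_le_mul_of_nonneg_left _ (by linarith)
      linarith
    have h3 := mul_le_mul_of_nonneg_left (h1.trans h2) hwa0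
    linarith

/-- the integral of `W G` over a cell -/
theorem WG_cell {a b wl wr ea eb : ℝ} (hab : a < b) (hbR : b < R) (hR : 0 < R) (hK : 1 ≤ K)
    (hμ : |μ| ≤ 1) (hea : GK K μ a ≤ ea) (heb : GK K μ b ≤ eb)
    (hW : ∀ x ∈ Set.Icc a b, Wf R T x ≤ (wl * (b - x) + wr * (x - a)) / (b - a)) :
    ∫ x in a..b, GK K μ x * Wf R T x ≤
      (b - a) / 6 * (2 * ea * wl + 2 * eb * wr + ea * wr + eb * wl) := by
  have hGc : Continuous (GK K μ) := GK_cont (by linarith) μ
  have hsub : Set.Icc a b ⊆ Set.Iio R := fun x hx => lt_of_le_of_lt hx.2 hbR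
  apply prod_chord hab hGc.continuousOn ((Wf_cont hR T).mono hsub)
    (fun x _ => (Wf_pos R T x).le) (fun x _ => GK_nonneg hμ) _ hW
  intro x hx
  have hba : 0 < b - a := sub_pos.2 hab
  refine (chord_le hab ((GK_convex hK hμ).subset (Set.subset_univ _) (convex_Icc a b)) hx).trans ?_
  apply div_le_div_of_nonneg_right _ hba.le
  have h5 := mul_le_mul_of_nonneg_right hea (show 0 ≤ b - x by linarith [hx.2])
  have h6 := mul_le_mul_of_nonneg_right heb (show 0 ≤ x - a by linarith [hx.1])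
  linarith

/-- a cell of the tail -/
theorem tail_cell {a b wl wr ea eb gk : ℝ} (hab : a < b) (hbR : b < R) (hR : 0 < R) (hK : 1 ≤ K)
    (hμ : |μ| ≤ 1) (hq : Continuous q) (hg : 0 ≤ gk)
    (h : ∀ x ∈ Set.Icc a b, ‖q x‖ ≤ gk * (Wf R T x * GK K μ x))
    (hea : GK K μ a ≤ ea) (heb : GK K μ b ≤ eb)
    (hW : ∀ x ∈ Set.Icc a b, Wf R T x ≤ (wl * (b - x) + wr * (x - a)) / (b - a)) :
    -(gk * ((b - a) / 6 * (2 * ea * wl + 2 * eb * wr + ea * wr + eb * wl))) ≤
      ∫ x in a..b, hr q φ x := by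
  have hGc : Continuous (GK K μ) := GK_cont (by linarith) μ
  have hsub : Set.Icc a b ⊆ Set.Iio R := fun x hx => lt_of_le_of_lt hx.2 hbR
  have hWc := (Wf_cont hR T).mono hsub
  apply abs_cell hab.le hq (B := fun x => gk * (GK K μ x * Wf R T x))
  · apply ContinuousOn.intervalIntegrable
    rw [Set.uIcc_of_le hab.le]
    exact continuousOn_const.mul (hGc.continuousOn.mul hWc)
  · intro x hx
    refine (h x ⟨hx.1.le, hx.2.le⟩).trans (le_of_eq ?_)
    ring
  · rw [intervalIntegral.integral_const_mul]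
    exact mul_le_mul_of_nonneg_left (WG_cell hab hbR hR hK hμ hea heb hW) hg

theorem xn_succ (j : ℕ) : xn (j + 1) = xn j + 1 / 32 := by
  unfold xn
  push_cast
  ring

theorem xn_nonneg (j : ℕ) : 0 ≤ xn j := by unfold xn; positivity

theorem xn_mono {i j : ℕ} (h : i ≤ j) : xn i ≤ xn j := by
  unfold xn
  have : (i : ℝ) ≤ j := by exact_mod_cast h
  linarith

theorem xn_lt {j : ℕ} (h : j ≤ 31) : xn j < 1 := by
  unfold xn
  have : (j : ℝ) ≤ 31 := by exact_mod_cast h
  linarith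

theorem Xn_succ (k : ℕ) : Xn (k + 1) = Xn k + 1 / 8 := by
  unfold Xn
  push_cast
  ring

theorem Xn_zero : Xn 0 = 1 := by
  unfold Xn
  simp

theorem Xn_ge (k : ℕ) : 1 ≤ Xn k := by
  unfold Xn
  have : (0 : ℝ) ≤ k := Nat.cast_nonneg k
  linarith

theorem Xn_mono {i j : ℕ} (h : i ≤ j) : Xn i ≤ Xn j := by
  unfold Xn
  have : (i : ℝ) ≤ j := by exact_mod_cast h
  linarith

/-- **the unit interval** -/
theorem comb_unit {E0 : ℝ} (H : CombH q Qf R T T0 K μ φ J0 J1 p s n1 n2 Wa Wb EL E0) :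
    Real.exp (-((T - T0) * el R (xn J0))) * unitS J0 J1 p s n1 n2 Wa Wb EL E0 ≤
      ∫ x in (0 : ℝ)..1, hr q φ x := by
  have hR1 := H.hR
  have hR : 0 < R := by linarith
  have hT : 0 ≤ T := H.hT0.trans H.hT
  have hTT : 0 ≤ T - T0 := sub_nonneg.2 H.hT
  have hJ31 : J0 ≤ 31 := by have := H.hJ; omega
  set f := Real.exp (-((T - T0) * el R (xn J0))) with hf
  have hf0 : 0 < f := Real.exp_pos _
  have ii : ∀ a b : ℝ, IntervalIntegrable (hr q φ) volume a b :=
    fun a b => (hr_cont H.hq φ).intervalIntegrable a b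
  -- positive cells
  have hpos : ∀ j < J0, f * (p j * s j) ≤ ∫ x in (xn j)..(xn (j + 1)), hr q φ x := by
    intro j hj
    have hj1 : xn (j + 1) < 1 := xn_lt (by omega)
    have hlt : xn j < xn (j + 1) := by rw [xn_succ]; linarith
    have h1 := pos_cell hR hT hlt (hj1.trans hR1) H.hq
      (fun x hx => H.hQ x ((xn_nonneg j).trans hx.1) (lt_of_le_of_lt hx.2 hj1)) (H.hp j hj)
    refine le_trans ?_ h1
    set M := (el R (xn j) + el R (xn (j + 1))) / 2 with hM
    have hMJ : M ≤ el R (xn J0) := by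
      have hJR : xn J0 < R := (xn_lt hJ31).trans hR1
      have a1 := el_mono hR (xn_nonneg j) (xn_mono (show j ≤ J0 by omega)) hJR
      have a2 := el_mono hR (xn_nonneg (j + 1)) (xn_mono (show j + 1 ≤ J0 by omega)) hJR
      rw [hM]
      linarith
    have h2 : f * s j ≤ Real.exp (-(T * M)) := by
      have h3 := mul_le_mul_of_nonneg_left (H.hs j hj) hf0.le
      refine h3.trans ?_
      rw [hf, ← Real.exp_add]
      apply Real.exp_le_exp.2
      have := mul_le_mul_of_nonneg_left hMJ hTT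
      rw [← hM]
      nlinarith
    have h3 := mul_le_mul_of_nonneg_left h2 (H.hp0 j hj)
    linarith
  -- negative cells
  have hneg : ∀ j < J1, -(f * (n1 j * Wa (J0 + j) + n2 j * Wb (J0 + j))) ≤
      ∫ x in (xn (J0 + j))..(xn (J0 + (j + 1))), hr q φ x := by
    intro j hj
    have hJ := H.hJ
    have hj1 : xn (J0 + (j + 1)) < 1 := xn_lt (by omega)
    have hlt : xn (J0 + j) < xn (J0 + (j + 1)) := by rw [← add_assoc, xn_succ]; linarith
    have hwa := H.hWa j hj.le
    have hwb := H.hWb j hj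
    have hwa0 : 0 ≤ Wa (J0 + j) := (Wf_pos _ _ _).le.trans hwa
    have hwb0 : 0 ≤ Wb (J0 + j) := by
      rcases hwb with ⟨_, h⟩ | h
      · exact (Wf_pos _ _ _).le.trans h
      · exact (Wf_pos _ _ _).le.trans h
    have h1 := neg_cell hlt H.hq
      (fun x hx => H.hQ x ((xn_nonneg _).trans hx.1) (lt_of_le_of_lt hx.2 hj1)) (H.hn j hj)
      (mul_nonneg hf0.le hwa0) (mul_nonneg hf0.le hwb0)
      (W_chord hR H.hT0 H.hT (xn_nonneg J0) (xn_mono (show J0 ≤ J0 + j by omega)) hlt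
        (hj1.trans hR1) hwa hwb)
    refine le_trans (le_of_eq ?_) h1
    ring
  -- last cell
  have hlast : -(f * ((EL + E0) / 64 * Wa 31)) ≤ ∫ x in (xn 31)..1, hr q φ x := by
    have h31 : xn 31 = 31 / 32 := by unfold xn; norm_num
    have hwa : Wf R T0 (xn 31) ≤ Wa 31 := by
      have h := H.hWa J1 le_rfl
      rwa [H.hJ] at h
    have hwf : Wf R T (xn 31) ≤ f * Wa 31 := by
      refine (Wf_le hR H.hT (xn_nonneg J0) (xn_mono hJ31) ((xn_lt le_rfl).trans hR1)).trans ?_
      exact mul_le_mul_of_nonneg_left hwa hf0.le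
    have h1 := last_cell (φ := φ) hR hT (xn_nonneg 31) (xn_lt le_rfl) hR1 H.hK H.hμ H.hq (by
      intro x hx
      have hx0 : 0 ≤ x := (xn_nonneg 31).trans hx.1.le
      rw [H.hQ x hx0 hx.2, norm_mul, Complex.norm_real, Real.norm_of_nonneg (Wf_pos R T x).le]
      exact mul_le_mul_of_nonneg_left (H.hlast x hx.1.le hx.2) (Wf_pos R T x).le) hwf H.hEL H.hE0
    refine le_trans (le_of_eq ?_) h1
    rw [h31]
    ring
  -- sums
  have e1 : ∫ x in (xn 0)..(xn J0), hr q φ x = ∑ j ∈ range J0, ∫ x in (xn j)..(xn (j + 1)),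
      hr q φ x :=
    (intervalIntegral.sum_integral_adjacent_intervals fun j _ => ii _ _).symm
  have e2 : ∫ x in (xn (J0 + 0))..(xn (J0 + J1)), hr q φ x =
      ∑ j ∈ range J1, ∫ x in (xn (J0 + j))..(xn (J0 + (j + 1))), hr q φ x :=
    (intervalIntegral.sum_integral_adjacent_intervals (a := fun j => xn (J0 + j))
      fun j _ => ii _ _).symm
  have hx0 : xn 0 = 0 := by unfold xn; simp
  rw [hx0] at e1
  rw [add_zero, H.hJ] at e2
  have e3 : ∫ x in (0 : ℝ)..1, hr q φ x = (∫ x in (0 : ℝ)..(xn J0), hr q φ x) +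
      (∫ x in (xn J0)..(xn 31), hr q φ x) + ∫ x in (xn 31)..1, hr q φ x := by
    rw [intervalIntegral.integral_add_adjacent_intervals (ii _ _) (ii _ _),
      intervalIntegral.integral_add_adjacent_intervals (ii _ _) (ii _ _)]
  rw [e3, e1, e2]
  have s1 : f * ∑ j ∈ range J0, p j * s j ≤ ∑ j ∈ range J0, ∫ x in (xn j)..(xn (j + 1)),
      hr q φ x := by
    rw [Finset.mul_sum]
    exact Finset.sum_le_sum fun j hj => hpos j (Finset.mem_range.1 hj)
  have s2 : -(f * ∑ j ∈ range J1, (n1 j * Wa (J0 + j) + n2 j * Wb (J0 + j))) ≤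
      ∑ j ∈ range J1, ∫ x in (xn (J0 + j))..(xn (J0 + (j + 1))), hr q φ x := by
    rw [Finset.mul_sum, ← Finset.sum_neg_distrib]
    exact Finset.sum_le_sum fun j hj => hneg j (Finset.mem_range.1 hj)
  unfold unitS
  have e4 : f * (∑ j ∈ range J0, p j * s j -
      ∑ j ∈ range J1, (n1 j * Wa (J0 + j) + n2 j * Wb (J0 + j)) - (EL + E0) / 64 * Wa 31) =
      f * ∑ j ∈ range J0, p j * s j +
      -(f * ∑ j ∈ range J1, (n1 j * Wa (J0 + j) + n2 j * Wb (J0 + j))) +
      -(f * ((EL + E0) / 64 * Wa 31)) := by ring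
  rw [e4]
  linarith

/-- **Case B**: the tail up to `xs = 1 + nt/8 < R` -/
theorem combB (H : CombH q Qf R T T0 K μ φ J0 J1 p s n1 n2 Wa Wb EL (E 0))
    (hxs : Xn nt < R) (hg : ∀ k < nt, 0 ≤ g k)
    (htail : ∀ k < nt, ∀ x : ℝ, Xn k ≤ x → x ≤ Xn (k + 1) → ‖q x‖ ≤ g k * (Wf R T x * GK K μ x))
    (hE : ∀ k ≤ nt, GK K μ (Xn k) ≤ E k)
    (hWl : ∀ k < nt, Wf R T0 (Xn k) ≤ Wl k)
    (hWr : ∀ k < nt, (1 ≤ T0 * R ∧ Wf R T0 (Xn (k + 1)) ≤ Wr k) ∨ Wf R T0 (Xn k) ≤ Wr k) :
    Real.exp (-((T - T0) * el R (xn J0))) *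
        (unitS J0 J1 p s n1 n2 Wa Wb EL (E 0) - tailS nt g E Wl Wr) ≤
      (Complex.exp ((φ : ℂ) * Complex.I) * ∫ x in (0 : ℝ)..(Xn nt), q x).re := by
  rw [hr_int H.hq]
  have hR1 := H.hR
  have hR : 0 < R := by linarith
  have hJ31 : J0 ≤ 31 := by have := H.hJ; omega
  have hu := comb_unit H
  set f := Real.exp (-((T - T0) * el R (xn J0))) with hf
  have hf0 : 0 < f := Real.exp_pos _
  have ii : ∀ a b : ℝ, IntervalIntegrable (hr q φ) volume a b :=
    fun a b => (hr_cont H.hq φ).intervalIntegrable a b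
  have ht : ∀ k < nt, -(f * (g k / 48 * (2 * E k * Wl k + 2 * E (k + 1) * Wr k + E k * Wr k +
      E (k + 1) * Wl k))) ≤ ∫ x in (Xn k)..(Xn (k + 1)), hr q φ x := by
    intro k hk
    have hlt : Xn k < Xn (k + 1) := by rw [Xn_succ]; linarith
    have hkR : Xn (k + 1) < R := lt_of_le_of_lt (Xn_mono (show k + 1 ≤ nt by omega)) hxs
    have h1 := tail_cell (φ := φ) hlt hkR hR H.hK H.hμ H.hq (hg k hk)
      (fun x hx => htail k hk x hx.1 hx.2) (hE k hk.le) (hE (k + 1) (by omega))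
      (W_chord hR H.hT0 H.hT (xn_nonneg J0) (((xn_lt hJ31).le).trans (Xn_ge k)) hlt hkR
        (hWl k hk) (hWr k hk))
    refine le_trans (le_of_eq ?_) h1
    rw [Xn_succ]
    ring
  have e1 : ∫ x in (Xn 0)..(Xn nt), hr q φ x = ∑ k ∈ range nt, ∫ x in (Xn k)..(Xn (k + 1)),
      hr q φ x :=
    (intervalIntegral.sum_integral_adjacent_intervals fun j _ => ii _ _).symm
  rw [Xn_zero] at e1
  have e3 : ∫ x in (0 : ℝ)..(Xn nt), hr q φ x = (∫ x in (0 : ℝ)..1, hr q φ x) +
      (∫ x in (1 : ℝ)..(Xn nt), hr q φ x) :=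
    (intervalIntegral.integral_add_adjacent_intervals (ii _ _) (ii _ _)).symm
  rw [e3, e1]
  have s1 : -(f * tailS nt g E Wl Wr) ≤ ∑ k ∈ range nt, ∫ x in (Xn k)..(Xn (k + 1)),
      hr q φ x := by
    unfold tailS
    rw [Finset.mul_sum, ← Finset.sum_neg_distrib]
    exact Finset.sum_le_sum fun j hj => ht j (Finset.mem_range.1 hj)
  linarith

theorem int_exp_le {c a b : ℝ} (hc : 0 < c) :
    ∫ x in a..b, Real.exp (-(c * (x - a))) ≤ 1 / c := by
  have hd : ∀ x : ℝ, HasDerivAt (fun x : ℝ => -(Real.exp (-(c * (x - a))) / c))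
      (Real.exp (-(c * (x - a)))) x := by
    intro x
    have h1 : HasDerivAt (fun x : ℝ => -(c * (x - a))) (-c) x := by
      have h0 : HasDerivAt (fun x : ℝ => x - a) 1 x := (hasDerivAt_id x).sub_const a
      have := (h0.const_mul c).fun_neg
      simpa using this
    refine ((h1.exp.div_const c).neg).congr_deriv ?_
    field_simp
  have hcont : Continuous fun x : ℝ => Real.exp (-(c * (x - a))) := by fun_prop
  rw [intervalIntegral.integral_eq_sub_of_hasDerivAt (fun x _ => hd x)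
    (hcont.intervalIntegrable a b)]
  rw [sub_self, mul_zero, neg_zero, Real.exp_zero]
  have h2 : 0 ≤ Real.exp (-(c * (b - a))) / c := by positivity
  linarith

/-- **Case A**: the tail up to any `y ≥ 1`, `y < R`, `4 < R`, `nt = 24`, no factors `g` -/
theorem combA (H : CombH q Qf R T T0 K μ φ J0 J1 p s n1 n2 Wa Wb EL (E 0))
    (h4 : 4 < R) {y : ℝ} (hy1 : 1 ≤ y) (hyR : y < R)
    (htail : ∀ x : ℝ, 1 ≤ x → x ≤ y → ‖q x‖ ≤ Wf R T x * GK K μ x)
    (hTK : K / 3 < T0)
    (hE : ∀ k ≤ 24, GK K μ (Xn k) ≤ E k)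
    (hWl : ∀ k ≤ 24, Wf R T0 (Xn k) ≤ Wl k)
    (hWr : ∀ k < 24, (1 ≤ T0 * R ∧ Wf R T0 (Xn (k + 1)) ≤ Wr k) ∨ Wf R T0 (Xn k) ≤ Wr k) :
    Real.exp (-((T - T0) * el R (xn J0))) *
        (unitS J0 J1 p s n1 n2 Wa Wb EL (E 0) - tailS 24 (fun _ => 1) E Wl Wr -
          E 24 * Wl 24 / (T0 - K / 3)) ≤
      (Complex.exp ((φ : ℂ) * Complex.I) * ∫ x in (0 : ℝ)..y, q x).re := by
  rw [hr_int H.hq]
  have hR1 := H.hR
  have hR : 0 < R := by linarith
  have hK0 : 0 ≤ K := by have := H.hK; linarith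
  have hJ31 : J0 ≤ 31 := by have := H.hJ; omega
  have hu := comb_unit H
  set f := Real.exp (-((T - T0) * el R (xn J0))) with hf
  have hf0 : 0 < f := Real.exp_pos _
  have ii : ∀ a b : ℝ, IntervalIntegrable (hr q φ) volume a b :=
    fun a b => (hr_cont H.hq φ).intervalIntegrable a b
  have hGc : Continuous (GK K μ) := GK_cont hK0 μ
  set B : ℝ → ℝ := fun x => GK K μ x * Wf R T x with hB
  have hBc : ContinuousOn B (Set.Iio R) := hGc.continuousOn.mul (Wf_cont hR T)
  have hB0 : ∀ x, 0 ≤ B x := fun x => mul_nonneg (GK_nonneg H.hμ) (Wf_pos R T x).le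
  have iB : ∀ a b : ℝ, a < R → b < R → IntervalIntegrable B volume a b := by
    intro a b ha hb
    apply ContinuousOn.intervalIntegrable
    apply hBc.mono
    intro x hx
    exact lt_of_le_of_lt hx.2 (max_lt ha hb)
  set y' := max y 4 with hy'
  have hy'R : y' < R := max_lt hyR h4
  have hX24 : Xn 24 = 4 := by unfold Xn; norm_num
  -- cells
  have ht : ∀ k < 24, ∫ x in (Xn k)..(Xn (k + 1)), B x ≤
      f * (1 / 48 * (2 * E k * Wl k + 2 * E (k + 1) * Wr k + E k * Wr k + E (k + 1) * Wl k)) := by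
    intro k hk
    have hlt : Xn k < Xn (k + 1) := by rw [Xn_succ]; linarith
    have hkR : Xn (k + 1) < R := by
      refine lt_of_le_of_lt (Xn_mono (show k + 1 ≤ 24 by omega)) ?_
      rw [hX24]
      exact h4
    have h1 := WG_cell hlt hkR hR H.hK H.hμ (hE k hk.le) (hE (k + 1) (by omega))
      (W_chord hR H.hT0 H.hT (xn_nonneg J0) (((xn_lt hJ31).le).trans (Xn_ge k)) hlt hkR
        (hWl k hk.le) (hWr k hk))
    refine h1.trans (le_of_eq ?_)
    rw [Xn_succ]
    ring
  have e1 : ∫ x in (Xn 0)..(Xn 24), B x = ∑ k ∈ range 24, ∫ x in (Xn k)..(Xn (k + 1)), B x := by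
    refine (intervalIntegral.sum_integral_adjacent_intervals fun k hk => iB _ _ ?_ ?_).symm
    · refine lt_of_le_of_lt (Xn_mono hk.le) ?_
      rw [hX24]
      exact h4
    · refine lt_of_le_of_lt (Xn_mono (show k + 1 ≤ 24 by omega)) ?_
      rw [hX24]
      exact h4
  rw [Xn_zero, hX24] at e1
  have s1 : ∫ x in (1 : ℝ)..4, B x ≤ f * tailS 24 (fun _ => 1) E Wl Wr := by
    rw [e1]
    unfold tailS
    rw [Finset.mul_sum]
    exact Finset.sum_le_sum fun j hj => ht j (Finset.mem_range.1 hj)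
  -- the rest
  have hc : 0 < T0 - K / 3 := by linarith
  have hW24 : Wf R T0 4 ≤ Wl 24 := by
    have := hWl 24 le_rfl
    rwa [hX24] at this
  have hE24 : GK K μ 4 ≤ E 24 := by
    have := hE 24 le_rfl
    rwa [hX24] at this
  have hE240 : 0 ≤ E 24 := (GK_nonneg H.hμ).trans hE24
  have hW240 : 0 ≤ Wl 24 := (Wf_pos _ _ _).le.trans hW24
  have s2 : ∫ x in (4 : ℝ)..y', B x ≤ f * (E 24 * Wl 24 / (T0 - K / 3)) := by
    have h5 : ∫ x in (4 : ℝ)..y', B x ≤
        ∫ x in (4 : ℝ)..y', (f * (E 24 * Wl 24)) * Real.exp (-((T0 - K / 3) * (x - 4))) := by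
      apply intervalIntegral.integral_mono_on (le_max_right _ _) (iB _ _ h4 hy'R)
      · have : Continuous fun x : ℝ => (f * (E 24 * Wl 24)) *
          Real.exp (-((T0 - K / 3) * (x - 4))) := by fun_prop
        exact this.intervalIntegrable _ _
      · intro x hx
        have hxR : x < R := lt_of_le_of_lt hx.2 hy'R
        have a1 : GK K μ x ≤ E 24 * Real.exp (K / 3 * (x - 4)) :=
          (GK_growth hK0 H.hμ hx.1).trans
            (mul_le_mul_of_nonneg_right hE24 (Real.exp_pos _).le)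
        have a2 : Wf R T0 x ≤ Wl 24 * Real.exp (-(T0 * (x - 4))) := by
          have h6 : Wf R T0 x ≤ Wf R T0 4 * Real.exp (-(T0 * (x - 4))) := by
            unfold Wf
            rw [← Real.exp_add]
            apply Real.exp_le_exp.2
            have h7 := mul_le_mul_of_nonneg_left (el_sub_ge hR (by norm_num) hx.1 hxR) H.hT0
            linarith
          exact h6.trans (mul_le_mul_of_nonneg_right hW24 (Real.exp_pos _).le)
        have a3 : Wf R T x ≤ f * (Wl 24 * Real.exp (-(T0 * (x - 4)))) := by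
          refine (Wf_le hR H.hT (xn_nonneg J0) (((xn_lt hJ31).le).trans (by linarith [hx.1]))
            hxR).trans ?_
          exact mul_le_mul_of_nonneg_left a2 hf0.le
        have a4 := mul_le_mul a1 a3 (Wf_pos R T x).le
          (mul_nonneg hE240 (Real.exp_pos (K / 3 * (x - 4))).le)
        refine a4.trans (le_of_eq ?_)
        have e5 : Real.exp (-((T0 - K / 3) * (x - 4))) =
            Real.exp (K / 3 * (x - 4)) * Real.exp (-(T0 * (x - 4))) := by
          rw [← Real.exp_add]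
          congr 1
          ring
        rw [e5]
        ring
    refine h5.trans ?_
    rw [intervalIntegral.integral_const_mul]
    have h6 := mul_le_mul_of_nonneg_left (int_exp_le (a := 4) (b := y') hc)
      (mul_nonneg hf0.le (mul_nonneg hE240 hW240))
    refine h6.trans (le_of_eq ?_)
    ring
  have h7 : ∫ x in (1 : ℝ)..y', B x ≤ f * (tailS 24 (fun _ => 1) E Wl Wr +
      E 24 * Wl 24 / (T0 - K / 3)) := by
    rw [← intervalIntegral.integral_add_adjacent_intervals (iB 1 4 hR1 h4) (iB 4 y' h4 hy'R)]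
    linarith
  have h8 : ∫ x in (1 : ℝ)..y, B x ≤ ∫ x in (1 : ℝ)..y', B x := by
    rw [← intervalIntegral.integral_add_adjacent_intervals (iB 1 y hR1 hyR) (iB y y' hyR hy'R)]
    have : 0 ≤ ∫ x in y..y', B x :=
      intervalIntegral.integral_nonneg (le_max_left _ _) fun x _ => hB0 x
    linarith
  have h9 : -(∫ x in (1 : ℝ)..y, B x) ≤ ∫ x in (1 : ℝ)..y, hr q φ x := by
    apply abs_cell hy1 H.hq (iB 1 y hR1 hyR) _ le_rfl
    intro x hx
    refine (htail x hx.1.le hx.2.le).trans (le_of_eq ?_)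
    simp only [hB]
    ring
  have e3 : ∫ x in (0 : ℝ)..y, hr q φ x = (∫ x in (0 : ℝ)..1, hr q φ x) +
      (∫ x in (1 : ℝ)..y, hr q φ x) :=
    (intervalIntegral.integral_add_adjacent_intervals (ii _ _) (ii _ _)).symm
  rw [e3]
  have e6 : f * (unitS J0 J1 p s n1 n2 Wa Wb EL (E 0) - tailS 24 (fun _ => 1) E Wl Wr -
      E 24 * Wl 24 / (T0 - K / 3)) = f * unitS J0 J1 p s n1 n2 Wa Wb EL (E 0) -
      f * (tailS 24 (fun _ => 1) E Wl Wr + E 24 * Wl 24 / (T0 - K / 3)) := by ring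
  rw [e6]
  linarith

end

/-! ### glue with the swept function -/

theorem qq_eq_Wf {N : ℕ} {K R : ℝ} {u : Fin N → ℂ} (hR : R ≠ 0) (x : ℝ) :
    qq u x = ((Wf R ((N - K) / R) x : ℝ) : ℂ) * QR K R u x := by
  rw [qq_eq_QR (K := K) (R := R) x]
  congr 3
  unfold el
  field_simp

theorem RepR_norm_GK {K : ℝ} {m : ℂ} {Q : ℝ → ℂ} (H : RepR K m Q) {x : ℝ} (h0 : 0 ≤ x)
    (h1 : x < 1) : ‖Q x‖ ≤ GK K m.re x := by
  have hm : |m.re| ≤ 1 := (Complex.abs_re_le_norm _).trans H.m_le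
  rw [GK_exp (gg_pos hm (by linarith) h1)]
  exact H.norm_le h0 h1

end Pool.Agent.Lib.MP_af3a4a_an.P1.H11
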