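import Pool.Agent.Lib.MP_af3a4a_an.P1.H28.CellN
import Pool.Agent.Lib.MP_af3a4a_an.P1.H21.VTT0
import Pool.Agent.Lib.MP_af3a4a_an.P1.CHK.Curve.Defs

/-!
# The cells of BIGR, forms which the kernel evaluates fast (council 2, helper11)

The same functions as in `H28.CellN`, with `Nat.add` etc. and recursors; every function is equal to
the original one.
-/

set_option autoImplicit false

namespace Pool.Agent.Lib.MP_af3a4a_an.P1.H11

open Pool.Agent.Lib.MP_af3a4a_an.P1.CHK.Arith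
open Pool.Agent.Lib.MP_af3a4a_an.P1.CHK.Curve (bi bi_eq)
open Pool.Agent.Lib.MP_af3a4a_an.P1.H28
open Pool.Agent.Lib.MP_af3a4a_an.P1.H21 (vtBig vtTi vtI vtT)

def emF (m : ℕ) : ℕ :=
  ev (Nat.shiftRight m 8) fun t => ev (Nat.mul t t) fun t2 =>
    Nat.add (Nat.shiftRight (Nat.pow (Nat.add (Nat.div (Nat.sub
      (Nat.add 35076039295941670036888435985190792471742381031424
        (Nat.mul t2 (Nat.add 14507109835375550096474112 t2)))
      (Nat.mul (Nat.mul 4398046511104 t) (Nat.add 7253554917687775048237056 t2)))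
      31901471898837980949691369446728269824) 1) 256) 10200) 1

theorem emF_eq (m : ℕ) : emF m = em m := rfl

def emLF (m : ℕ) : ℕ :=
  ev (Nat.add (Nat.shiftRight m 8) 1) fun t => ev (Nat.mul t t) fun t2 =>
    Nat.shiftRight (Nat.pow (Nat.div (Nat.sub
      (Nat.add 7975367974709495237422842361682067456 (Nat.mul 3298534883328 t2))
      (Nat.mul t (Nat.add 7253554917687775048237056 t2))) 7253554917687775048237056) 256) 10200

theorem emLF_eq (m : ℕ) : emLF m = emL m := rfl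

def epF (p : ℕ) : ℕ :=
  ev (Nat.add (Nat.shiftRight p 8) 1) fun t => ev (Nat.mul t t) fun t2 =>
    bi (Nat.ble t 1099511627776)
      (Nat.add (Nat.shiftRight (Nat.pow (Nat.add (Nat.div
        8769009823985417509222108996297698117935595257856
        (Nat.sub (Nat.add 7975367974709495237422842361682067456 (Nat.mul 3298534883328 t2))
          (Nat.mul t (Nat.add 7253554917687775048237056 t2)))) 1) 256) 10200) 1)
      (Nat.mul (Nat.pow 3 (Nat.add (Nat.shiftRight p 40) 1)) 1099511627776)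

theorem epF_eq (p : ℕ) : epF p = ep p := by
  unfold epF ep
  simp only [ev_eq, bi_eq]
  rfl

def emXF (m : ℕ) : ℕ :=
  ev (Nat.shiftRight m 8) fun t => ev (Nat.mul t t) fun t2 =>
    Nat.add (Nat.shiftRight (Nat.pow (Nat.add (Nat.div (Nat.sub
      (Nat.add 35076039295941670036888435985190792471742381031424
        (Nat.mul t2 (Nat.add 14507109835375550096474112 t2)))
      (Nat.mul (Nat.mul 4398046511104 t) (Nat.add 7253554917687775048237056 t2)))
      31901471898837980949691369446728269824) 1) 256) 10040) 1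

theorem emXF_eq (m : ℕ) : emXF m = emX m := rfl

def emMF (m : ℕ) : ℕ := ev (emF m) fun a => Nat.sub a (Nat.sub a 1099511627776)

theorem emMF_eq (m : ℕ) : emMF m = emM m := by
  unfold emMF emM
  rw [emF_eq]
  rfl

def dgF (P j : ℕ) : ℕ :=
  Nat.mod (Nat.shiftRight P (Nat.mul 128 j)) 340282366920938463463374607431768211456

theorem dgF_eq (P j : ℕ) : dgF P j = dg P j := rfl

/-! ### the function `l` -/

noncomputable def phUF (n i : ℕ) : ℕ → ℕ :=
  Nat.rec (fun h => h) (fun i ih h =>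
    ev (Nat.add (Nat.add (Nat.div 1099511627776 (Nat.add i 1))
      (Nat.shiftRight (Nat.mul n h) 15)) 2) fun h => ih h) i

theorem phUF_eq (n : ℕ) : ∀ i h : ℕ, phUF n i h = phU n i h := by
  intro i
  induction i with
  | zero => exact fun h => rfl
  | succ i ih =>
    intro h
    have e1 : phUF n (i + 1) h = ev (1099511627776 / (i + 1) + (n * h) >>> 15 + 2)
        fun h => phUF n i h := rfl
    have e2 : phU n (i + 1) h = ev (1099511627776 / (i + 1) + (n * h) >>> 15 + 2)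
        fun h => phU n i h := rfl
    rw [e1, e2, ev_eq, ev_eq, ih]

noncomputable def phLF (n i : ℕ) : ℕ → ℕ :=
  Nat.rec (fun h => h) (fun i ih h =>
    ev (Nat.add (Nat.div 1099511627776 (Nat.add i 1))
      (Nat.shiftRight (Nat.mul n h) 15)) fun h => ih h) i

theorem phLF_eq (n : ℕ) : ∀ i h : ℕ, phLF n i h = phL n i h := by
  intro i
  induction i with
  | zero => exact fun h => rfl
  | succ i ih =>
    intro h
    have e1 : phLF n (i + 1) h = ev (1099511627776 / (i + 1) + (n * h) >>> 15)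
        fun h => phLF n i h := rfl
    have e2 : phL n (i + 1) h = ev (1099511627776 / (i + 1) + (n * h) >>> 15)
        fun h => phL n i h := rfl
    rw [e1, e2, ev_eq, ev_eq, ih]

noncomputable def lUF (e j : ℕ) : ℕ :=
  ev (Nat.mul e j) fun ej => Nat.add (Nat.shiftRight (Nat.mul j (phUF ej 16
    (Nat.add (Nat.div 36028797018963968 (Nat.mul 17 (Nat.sub 32768 ej))) 1))) 5) 1

theorem lUF_eq (e j : ℕ) : lUF e j = lU e j := by
  unfold lUF lU
  rw [ev_eq, phUF_eq]
  rfl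

noncomputable def lLF (e j : ℕ) : ℕ :=
  ev (Nat.mul e j) fun ej => Nat.shiftRight (Nat.mul j (phLF ej 16 64677154575)) 5

theorem lLF_eq (e j : ℕ) : lLF e j = lL e j := by
  unfold lLF lL
  rw [ev_eq, phLF_eq]
  rfl

noncomputable def hsTF (e j : ℕ) : ℕ → ℕ → ℕ :=
  Nat.rec (fun _ acc => acc) (fun j ih pr acc => ev (lUF e j) fun c =>
    ev (Nat.add (Nat.mul acc 340282366920938463463374607431768211456)
      (Nat.add (Nat.shiftRight (Nat.add pr c) 1) 1)) fun acc => ih c acc) j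

theorem hsTF_eq (e : ℕ) : ∀ j pr acc : ℕ, hsTF e j pr acc = hsT e j pr acc := by
  intro j
  induction j with
  | zero => exact fun _ _ => rfl
  | succ j ih =>
    intro pr acc
    have e1 : hsTF e (j + 1) pr acc = ev (lUF e j) fun c =>
        ev (acc * 340282366920938463463374607431768211456 + ((pr + c) >>> 1 + 1)) fun acc =>
          hsTF e j c acc := rfl
    have e2 : hsT e (j + 1) pr acc = ev (lU e j) fun c =>
        ev (acc * 340282366920938463463374607431768211456 + ((pr + c) >>> 1 + 1)) fun acc =>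
          hsT e j c acc := rfl
    rw [e1, e2]
    simp only [ev_eq]
    rw [lUF_eq, ih]

noncomputable def ldTF (e a b j : ℕ) : ℕ → ℕ :=
  Nat.rec (fun acc => acc) (fun j ih acc =>
    ev (Nat.add (Nat.mul acc 340282366920938463463374607431768211456)
      (lLF e (Nat.add a (Nat.mul b j)))) fun acc => ih acc) j

theorem ldTF_eq (e a b : ℕ) : ∀ j acc : ℕ, ldTF e a b j acc = ldT e a b j acc := by
  intro j
  induction j with
  | zero => exact fun _ => rfl
  | succ j ih =>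
    intro acc
    have e1 : ldTF e a b (j + 1) acc = ev (acc * 340282366920938463463374607431768211456 +
        lLF e (a + b * j)) fun acc => ldTF e a b j acc := rfl
    have e2 : ldT e a b (j + 1) acc = ev (acc * 340282366920938463463374607431768211456 +
        lL e (a + b * j)) fun acc => ldT e a b j acc := rfl
    rw [e1, e2]
    simp only [ev_eq]
    rw [lLF_eq, ih]

def gaFF (e k : ℕ) : ℕ :=
  ev (Nat.mul 8 (Nat.sub (Nat.mul 128 (Nat.add 9 k)) e)) fun P =>
  ev (Nat.sub 8192 (Nat.mul e (Nat.add 9 k))) fun Q => ev (Nat.mul P Q) fun PQ =>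
    ev (Nat.add (Nat.add (Nat.mul P P) (Nat.mul Q Q)) (Nat.mul 4 PQ)) fun D =>
    ev (Nat.sub 1048576 (Nat.mul e e)) fun F =>
      ev (Nat.sub (Nat.mul (Nat.mul 1024 e) D) (Nat.mul (Nat.mul 3 PQ) F)) fun Y =>
        bi (Nat.beq Y 0) 0 (Nat.add (Nat.div (Nat.shiftLeft (Nat.mul (Nat.sub (Nat.mul P P)
          (Nat.mul Q Q)) Y) 40) (Nat.mul (Nat.mul PQ F) D)) 1)

theorem gaFF_eq (e k : ℕ) : gaFF e k = gaF e k := by
  unfold gaFF gaF
  simp only [ev_eq, bi_eq]
  rfl

noncomputable def gaTF (e j : ℕ) : ℕ → ℕ :=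
  Nat.rec (fun acc => acc) (fun j ih acc =>
    ev (Nat.add (Nat.mul acc 340282366920938463463374607431768211456) (gaFF e j))
      fun acc => ih acc) j

theorem gaTF_eq (e : ℕ) : ∀ j acc : ℕ, gaTF e j acc = gaT e j acc := by
  intro j
  induction j with
  | zero => exact fun _ => rfl
  | succ j ih =>
    intro acc
    have e1 : gaTF e (j + 1) acc = ev (acc * 340282366920938463463374607431768211456 +
        gaFF e j) fun acc => gaTF e j acc := rfl
    have e2 : gaT e (j + 1) acc = ev (acc * 340282366920938463463374607431768211456 +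
        gaF e j) fun acc => gaT e j acc := rfl
    rw [e1, e2]
    simp only [ev_eq]
    rw [gaFF_eq, ih]

/-! ### the cells of `ε` -/

noncomputable def mkAF (e0 e1 nd : ℕ) (r : EC) (k : EC → Bool) : Bool :=
  ev (lUF e1 32) fun L1 => ev (lUF e1 31) fun pr => ev (hsTF e1 31 pr 0) fun HS =>
    ev (ldTF e0 0 1 32 0) fun LD => ev (ldTF e0 32 4 25 0) fun LT =>
      bi (Nat.ble e0 e1) (bi (Nat.ble e1 170) (k (EC.A e0 e1 HS L1 LD LT nd r)) false) false

theorem bi_bi (a b : Bool) {α : Type} (x y : α) : bi a (bi b x y) y = bif a && b then x else y := by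
  cases a <;> cases b <;> rfl

theorem mkAF_eq (e0 e1 nd : ℕ) (r : EC) (k : EC → Bool) :
    mkAF e0 e1 nd r k = mkA e0 e1 nd r k := by
  unfold mkAF mkA
  simp only [ev_eq]
  rw [lUF_eq, lUF_eq, hsTF_eq, ldTF_eq, ldTF_eq, bi_bi]

def lrOKF (e1 LR : ℕ) : Bool :=
  bi (Nat.ble 424 e1) (Nat.ble (Nat.mul (epF LR) 12) 31885837205504)
    (Nat.ble (Nat.mul (epF LR) e1) 1125899906842624)

theorem lrOKF_eq (e1 LR : ℕ) : lrOKF e1 LR = lrOK e1 LR := by
  unfold lrOKF lrOK
  rw [epF_eq, bi_eq]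
  rfl

noncomputable def mkBF (e0 e1 nt LR : ℕ) (vt : ℕ → ℕ) (r : EC) (k : EC → Bool) : Bool :=
  ev (lUF e1 32) fun L1 => ev (lUF e1 31) fun pr => ev (hsTF e1 31 pr 0) fun HS =>
    ev (ldTF e0 0 1 32 0) fun LD => ev (ldTF e0 32 4 (Nat.add nt 1) 0) fun LT =>
    ev (gaTF e1 nt 0) fun GA =>
      bi (Nat.ble e0 e1) (bi (Nat.ble e1 424) (bi (Nat.ble nt 24)
        (bi (Nat.ble (Nat.mul (Nat.mul 5 e1) (Nat.add 8 nt)) 24576) (bi (lrOKF e1 LR)
          (k (EC.B e0 e1 nt LR HS L1 LD LT GA vt r)) false) false) false) false) false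

theorem mkBF_eq (e0 e1 nt LR : ℕ) (vt : ℕ → ℕ) (r : EC) (k : EC → Bool) :
    mkBF e0 e1 nt LR vt r k = mkB e0 e1 nt LR vt r k := by
  unfold mkBF mkB
  simp only [ev_eq]
  rw [lUF_eq, lUF_eq, hsTF_eq, ldTF_eq, ldTF_eq, gaTF_eq, lrOKF_eq]
  have e1' : Nat.mul (Nat.mul 5 e1) (Nat.add 8 nt) = 5 * e1 * (8 + nt) := rfl
  have e2 : Nat.add nt 1 = nt + 1 := rfl
  rw [e1', e2]
  cases Nat.ble e0 e1 <;> cases Nat.ble e1 424 <;> cases Nat.ble nt 24 <;>
    cases Nat.ble (5 * e1 * (8 + nt)) 24576 <;> cases lrOK e1 LR <;> rfl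

/-! ### weights -/

noncomputable def ssTF (t HS j : ℕ) : ℕ → ℕ :=
  Nat.rec (fun acc => acc) (fun j ih acc =>
    ev (Nat.add (Nat.mul acc 340282366920938463463374607431768211456)
      (emLF (Nat.add (Nat.shiftRight (Nat.mul t (dgF HS j)) 23) 1))) fun acc => ih acc) j

theorem ssTF_eq (t HS : ℕ) : ∀ j acc : ℕ, ssTF t HS j acc = ssT t HS j acc := by
  intro j
  induction j with
  | zero => exact fun _ => rfl
  | succ j ih =>
    intro acc
    have e1 : ssTF t HS (j + 1) acc = ev (acc * 340282366920938463463374607431768211456 +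
        emLF ((t * dgF HS j) >>> 23 + 1)) fun acc => ssTF t HS j acc := rfl
    have e2 : ssT t HS (j + 1) acc = ev (acc * 340282366920938463463374607431768211456 +
        emL ((t * dg HS j) >>> 23 + 1)) fun acc => ssT t HS j acc := rfl
    rw [e1, e2]
    simp only [ev_eq]
    rw [emLF_eq, dgF_eq, ih]

noncomputable def wwTF (t LD j : ℕ) : ℕ → ℕ :=
  Nat.rec (fun acc => acc) (fun j ih acc =>
    ev (Nat.add (Nat.mul acc 340282366920938463463374607431768211456)
      (emMF (Nat.shiftRight (Nat.mul t (dgF LD j)) 23))) fun acc => ih acc) j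

theorem wwTF_eq (t LD : ℕ) : ∀ j acc : ℕ, wwTF t LD j acc = wwT t LD j acc := by
  intro j
  induction j with
  | zero => exact fun _ => rfl
  | succ j ih =>
    intro acc
    have e1 : wwTF t LD (j + 1) acc = ev (acc * 340282366920938463463374607431768211456 +
        emMF ((t * dgF LD j) >>> 23)) fun acc => wwTF t LD j acc := rfl
    have e2 : wwT t LD (j + 1) acc = ev (acc * 340282366920938463463374607431768211456 +
        emM ((t * dg LD j) >>> 23)) fun acc => wwT t LD j acc := rfl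
    rw [e1, e2]
    simp only [ev_eq]
    rw [emMF_eq, dgF_eq, ih]

noncomputable def tlTF (k t : ℕ) (cv : Bool) (LT GA EE j : ℕ) : ℕ → ℕ → ℕ → ℕ :=
  Nat.rec (fun _ _ acc => acc) (fun j ih Wn En acc =>
    ev (emXF (Nat.shiftRight (Nat.mul t (dgF LT j)) 23)) fun W => ev (dgF EE j) fun E =>
    ev (dgF GA j) fun g =>
    ev (bi (Nat.beq g 0) 1099511627776 (epF (Nat.add (Nat.shiftRight (Nat.mul k g) 4) 1))) fun g =>
    ev (Nat.add acc (Nat.mul g (Nat.add (Nat.mul W (Nat.add (Nat.mul 2 E) En))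
      (Nat.mul (bi cv Wn W) (Nat.add (Nat.mul 2 En) E))))) fun acc => ih W E acc) j

theorem tlTF_eq (k t : ℕ) (cv : Bool) (LT GA EE : ℕ) : ∀ j Wn En acc : ℕ,
    tlTF k t cv LT GA EE j Wn En acc = tlT k t cv LT GA EE j Wn En acc := by
  intro j
  induction j with
  | zero => exact fun _ _ _ => rfl
  | succ j ih =>
    intro Wn En acc
    have e1 : tlTF k t cv LT GA EE (j + 1) Wn En acc =
      ev (emXF ((t * dgF LT j) >>> 23)) fun W => ev (dgF EE j) fun E =>
        ev (dgF GA j) fun g =>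
          ev (bi (Nat.beq g 0) 1099511627776 (epF ((k * g) >>> 4 + 1))) fun g =>
            ev (acc + g * (W * (2 * E + En) + (bi cv Wn W) * (2 * En + E))) fun acc =>
              tlTF k t cv LT GA EE j W E acc := rfl
    have e2 : tlT k t cv LT GA EE (j + 1) Wn En acc =
      ev (emX ((t * dg LT j) >>> 23)) fun W => ev (dg EE j) fun E =>
        ev (dg GA j) fun g =>
          ev (bif Nat.beq g 0 then 1099511627776 else ep ((k * g) >>> 4 + 1)) fun g =>
            ev (acc + g * (W * (2 * E + En) + (bif cv then Wn else W) * (2 * En + E))) fun acc =>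
              tlT k t cv LT GA EE j W E acc := rfl
    rw [e1, e2]
    simp only [ev_eq, emXF_eq, dgF_eq, epF_eq, bi_eq, ih]

noncomputable def tlSF (k t : ℕ) (cv : Bool) (LT GA EE nt : ℕ) : ℕ :=
  ev (emXF (Nat.shiftRight (Nat.mul t (dgF LT nt)) 23)) fun W => ev (dgF EE nt) fun E =>
    tlTF k t cv LT GA EE nt W E 0

theorem tlSF_eq (k t : ℕ) (cv : Bool) (LT GA EE nt : ℕ) :
    tlSF k t cv LT GA EE nt = tlS k t cv LT GA EE nt := by
  unfold tlSF tlS
  simp only [ev_eq, tlTF_eq, emXF_eq, dgF_eq]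
  rfl

/-! ### thresholds -/

def t0FF (k km e0 e1 B : ℕ) : ℕ :=
  ev (Nat.sub (Nat.shiftLeft km 19) (Nat.mul (Nat.mul k e1) B)) fun a =>
  ev (Nat.shiftLeft (Nat.mul (Nat.sub 96 k) e0) 9) fun b =>
  ev (Nat.sub 16777216 (Nat.shiftLeft (Nat.mul (Nat.add k 32) e1) 9)) fun c =>
  ev (Nat.add a (Nat.sub b a)) fun a => Nat.add a (Nat.sub c a)

theorem t0FF_eq (k km e0 e1 B : ℕ) : t0FF k km e0 e1 B = t0F k km e0 e1 B := rfl

def t1FF (k e0 A : ℕ) : ℕ := Nat.sub (Nat.shiftLeft k 19) (Nat.mul (Nat.mul k e0) A)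

theorem t1FF_eq (k e0 A : ℕ) : t1FF k e0 A = t1F k e0 A := rfl

def ndFF (k e0 t t1 L1 v : ℕ) : ℕ :=
  Nat.add (Nat.div (Nat.shiftLeft (Nat.mul (epF (Nat.add (Nat.shiftRight (Nat.mul (Nat.sub t1 t)
    L1) 23) 1)) v) 28) (Nat.add t (Nat.shiftLeft (Nat.mul (Nat.add k 16) e0) 9))) 1

theorem ndFF_eq (k e0 t t1 L1 v : ℕ) : ndFF k e0 t t1 L1 v = ndF k e0 t t1 L1 v := by
  unfold ndFF ndF
  rw [epF_eq]
  rfl

def ndUF (N P Q LR : ℕ) : ℕ :=
  ev (Nat.mul Q N) fun QN =>
  ev (Nat.add (Nat.div (Nat.mul (Nat.pow (Nat.sub QN (Nat.sub P Q)) N) 1099511627776)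
    (Nat.pow QN N)) 1) fun a =>
  ev (emF (Nat.div (Nat.mul (Nat.mul N (Nat.sub P (Nat.mul 2 Q))) LR) (Nat.sub P Q))) fun b =>
    Nat.add (Nat.shiftRight (Nat.mul a b) 40) 1

theorem ndUF_eq (N P Q LR : ℕ) : ndUF N P Q LR = ndU N P Q LR := by
  unfold ndUF ndU
  simp only [ev_eq, emF_eq]
  rfl

def n0FF (k t e1 : ℕ) : ℕ :=
  ev (Nat.mul 8192 e1) fun q =>
  ev (Nat.div (Nat.add (Nat.add (Nat.shiftLeft (Nat.mul k e1) 9) t) (Nat.sub q 1)) q) fun n =>
    Nat.add 6 (Nat.sub n 6)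

theorem n0FF_eq (k t e1 : ℕ) : n0FF k t e1 = n0F k t e1 := by
  unfold n0FF n0F
  simp only [ev_eq]
  rfl

/-! ### the triples of a column -/

noncomputable def cellAF (k km A B EL EE e0 e1 HS L1 LD LT nd : ℕ) (r : CT) (kk : CT → Bool) :
    Bool :=
  ev (t0FF k km e0 e1 B) fun t => ev (t1FF k e0 A) fun t1 =>
    bi (Nat.ble t t1)
      (ev (Nat.sub (Nat.mul 48 t) (Nat.shiftLeft k 23)) fun D =>
      ev (Nat.add t (Nat.shiftLeft (Nat.mul (Nat.add k 16) e0) 9)) fun nf =>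
      bi (Nat.ble 1 D) (bi (Nat.ble 1 nf)
        (ev (ssTF t HS 31 0) fun SS => ev (wwTF t LD 32 0) fun WW =>
        ev (bi (Nat.ble (Nat.shiftLeft e1 13) t) (Nat.shiftRight WW 128) WW) fun WB =>
        ev (bi (Nat.ble (Nat.shiftLeft e1 13) t) (tlSF k t true LT 0 EE 24)
          (tlSF k t false LT 0 EE 24)) fun S =>
        ev (Nat.add (Nat.div (Nat.mul (Nat.mul (emXF (Nat.shiftRight (Nat.mul t (dgF LT 24)) 23))
          (dgF EE 24)) 48) (Nat.shiftLeft D 132)) 1) fun rs =>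
        ev (Nat.add (Nat.add (Nat.add (Nat.add (Nat.shiftRight (Nat.mul (Nat.add EL (dgF EE 0))
          (dgF WW 31)) 1) 1) (Nat.add (Nat.div (Nat.mul 2 S) (Nat.shiftLeft 3 200)) 1)) rs)
          (ndFF k e0 t t1 L1 nd)) fun TH => kk (CT.cons SS WW WB TH r)) false) false)
    (kk r)

theorem bi_tlS (k t : ℕ) (c : Bool) (LT GA EE nt : ℕ) :
    bi c (tlSF k t true LT GA EE nt) (tlSF k t false LT GA EE nt) = tlS k t c LT GA EE nt := by
  cases c
  · exact tlSF_eq ..
  · exact tlSF_eq ..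

theorem cellAF_eq (k km A B EL EE e0 e1 HS L1 LD LT nd : ℕ) (r : CT) (kk : CT → Bool) :
    cellAF k km A B EL EE e0 e1 HS L1 LD LT nd r kk =
      cellA k km A B EL EE e0 e1 HS L1 LD LT nd r kk := by
  unfold cellAF cellA
  simp only [ev_eq, t0FF_eq, t1FF_eq, ssTF_eq, wwTF_eq, bi_tlS, emXF_eq, dgF_eq, ndFF_eq]
  rw [bi_bi, bi_eq, bi_eq]
  rfl

noncomputable def cellBF (k km A B EL EE e0 e1 nt LR HS L1 LD LT GA : ℕ) (vt : ℕ → ℕ) (r : CT)
    (kk : CT → Bool) : Bool :=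
  ev (t0FF k km e0 e1 B) fun t => ev (t1FF k e0 A) fun t1 =>
    bi (Nat.ble t t1)
      (ev (Nat.add t (Nat.shiftLeft (Nat.mul (Nat.add k 16) e0) 9)) fun nf =>
      ev (n0FF k t e1) fun N0 =>
      bi (Nat.ble 1 nf)
        (ev (ssTF t HS 31 0) fun SS => ev (wwTF t LD 32 0) fun WW =>
        ev (bi (Nat.ble (Nat.shiftLeft e1 13) t) (Nat.shiftRight WW 128) WW) fun WB =>
        ev (bi (Nat.ble (Nat.shiftLeft e1 13) t) (tlSF k t true LT GA EE nt)
          (tlSF k t false LT GA EE nt)) fun S =>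
        ev (Nat.add (vt N0) (bi (Nat.ble 424 e1) (ndUF N0 29 12 LR) (ndUF N0 1024 e1 LR))) fun v =>
        ev (Nat.add (Nat.add (Nat.add (Nat.shiftRight (Nat.mul (Nat.add EL (dgF EE 0))
          (dgF WW 31)) 1) 1) (Nat.add (Nat.div (Nat.mul 2 S) (Nat.shiftLeft 3 200)) 1))
          (ndFF k e0 t t1 L1 v)) fun TH => kk (CT.cons SS WW WB TH r)) false)
    (kk r)

theorem cellBF_eq (k km A B EL EE e0 e1 nt LR HS L1 LD LT GA : ℕ) (vt : ℕ → ℕ) (r : CT)
    (kk : CT → Bool) :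
    cellBF k km A B EL EE e0 e1 nt LR HS L1 LD LT GA vt r kk =
      cellB k km A B EL EE e0 e1 nt LR HS L1 LD LT GA vt r kk := by
  unfold cellBF cellB
  simp only [ev_eq, t0FF_eq, t1FF_eq, n0FF_eq, ssTF_eq, wwTF_eq, bi_tlS, ndUF_eq, dgF_eq,
    ndFF_eq]
  simp only [bi_eq]
  rfl

noncomputable def cellsKF (k km A B EL EE : ℕ) (ec : EC) : CT → (CT → Bool) → Bool :=
  EC.rec (motive := fun _ => CT → (CT → Bool) → Bool) (fun r kk => kk r)
    (fun e0 e1 HS L1 LD LT nd _ ih r kk =>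
      cellAF k km A B EL EE e0 e1 HS L1 LD LT nd r fun r => ih r kk)
    (fun e0 e1 nt LR HS L1 LD LT GA vt _ ih r kk =>
      cellBF k km A B EL EE e0 e1 nt LR HS L1 LD LT GA vt r fun r => ih r kk) ec

theorem cellsKF_eq (k km A B EL EE : ℕ) : ∀ (ec : EC) (r : CT) (kk : CT → Bool),
    cellsKF k km A B EL EE ec r kk = cellsK k km A B EL EE ec r kk := by
  intro ec
  induction ec with
  | nil => exact fun _ _ => rfl
  | A e0 e1 HS L1 LD LT nd c ih =>
    intro r kk
    have h1 : cellsKF k km A B EL EE (EC.A e0 e1 HS L1 LD LT nd c) r kk =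
      cellAF k km A B EL EE e0 e1 HS L1 LD LT nd r fun r => cellsKF k km A B EL EE c r kk := rfl
    have h2 : (fun r => cellsKF k km A B EL EE c r kk) = fun r => cellsK k km A B EL EE c r kk :=
      funext fun r => ih r kk
    rw [h1, h2, cellAF_eq]
    rfl
  | B e0 e1 nt LR HS L1 LD LT GA vt c ih =>
    intro r kk
    have h1 : cellsKF k km A B EL EE (EC.B e0 e1 nt LR HS L1 LD LT GA vt c) r kk =
      cellBF k km A B EL EE e0 e1 nt LR HS L1 LD LT GA vt r
        fun r => cellsKF k km A B EL EE c r kk := rfl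
    have h2 : (fun r => cellsKF k km A B EL EE c r kk) = fun r => cellsK k km A B EL EE c r kk :=
      funext fun r => ih r kk
    rw [h1, h2, cellBF_eq]
    rfl

def dotNF (P W J : ℕ) : ℕ :=
  Nat.mod (Nat.shiftRight (Nat.mul P W) (Nat.mul 128 (Nat.sub J 1)))
    340282366920938463463374607431768211456

theorem dotNF_eq (P W J : ℕ) : dotNF P W J = dotN P W J := rfl

noncomputable def leafTF (J0 J1 PP N1 N2 : ℕ) (ct : CT) : Bool :=
  CT.rec (motive := fun _ => Bool) true (fun SS WW WB TH _ ih =>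
    bi (Nat.ble (Nat.add (Nat.add (dotNF N1 (Nat.shiftRight WW (Nat.mul 128 J0)) J1)
      (dotNF N2 (Nat.shiftRight WB (Nat.mul 128 J0)) J1)) TH) (dotNF PP SS J0)) ih false) ct

theorem leafTF_eq (J0 J1 PP N1 N2 : ℕ) : ∀ ct : CT,
    leafTF J0 J1 PP N1 N2 ct = leafT J0 J1 PP N1 N2 ct := by
  intro ct
  induction ct with
  | nil => rfl
  | cons SS WW WB TH r ih =>
    have h1 : leafTF J0 J1 PP N1 N2 (CT.cons SS WW WB TH r) =
      bi (Nat.ble (dotN N1 (WW >>> (128 * J0)) J1 + dotN N2 (WB >>> (128 * J0)) J1 + TH)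
        (dotN PP SS J0)) (leafTF J0 J1 PP N1 N2 r) false := rfl
    rw [h1, ih, bi_eq]
    rfl

/-! ### the table -/

def vtIF (e : ℕ) : ℕ :=
  bi (Nat.ble e 172) 0 (bi (Nat.ble e 408) (Nat.sub (Nat.div (Nat.add e 7) 8) 21)
    (Nat.sub (Nat.div (Nat.add e 3) 4) 72))

def vtTF (e N g : ℕ) : ℕ :=
  Nat.mod (Nat.shiftRight vtBig (Nat.mul 40 (Nat.add (Nat.mul (Nat.add (Nat.mul (vtIF e) 19)
    (bi (Nat.ble N 24) (Nat.sub N 6) 18)) 6) (Nat.sub g 34)))) 1099511627776

theorem vtTF_eq (e N g : ℕ) : vtTF e N g = vtT e N g := by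
  have h : vtIF e = vtI e := by
    unfold vtIF vtI
    rw [bi_eq, bi_eq]
    rfl
  unfold vtTF vtT vtTi
  rw [h, bi_eq]
  rfl

end Pool.Agent.Lib.MP_af3a4a_an.P1.H11
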