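import Pool.Agent.Lib.MP_af3a4a_an.P1.H11.Tree

/-!
# BIGR: soundness of the data theorems (council 2, helper11)
-/

set_option autoImplicit false

namespace Pool.Agent.Lib.MP_af3a4a_an.P1.H11

open MeasureTheory intervalIntegral
open Pool.Agent.Lib.MP_af3a4a_an.SV (uu av sq EE)
open Pool.Agent.Lib.MP_af3a4a_an.P1.H80
open Pool.Agent.Lib.MP_af3a4a_an.P1.CHK.Arith
open Pool.Agent.Lib.MP_af3a4a_an.P1.CHK.Curve (bi bi_and)
open Pool.Agent.Lib.MP_af3a4a_an.P1.H28 (EC mkA mkB)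
open Pool.Agent.Lib.MP_af3a4a_an.P1.H21 (vtT vtT_ok)

/-- soundness of `mkA` -/
def MkAS (ECok : EC → ℕ → ℕ → Prop) : Prop :=
  ∀ (e0 e1 nd : ℕ) (r : EC) (kk : EC → Bool) (ea : ℕ), ECok r ea e0 → e0 ≤ e1 →
    (∀ (N : ℕ) (z w : Fin N → ℂ) (R : ℝ) (σ : Fin N → ℂ), Cfg2 N z w R σ → 6 ≤ N →
      29 / 12 ≤ R → (e0 : ℝ) / 1024 ≤ 1 / R → 1 / R ≤ (e1 : ℝ) / 1024 →
      (((N : ℝ) + 1) / R) * ‖∫ x in (0 : ℝ)..(3 / 5 * R), qq (uu w) x‖ < (nd : ℝ) / 2 ^ 40) →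
    mkA e0 e1 nd r kk = true → ∃ ec, kk ec = true ∧ ECok ec ea e1

/-- soundness of `mkB` -/
def MkBS (ECok : EC → ℕ → ℕ → Prop) : Prop :=
  ∀ (e0 e1 nt LR : ℕ) (vt : ℕ → ℕ) (r : EC) (kk : EC → Bool) (ea : ℕ), ECok r ea e0 → e0 ≤ e1 →
    (∀ (N0 N : ℕ) (z w : Fin N → ℂ) (R : ℝ) (σ : Fin N → ℂ), 6 ≤ N0 → Cfg2 N z w R σ → N0 ≤ N →
      29 / 12 ≤ R → (e0 : ℝ) / 1024 ≤ 1 / R → 1 / R ≤ (e1 : ℝ) / 1024 → 1 + (nt : ℝ) / 8 ≤ R →
      (((N : ℝ) + 1) / R) * ∫ x in (1 + (nt : ℝ) / 8)..R, ‖qq (uu w) x‖ ≤ (vt N0 : ℝ) / 2 ^ 40) →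
    mkB e0 e1 nt LR vt r kk = true → ∃ ec, kk ec = true ∧ ECok ec ea e1

theorem ecsD_nil (eb : ℕ) (kk : EC → Bool) (e0 : ℕ) (r : EC) :
    ecsD eb kk [] e0 r = bi (Nat.beq e0 eb) (kk r) false := rfl

theorem ecsD_cons (eb : ℕ) (kk : EC → Bool) (d : ℕ) (E : List ℕ) (e0 : ℕ) (r : EC) :
    ecsD eb kk (d :: E) e0 r =
      ev (Nat.mod d 1024) fun e1 => ev (Nat.mod (Nat.shiftRight d 11) 32) fun nt =>
      ev (Nat.shiftRight d 16) fun LR =>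
      bi (Nat.ble e0 e1) (bi (Nat.beq (Nat.mod (Nat.shiftRight d 10) 2) 0)
        (bi (Nat.ble e1 170) (ev (ndA e1) fun nd =>
          mkA e0 e1 nd r (fun r' => ecsD eb kk E e1 r')) false)
        (ev (gF e0 nt) fun g => bi (Nat.ble 34 g) (bi (Nat.ble e1 424)
          (mkB e0 e1 nt LR (fun N0 => vtT e1 N0 g) r (fun r' => ecsD eb kk E e1 r')) false)
          false)) false := by
  simp only [← mkAF_eq, ← mkBF_eq, ← vtTF_eq]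
  rfl

theorem bi_true_cases {a : Bool} {x y : Bool} (h : bi a x y = true) :
    (a = true ∧ x = true) ∨ (a = false ∧ y = true) := by
  cases a
  · exact Or.inr ⟨rfl, h⟩
  · exact Or.inl ⟨rfl, h⟩

theorem R_ge {R : ℝ} {e : ℕ} {a : ℝ} (hR : 0 < R) (h : 1 / R ≤ (e : ℝ) / 1024)
    (ha : (e : ℝ) * a ≤ 1024) (ha0 : 0 < a) : a ≤ R := by
  by_contra hcon
  push Not at hcon
  rw [div_le_div_iff₀ hR (by norm_num)] at h
  have he : (0 : ℝ) < e := by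
    by_contra h0
    push Not at h0
    nlinarith
  nlinarith

theorem ndA_ok {e0 e1 : ℕ} (h170 : e1 ≤ 170) (N : ℕ) (z w : Fin N → ℂ) (R : ℝ)
    (σ : Fin N → ℂ) (hC : Cfg2 N z w R σ) (_ : 6 ≤ N) (_ : 29 / 12 ≤ R)
    (_ : (e0 : ℝ) / 1024 ≤ 1 / R) (h1 : 1 / R ≤ (e1 : ℝ) / 1024) :
    (((N : ℝ) + 1) / R) * ‖∫ x in (0 : ℝ)..(3 / 5 * R), qq (uu w) x‖ < (ndA e1 : ℝ) / 2 ^ 40 := by
  have hR := hC.hR
  unfold ndA
  cases hb : Nat.ble e1 128 with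
  | true =>
    have h2 : (e1 : ℝ) ≤ 128 := by exact_mod_cast Nat.le_of_ble_eq_true hb
    have h3 : (8 : ℝ) ≤ R := R_ge hR h1 (by linarith) (by norm_num)
    refine (need8 hC h3).trans_le ?_
    change (1 / 1500 : ℝ) ≤ ((733007752 : ℕ) : ℝ) / 2 ^ 40
    norm_num
  | false =>
    cases hb2 : Nat.ble e1 146 with
    | true =>
      have h2 : (e1 : ℝ) ≤ 146 := by exact_mod_cast Nat.le_of_ble_eq_true hb2
      have h3 : (7 : ℝ) ≤ R := R_ge hR h1 (by linarith) (by norm_num)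
      refine (need7 hC h3).trans_le ?_
      change (3 / 1000 : ℝ) ≤ ((3298534884 : ℕ) : ℝ) / 2 ^ 40
      norm_num
    | false =>
      have h2 : (e1 : ℝ) ≤ 170 := by exact_mod_cast h170
      have h3 : (6 : ℝ) ≤ R := R_ge hR h1 (by linarith) (by norm_num)
      refine (need6 hC h3).trans_le ?_
      change (1 / 80 : ℝ) ≤ ((13743895348 : ℕ) : ℝ) / 2 ^ 40
      norm_num

theorem gF_le (e0 nt : ℕ) : gF e0 nt ≤ 39 ∧ 128 * gF e0 nt ≤ e0 * (8 + nt) := by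
  unfold gF
  rw [ev_eq]
  have h := Nat.div_mul_le_self (e0 * (8 + nt)) 128
  have e : Nat.div (Nat.mul e0 (Nat.add 8 nt)) 128 = e0 * (8 + nt) / 128 := rfl
  rw [e]
  have e2 : ∀ g : ℕ, Nat.sub g (Nat.sub g 39) = g - (g - 39) := fun g => rfl
  rw [e2]
  omega

theorem vt_ok {e0 e1 nt : ℕ} (h34 : 34 ≤ gF e0 nt) (h424 : e1 ≤ 424) (N0 N : ℕ)
    (z w : Fin N → ℂ) (R : ℝ) (σ : Fin N → ℂ) (h6 : 6 ≤ N0) (hC : Cfg2 N z w R σ) (hN : N0 ≤ N)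
    (hR : 29 / 12 ≤ R) (h0 : (e0 : ℝ) / 1024 ≤ 1 / R) (h1 : 1 / R ≤ (e1 : ℝ) / 1024)
    (hx : 1 + (nt : ℝ) / 8 ≤ R) :
    (((N : ℝ) + 1) / R) * ∫ x in (1 + (nt : ℝ) / 8)..R, ‖qq (uu w) x‖ ≤
      (vtT e1 N0 (gF e0 nt) : ℝ) / 2 ^ 40 := by
  have hR0 := hC.hR
  obtain ⟨g1, g2⟩ := gF_le e0 nt
  have he1 : 0 < e1 := by
    rcases Nat.eq_zero_or_pos e1 with h | h
    · exfalso
      rw [h] at h1
      have : 0 < 1 / R := by positivity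
      simp only [Nat.cast_zero, zero_div] at h1
      linarith
    · exact h
  have he1r : (0 : ℝ) < e1 := by exact_mod_cast he1
  refine vtT_ok h6 h34 g1 he1 h424 hC hN ?_ ?_ hx
  · rw [div_le_iff₀ he1r]
    rw [div_le_div_iff₀ hR0 (by norm_num)] at h1
    linarith
  · have h2 : (128 : ℝ) * gF e0 nt ≤ e0 * (8 + nt) := by exact_mod_cast g2
    rw [div_le_div_iff₀ (by norm_num) hR0] at h0
    have h3 : (e0 : ℝ) * R ≤ 1024 := by linarith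
    have h4 : 128 * (gF e0 nt : ℝ) * R ≤ e0 * (8 + nt) * R :=
      mul_le_mul_of_nonneg_right h2 hR0.le
    have h5 : (e0 : ℝ) * (8 + nt) * R ≤ 1024 * (8 + nt) := by
      have : (e0 : ℝ) * (8 + nt) * R = (e0 * R) * (8 + nt) := by ring
      rw [this]
      exact mul_le_mul_of_nonneg_right h3 (by positivity)
    linarith

theorem ecsD_sound {ECok : EC → ℕ → ℕ → Prop} (hA : MkAS ECok) (hB : MkBS ECok) {eb ea : ℕ}
    {kk : EC → Bool} : ∀ (E : List ℕ) (e0 : ℕ) (r : EC), ECok r ea e0 →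
      ecsD eb kk E e0 r = true → ∃ ec, kk ec = true ∧ ECok ec ea eb := by
  intro E
  induction E with
  | nil =>
    intro e0 r hr h
    rw [ecsD_nil, bi_and] at h
    have h1 := Nat.eq_of_beq_eq_true h.1
    rw [h1] at hr
    exact ⟨r, h.2, hr⟩
  | cons d E ih =>
    intro e0 r hr h
    rw [ecsD_cons] at h
    simp only [ev_eq] at h
    obtain ⟨e1, he1⟩ : ∃ e1, e1 = Nat.mod d 1024 := ⟨_, rfl⟩
    obtain ⟨nt, hnt⟩ : ∃ nt, nt = Nat.mod (Nat.shiftRight d 11) 32 := ⟨_, rfl⟩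
    obtain ⟨LR, hLR⟩ : ∃ LR, LR = Nat.shiftRight d 16 := ⟨_, rfl⟩
    rw [← he1, ← hnt, ← hLR] at h
    rw [bi_and] at h
    obtain ⟨h0, h⟩ := h
    replace h0 := Nat.le_of_ble_eq_true h0
    rcases bi_true_cases h with ⟨_, h⟩ | ⟨_, h⟩
    · rw [bi_and] at h
      obtain ⟨h1, h2⟩ := h
      replace h1 := Nat.le_of_ble_eq_true h1
      obtain ⟨ec, h3, h4⟩ := hA e0 e1 (ndA e1) r _ ea hr h0 (ndA_ok h1) h2
      exact ih e1 ec h4 h3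
    · rw [bi_and, bi_and] at h
      obtain ⟨h1, h2, h3⟩ := h
      replace h1 := Nat.le_of_ble_eq_true h1
      replace h2 := Nat.le_of_ble_eq_true h2
      obtain ⟨ec, h4, h5⟩ := hB e0 e1 nt LR _ r _ ea hr h0 (vt_ok h1 h2) h3
      exact ih e1 ec h5 h4

/-- **soundness of a data theorem** -/
theorem fileD_sound {ECok : EC → ℕ → ℕ → Prop} (hS : CellsS ECok) (hA : MkAS ECok)
    (hB : MkBS ECok) (h0 : ∀ e, ECok EC.nil e e) {k km ea eb A Bf : ℕ} {E : List ℕ}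
    {C : List (ℕ × List ℕ)} (hc : CondK k km ea eb) (hC : C ≠ [])
    (h : fileD k km ea eb A Bf E C = true) : BigC k km ea eb A Bf := by
  obtain ⟨ec, h1, h2⟩ := ecsD_sound hA hB E ea EC.nil (h0 ea) h
  exact colsD_sound hS hc h2 C A hC h1

end Pool.Agent.Lib.MP_af3a4a_an.P1.H11
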