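import Pool.Agent.Lib.MP_af3a4a_an.P1.H32.SweepR

/-!
# COMB: real analysis of the weighted cells (council 2, helper11), part 1

`el R x = -R log (1 - x/R)`, `Wf R T x = exp (-(T el R x))`, `GK K μ x = (gg μ x)^(K/2)`.
-/

set_option autoImplicit false

namespace Pool.Agent.Lib.MP_af3a4a_an.P1.H11

open Finset MeasureTheory intervalIntegral
open Pool.Agent.Lib.MP_af3a4a_an.SV (uu av sq EE)
open Pool.Agent.Lib.MP_af3a4a_an.P1.H80
open Pool.Agent.Lib.MP_af3a4a_an.P1.CHK.H80

/-- `-R log (1 - x/R)` -/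
noncomputable def el (R x : ℝ) : ℝ := -(R * Real.log (1 - x / R))

/-- the weight -/
noncomputable def Wf (R T x : ℝ) : ℝ := Real.exp (-(T * el R x))

/-- `(gg μ x)^(K/2)` -/
noncomputable def GK (K μ x : ℝ) : ℝ := gg μ x ^ (K / 2)

/-! ### `el` -/

theorem one_sub_pos {R x : ℝ} (hR : 0 < R) (h : x < R) : 0 < 1 - x / R := by
  rw [sub_pos, div_lt_one hR]
  exact h

theorem el_zero (R : ℝ) : el R 0 = 0 := by
  unfold el
  simp

theorem el_sub_ge {R x y : ℝ} (hR : 0 < R) (h0 : 0 ≤ x) (hxy : x ≤ y) (h1 : y < R) :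
    y - x ≤ el R y - el R x := by
  have hx := one_sub_pos hR (lt_of_le_of_lt hxy h1)
  have hy := one_sub_pos hR h1
  have h2 := Real.one_sub_inv_le_log_of_pos (div_pos hx hy)
  rw [inv_div, Real.log_div hx.ne' hy.ne'] at h2
  have h3 : 1 - (1 - y / R) / (1 - x / R) = ((y - x) / R) / (1 - x / R) := by
    rw [eq_div_iff hx.ne', sub_mul, div_mul_cancel₀ _ hx.ne', one_mul]
    ring
  rw [h3] at h2
  have h4 : (y - x) / R ≤ (y - x) / R / (1 - x / R) := by
    rw [le_div_iff₀ hx]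
    have h5 : 0 ≤ (y - x) / R := div_nonneg (by linarith) hR.le
    have h6 : 1 - x / R ≤ 1 := by
      have : 0 ≤ x / R := div_nonneg h0 hR.le
      linarith
    calc (y - x) / R * (1 - x / R) ≤ (y - x) / R * 1 := mul_le_mul_of_nonneg_left h6 h5
      _ = _ := mul_one _
  have h5 : (y - x) / R ≤ Real.log (1 - x / R) - Real.log (1 - y / R) := h4.trans h2
  have h6 := mul_le_mul_of_nonneg_left h5 hR.le
  have h7 : R * ((y - x) / R) = y - x := by field_simp
  rw [h7] at h6
  unfold el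
  linarith

theorem el_mono {R x y : ℝ} (hR : 0 < R) (h0 : 0 ≤ x) (hxy : x ≤ y) (h1 : y < R) :
    el R x ≤ el R y := by
  have := el_sub_ge hR h0 hxy h1
  linarith

theorem el_ge {R x : ℝ} (hR : 0 < R) (h0 : 0 ≤ x) (h1 : x < R) : x ≤ el R x := by
  have := el_sub_ge hR le_rfl h0 h1
  rw [el_zero] at this
  linarith

theorem el_nonneg {R x : ℝ} (hR : 0 < R) (h0 : 0 ≤ x) (h1 : x < R) : 0 ≤ el R x :=
  h0.trans (el_ge hR h0 h1)

theorem el_convex {R : ℝ} (hR : 0 < R) : ConvexOn ℝ (Set.Iio R) (el R) := by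
  refine ⟨convex_Iio R, ?_⟩
  intro x hx y hy a b ha hb hab
  have h1 := one_sub_pos hR hx
  have h2 := one_sub_pos hR hy
  have h3 := strictConcaveOn_log_Ioi.concaveOn.2 (Set.mem_Ioi.2 h1) (Set.mem_Ioi.2 h2) ha hb hab
  simp only [smul_eq_mul] at h3 ⊢
  have h4 : a * (1 - x / R) + b * (1 - y / R) = 1 - (a * x + b * y) / R := by
    have : b = 1 - a := by linarith
    subst this
    field_simp
    ring
  rw [h4] at h3
  unfold el
  have h5 := mul_le_mul_of_nonneg_left h3 hR.le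
  linarith

theorem el_cont {R : ℝ} (hR : 0 < R) : ContinuousOn (el R) (Set.Iio R) := by
  unfold el
  apply ContinuousOn.neg
  apply ContinuousOn.mul continuousOn_const
  apply ContinuousOn.log
  · fun_prop
  · intro x hx
    exact (one_sub_pos hR hx).ne'

theorem Wf_pos (R T x : ℝ) : 0 < Wf R T x := Real.exp_pos _

theorem Wf_cont {R : ℝ} (hR : 0 < R) (T : ℝ) : ContinuousOn (Wf R T) (Set.Iio R) := by
  unfold Wf
  apply Real.continuous_exp.comp_continuousOn
  exact (continuousOn_const.mul (el_cont hR)).neg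

theorem Wf_anti {R T x y : ℝ} (hR : 0 < R) (hT : 0 ≤ T) (h0 : 0 ≤ x) (hxy : x ≤ y) (h1 : y < R) :
    Wf R T y ≤ Wf R T x := by
  unfold Wf
  apply Real.exp_le_exp.2
  have := mul_le_mul_of_nonneg_left (el_mono hR h0 hxy h1) hT
  linarith

/-- change of the weight parameter -/
theorem Wf_le {R T T0 x y : ℝ} (hR : 0 < R) (hT : T0 ≤ T) (h0 : 0 ≤ x) (hxy : x ≤ y)
    (h1 : y < R) : Wf R T y ≤ Real.exp (-((T - T0) * el R x)) * Wf R T0 y := by
  unfold Wf
  rw [← Real.exp_add]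
  apply Real.exp_le_exp.2
  have h2 := mul_le_mul_of_nonneg_left (el_mono hR h0 hxy h1) (sub_nonneg.2 hT)
  nlinarith

theorem Wf_rpow {R T x : ℝ} (hR : 0 < R) (h : x < R) : Wf R T x = (1 - x / R) ^ (T * R) := by
  unfold Wf el
  rw [Real.rpow_def_of_pos (one_sub_pos hR h)]
  congr 1
  ring

/-- the weight is convex if `T R ≥ 1` -/
theorem Wf_convex {R T : ℝ} (hR : 0 < R) (hT : 1 ≤ T * R) : ConvexOn ℝ (Set.Iio R) (Wf R T) := by
  refine ⟨convex_Iio R, ?_⟩
  intro x hx y hy a b ha hb hab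
  have hx' : x < R := hx
  have hy' : y < R := hy
  have h1 := one_sub_pos hR hx'
  have h2 := one_sub_pos hR hy'
  have h3 := (convexOn_rpow hT).2 (Set.mem_Ici.2 h1.le) (Set.mem_Ici.2 h2.le) ha hb hab
  simp only [smul_eq_mul] at h3 ⊢
  have h4 : a * (1 - x / R) + b * (1 - y / R) = 1 - (a * x + b * y) / R := by
    have : b = 1 - a := by linarith
    subst this
    field_simp
    ring
  have h5 : a * x + b * y < R := by
    have := convex_Iio R hx hy ha hb hab
    simpa using this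
  rw [h4] at h3
  rw [Wf_rpow hR hx', Wf_rpow hR hy', Wf_rpow hR h5]
  exact h3

/-! ### `GK` -/

theorem gg_nonneg' {m x : ℝ} (hm : |m| ≤ 1) : 0 ≤ gg m x := by
  unfold gg
  have h1 := abs_le.1 hm
  nlinarith [sq_nonneg (x - m)]

/-- the unit vector -/
noncomputable def om1 (m : ℝ) : ℂ := (m : ℂ) + ((Real.sqrt (1 - m ^ 2) : ℝ) : ℂ) * Complex.I

theorem gg_eq_norm {m x : ℝ} (hm : |m| ≤ 1) : gg m x = ‖1 - (x : ℂ) * om1 m‖ ^ 2 := by
  have h1 := abs_le.1 hm
  have h2 : 0 ≤ 1 - m ^ 2 := by nlinarith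
  have h3 := Real.sq_sqrt h2
  rw [← Complex.normSq_eq_norm_sq, Complex.normSq_apply]
  unfold om1 gg
  simp only [Complex.sub_re, Complex.sub_im, Complex.one_re, Complex.one_im, Complex.mul_re,
    Complex.mul_im, Complex.ofReal_re, Complex.ofReal_im, Complex.add_re, Complex.add_im,
    Complex.I_re, Complex.I_im]
  nlinarith [h3]

theorem norm_om1 {m : ℝ} (hm : |m| ≤ 1) : ‖om1 m‖ = 1 := by
  have h1 := abs_le.1 hm
  have h2 : 0 ≤ 1 - m ^ 2 := by nlinarith
  have h3 := Real.sq_sqrt h2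
  have h4 : ‖om1 m‖ ^ 2 = 1 := by
    rw [← Complex.normSq_eq_norm_sq, Complex.normSq_apply]
    unfold om1
    simp only [Complex.mul_re, Complex.mul_im, Complex.ofReal_re, Complex.ofReal_im,
      Complex.add_re, Complex.add_im, Complex.I_re, Complex.I_im]
    nlinarith [h3]
  exact (pow_eq_one_iff_of_nonneg (norm_nonneg _) two_ne_zero).1 h4

theorem GK_eq {K m x : ℝ} (hm : |m| ≤ 1) : GK K m x = ‖1 - (x : ℂ) * om1 m‖ ^ K := by
  unfold GK
  rw [gg_eq_norm hm, ← Real.rpow_natCast, ← Real.rpow_mul (norm_nonneg _)]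
  congr 1
  push_cast
  ring

theorem GK_nonneg {K m x : ℝ} (hm : |m| ≤ 1) : 0 ≤ GK K m x :=
  Real.rpow_nonneg (gg_nonneg' hm) _

theorem GK_exp {K m x : ℝ} (hg : 0 < gg m x) :
    GK K m x = Real.exp (K * (Real.log (gg m x) / 2)) := by
  unfold GK
  rw [Real.rpow_def_of_pos hg]
  congr 1
  ring

theorem GK_cont {K : ℝ} (hK : 0 ≤ K) (m : ℝ) : Continuous (GK K m) := by
  unfold GK
  exact (gg_cont m).rpow_const fun _ => Or.inr (by linarith)

theorem GK_convex {K m : ℝ} (hK : 1 ≤ K) (hm : |m| ≤ 1) : ConvexOn ℝ Set.univ (GK K m) := by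
  refine ⟨convex_univ, ?_⟩
  intro x _ y _ a b ha hb hab
  rw [GK_eq hm, GK_eq hm, GK_eq hm]
  have h3 := (convexOn_rpow hK).2 (Set.mem_Ici.2 (norm_nonneg (1 - (x : ℂ) * om1 m)))
    (Set.mem_Ici.2 (norm_nonneg (1 - (y : ℂ) * om1 m))) ha hb hab
  refine le_trans ?_ h3
  apply Real.rpow_le_rpow (norm_nonneg _) _ (by linarith)
  simp only [smul_eq_mul]
  have e : (1 : ℂ) - ((a * x + b * y : ℝ) : ℂ) * om1 m =
      (a : ℂ) * (1 - (x : ℂ) * om1 m) + (b : ℂ) * (1 - (y : ℂ) * om1 m) := by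
    have hb' : (b : ℂ) = 1 - a := by
      have : b = 1 - a := by linarith
      rw [this]
      push_cast
      ring
    push_cast
    rw [hb']
    ring
  rw [e]
  refine (norm_add_le _ _).trans (le_of_eq ?_)
  rw [norm_mul, norm_mul, Complex.norm_real, Complex.norm_real, Real.norm_of_nonneg ha,
    Real.norm_of_nonneg hb]

/-- growth beyond `x = 4` -/
theorem GK_growth {K m x : ℝ} (hK : 0 ≤ K) (hm : |m| ≤ 1) (hx : 4 ≤ x) :
    GK K m x ≤ GK K m 4 * Real.exp (K / 3 * (x - 4)) := by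
  rw [GK_eq hm, GK_eq hm]
  set A := ‖1 - ((4 : ℝ) : ℂ) * om1 m‖ with hA
  have hA3 : 3 ≤ A := by
    have h1 := norm_sub_norm_le (((4 : ℝ) : ℂ) * om1 m) 1
    rw [norm_mul, Complex.norm_real, norm_om1 hm, norm_one, norm_sub_rev] at h1
    rw [hA]
    have h2 : ‖(4 : ℝ)‖ = 4 := by norm_num
    rw [h2] at h1
    linarith
  have h2 : ‖1 - (x : ℂ) * om1 m‖ ≤ A + (x - 4) := by
    have e : 1 - (x : ℂ) * om1 m = (1 - ((4 : ℝ) : ℂ) * om1 m) - ((x - 4 : ℝ) : ℂ) * om1 m := by
      push_cast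
      ring
    rw [e]
    refine (norm_sub_le _ _).trans ?_
    rw [norm_mul, Complex.norm_real, norm_om1 hm, Real.norm_of_nonneg (by linarith), mul_one]
  have h3 : ‖1 - (x : ℂ) * om1 m‖ ≤ A * Real.exp ((x - 4) / 3) := by
    refine h2.trans ?_
    have h4 := Real.add_one_le_exp ((x - 4) / 3)
    have h5 : A * ((x - 4) / 3 + 1) ≤ A * Real.exp ((x - 4) / 3) :=
      mul_le_mul_of_nonneg_left h4 (by linarith)
    have h6 : 3 * ((x - 4) / 3) ≤ A * ((x - 4) / 3) :=
      mul_le_mul_of_nonneg_right hA3 (by linarith)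
    linarith
  have h4 := Real.rpow_le_rpow (norm_nonneg _) h3 hK
  refine h4.trans (le_of_eq ?_)
  rw [Real.mul_rpow (by linarith) (Real.exp_pos _).le, ← Real.exp_mul]
  congr 2
  ring

/-! ### chords -/

theorem chord_le {f : ℝ → ℝ} {a b x : ℝ} (hab : a < b) (hf : ConvexOn ℝ (Set.Icc a b) f)
    (hx : x ∈ Set.Icc a b) : f x ≤ (f a * (b - x) + f b * (x - a)) / (b - a) := by
  have hba : 0 < b - a := sub_pos.2 hab
  have h1 := hf.2 (Set.left_mem_Icc.2 hab.le) (Set.right_mem_Icc.2 hab.le)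
    (show 0 ≤ (b - x) / (b - a) from div_nonneg (by linarith [hx.2]) hba.le)
    (show 0 ≤ (x - a) / (b - a) from div_nonneg (by linarith [hx.1]) hba.le)
    (by field_simp; ring)
  simp only [smul_eq_mul] at h1
  have e1 : (b - x) / (b - a) * a + (x - a) / (b - a) * b = x := by
    field_simp
    ring
  rw [e1] at h1
  refine h1.trans (le_of_eq ?_)
  field_simp

theorem int_chord (A B a b : ℝ) (hab : a < b) :
    ∫ x in a..b, (A * (b - x) + B * (x - a)) / (b - a) = (b - a) * ((A + B) / 2) := by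
  have hba : 0 < b - a := sub_pos.2 hab
  have hd : ∀ x : ℝ, HasDerivAt (fun x : ℝ => (-(A * (b - x) ^ 2) / 2 + B * (x - a) ^ 2 / 2) /
      (b - a)) ((A * (b - x) + B * (x - a)) / (b - a)) x := by
    intro x
    have h1 : HasDerivAt (fun x : ℝ => b - x) (-1) x := by
      simpa using (hasDerivAt_id x).const_sub b
    have h2 : HasDerivAt (fun x : ℝ => x - a) 1 x := (hasDerivAt_id x).sub_const a
    have h3 := ((((h1.pow 2).const_mul A).neg.div_const 2).add
      (((h2.pow 2).const_mul B).div_const 2)).div_const (b - a)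
    refine h3.congr_deriv ?_
    simp only [Nat.cast_ofNat, Nat.add_one_sub_one, pow_one]
    ring
  have hc : Continuous fun x : ℝ => (A * (b - x) + B * (x - a)) / (b - a) := by fun_prop
  rw [intervalIntegral.integral_eq_sub_of_hasDerivAt (fun x _ => hd x)
    (hc.intervalIntegrable a b)]
  field_simp
  ring

theorem int_chord2 (A B C D a b : ℝ) (hab : a < b) :
    ∫ x in a..b, ((A * (b - x) + B * (x - a)) / (b - a)) * ((C * (b - x) + D * (x - a)) / (b - a))
      = (b - a) / 6 * (2 * A * C + 2 * B * D + A * D + B * C) := by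
  have hba : 0 < b - a := sub_pos.2 hab
  have hd : ∀ x : ℝ, HasDerivAt (fun x : ℝ => (-(A * C * (b - x) ^ 3) / 3 +
      B * D * (x - a) ^ 3 / 3 + (A * D + B * C) * ((b - a) * (x - a) ^ 2 / 2 - (x - a) ^ 3 / 3)) /
      (b - a) ^ 2) (((A * (b - x) + B * (x - a)) / (b - a)) *
        ((C * (b - x) + D * (x - a)) / (b - a))) x := by
    intro x
    have h1 : HasDerivAt (fun x : ℝ => b - x) (-1) x := by
      simpa using (hasDerivAt_id x).const_sub b
    have h2 : HasDerivAt (fun x : ℝ => x - a) 1 x := (hasDerivAt_id x).sub_const a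
    have h3 := ((((((h1.pow 3).const_mul (A * C)).neg.div_const 3).add
      (((h2.pow 3).const_mul (B * D)).div_const 3))).add
      (((((h2.pow 2).const_mul (b - a)).div_const 2).sub ((h2.pow 3).div_const 3)).const_mul
        (A * D + B * C))).div_const ((b - a) ^ 2)
    refine h3.congr_deriv ?_
    simp only [Nat.cast_ofNat, Nat.add_one_sub_one, pow_one]
    field_simp
    ring
  have hc : Continuous fun x : ℝ => ((A * (b - x) + B * (x - a)) / (b - a)) *
        ((C * (b - x) + D * (x - a)) / (b - a)) := by fun_prop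
  rw [intervalIntegral.integral_eq_sub_of_hasDerivAt (fun x _ => hd x)
    (hc.intervalIntegrable a b)]
  field_simp
  ring

theorem trap {f : ℝ → ℝ} {a b : ℝ} (hab : a < b) (hf : ConvexOn ℝ (Set.Icc a b) f)
    (hc : ContinuousOn f (Set.Icc a b)) : ∫ x in a..b, f x ≤ (b - a) * ((f a + f b) / 2) := by
  rw [← int_chord (f a) (f b) a b hab]
  apply intervalIntegral.integral_mono_on hab.le
  · apply ContinuousOn.intervalIntegrable
    rwa [Set.uIcc_of_le hab.le]
  · have hc : Continuous fun x : ℝ => (f a * (b - x) + f b * (x - a)) / (b - a) := by fun_prop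
    exact hc.intervalIntegrable a b
  · intro x hx
    exact chord_le hab hf hx

theorem prod_chord {U V : ℝ → ℝ} {A B C D a b : ℝ} (hab : a < b)
    (hUc : ContinuousOn U (Set.Icc a b)) (hVc : ContinuousOn V (Set.Icc a b))
    (hV0 : ∀ x ∈ Set.Icc a b, 0 ≤ V x) (hU0 : ∀ x ∈ Set.Icc a b, 0 ≤ U x)
    (hU : ∀ x ∈ Set.Icc a b, U x ≤ (A * (b - x) + B * (x - a)) / (b - a))
    (hV : ∀ x ∈ Set.Icc a b, V x ≤ (C * (b - x) + D * (x - a)) / (b - a)) :
    ∫ x in a..b, U x * V x ≤ (b - a) / 6 * (2 * A * C + 2 * B * D + A * D + B * C) := by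
  rw [← int_chord2 A B C D a b hab]
  apply intervalIntegral.integral_mono_on hab.le
  · apply ContinuousOn.intervalIntegrable
    rw [Set.uIcc_of_le hab.le]
    exact hUc.mul hVc
  · have hc : Continuous fun x : ℝ => ((A * (b - x) + B * (x - a)) / (b - a)) *
        ((C * (b - x) + D * (x - a)) / (b - a)) := by fun_prop
    exact hc.intervalIntegrable a b
  · intro x hx
    exact mul_le_mul (hU x hx) (hV x hx) (hV0 x hx) ((hU0 x hx).trans (hU x hx))

end Pool.Agent.Lib.MP_af3a4a_an.P1.H11
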