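import Pool.Agent.Lib.MP_af3a4a_an.P1.CHK.CurveK.Defs
import Pool.Agent.Lib.MP_af3a4a_an.P1.H11.CellF

/-!
# BIGR: the checks of the data theorems (council 2, helper11)

A leaf is one number: `s1` (13 bits, unit `1/4096`), `phi` (13 bits, unit `1/1024`), `J0` (6 bits),
`t0` (8 bits), `st1` (8 bits for each of the `J0` positive cells, at bit 40, 248 bits reserved),
`st2` (16 bits for each negative cell, at bit 288).

An `ε`-cell is one number: `e1` (10 bits), kind (1 bit: 0 = A, 1 = B), `nt` (5 bits), `LR`.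
-/

set_option autoImplicit false

namespace Pool.Agent.Lib.MP_af3a4a_an.P1.H11

open Pool.Agent.Lib.MP_af3a4a_an.P1.CHK.Arith
open Pool.Agent.Lib.MP_af3a4a_an.P1.CHK.CurveK
open Pool.Agent.Lib.MP_af3a4a_an.P1.CHK.Curve (bi)
open Pool.Agent.Lib.MP_af3a4a_an.P1.H28 (EC CT)

/-- `2^40 min μ₁²` on the column `1 + μ₁ ∈ [A/512, B/512]` -/
def mmF (A B : ℕ) : ℕ :=
  ev (Nat.add (Nat.sub 512 B) (Nat.sub A 512)) fun d => Nat.mul (Nat.mul d d) 4194304

/-- the leaves of a column, from `μ₂ = s0/4096` on -/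
noncomputable def lvs (mm : ℕ) (col : Col) (ct : CT) (L : List ℕ) : ℕ → Bool :=
  List.rec (fun s0 => bi (Nat.ble 1 s0)
      (Nat.ble 1099511627776 (Nat.add (Nat.mul (Nat.mul s0 s0) 65536) mm)) false)
    (fun l _ ih s0 =>
      ev (Nat.mod l 8192) fun s1 =>
      ev (Nat.mul (Nat.mod (Nat.shiftRight l 13) 8192) 1073741824) fun phi =>
      ev (Nat.mod (Nat.shiftRight l 26) 64) fun J0 =>
      ev (Nat.mod (Nat.shiftRight l 32) 256) fun t0 =>
      ev (Nat.mod (Nat.shiftRight l 40)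
        452312848583266388373324160190187140051835877600158453279131187530910662656) fun st1 =>
      ev (Nat.shiftRight l 288) fun st2 =>
      ev (Nat.sub 1099511627776 (Nat.add (Nat.mul (Nat.mul s0 s0) 65536) mm)) fun c1 =>
      ev (Nat.sub 31 J0) fun J1 =>
      bi (Nat.ble J0 31) (bi (leafK (Nat.mul s0 268435456) (Nat.mul s1 268435456) c1 phi J0 J1 t0
        st1 st2 col (fun PP N1 N2 => leafTF J0 J1 PP N1 N2 ct)) (ih s1) false) false) L

/-- the packed table of `gg^(K/2)` at the nodes `1 + i/8`, `i < j` -/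
noncomputable def eeT (k lp : ℕ) (kk : ℕ → Bool) (j : ℕ) : ℕ → Bool :=
  Nat.rec (fun acc => kk acc)
    (fun j ih acc => ev (nodeE k lp 1099511627776 (Nat.add 8 j) 8) fun d =>
      bi (Nat.blt d 340282366920938463463374607431768211456)
        (ev (Nat.add (Nat.mul acc 340282366920938463463374607431768211456) d) fun acc => ih acc)
        false) j

/-- is the list empty? -/
noncomputable def isNil (ct : CT) : Bool := CT.rec true (fun _ _ _ _ _ _ => false) ct

/-- one column -/
noncomputable def colD (k km A B : ℕ) (ec : EC) (L : List ℕ) : Bool :=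
  ev (Nat.mul A 2147483648) fun lp => ev (Nat.mul B 2147483648) fun mp =>
  colK k 32 mp 1099511627776 lp 1099511627776 31 fun col =>
    ev (nodeE k lp 1099511627776 31 32) fun EL => eeT k lp (fun EE =>
      cellsKF k km A B EL EE ec CT.nil fun ct =>
        bi (isNil ct) true (ev (mmF A B) fun mm => lvs mm col ct L 0)) 25 0

/-- the columns from `A` to `Bf` -/
noncomputable def colsD (k km : ℕ) (ec : EC) (Bf : ℕ) (C : List (ℕ × List ℕ)) : ℕ → Bool :=
  List.rec (fun A => Nat.beq A Bf)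
    (fun c _ ih A => bi (Nat.ble A c.1) (bi (colD k km A c.1 ec c.2) (ih c.1) false) false) C

/-- the need of a cell of type A: `1/1500` (`R ≥ 8`), `3/1000` (`R ≥ 7`), `1/80` (`R ≥ 6`) -/
def ndA (e1 : ℕ) : ℕ :=
  bi (Nat.ble e1 128) 733007752 (bi (Nat.ble e1 146) 3298534884 13743895348)

/-- `g = min 39 (e0 (8 + nt)/128)` -/
def gF (e0 nt : ℕ) : ℕ :=
  ev (Nat.div (Nat.mul e0 (Nat.add 8 nt)) 128) fun g => Nat.sub g (Nat.sub g 39)

/-- the list of the `ε`-cells from `e0` to `eb` -/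
noncomputable def ecsD (eb : ℕ) (kk : EC → Bool) (E : List ℕ) : ℕ → EC → Bool :=
  List.rec (fun e0 r => bi (Nat.beq e0 eb) (kk r) false)
    (fun d _ ih e0 r =>
      ev (Nat.mod d 1024) fun e1 => ev (Nat.mod (Nat.shiftRight d 11) 32) fun nt =>
      ev (Nat.shiftRight d 16) fun LR =>
      bi (Nat.ble e0 e1) (bi (Nat.beq (Nat.mod (Nat.shiftRight d 10) 2) 0)
        (bi (Nat.ble e1 170) (ev (ndA e1) fun nd => mkAF e0 e1 nd r (fun r' => ih e1 r')) false)
        (ev (gF e0 nt) fun g => bi (Nat.ble 34 g) (bi (Nat.ble e1 424)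
          (mkBF e0 e1 nt LR (fun N0 => vtTF e1 N0 g) r (fun r' => ih e1 r')) false) false))
        false) E

/-- **the check of a data theorem** -/
noncomputable def fileD (k km ea eb A Bf : ℕ) (E : List ℕ) (C : List (ℕ × List ℕ)) : Bool :=
  ecsD eb (fun ec => colsD k km ec Bf C A) E ea EC.nil

end Pool.Agent.Lib.MP_af3a4a_an.P1.H11
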