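import Pool.Agent.Lib.MP_af3a4a_an.P1.H11.GaNd
import Pool.Agent.Lib.MP_af3a4a_an.P1.H74.TailQ

/-!
# TAILQ in the form of the module GA (council 2, helper11)
-/

set_option autoImplicit false

namespace Pool.Agent.Lib.MP_af3a4a_an.P1.H11

open Pool.Agent.Lib.MP_af3a4a_an.SV (uu av sq EE)
open Pool.Agent.Lib.MP_af3a4a_an.P1.H80
open Pool.Agent.Lib.MP_af3a4a_an.P1.CHK.H80
open Pool.Agent.Lib.MP_af3a4a_an.P1.H32

/-- helper74's TAILQ -/
theorem tailQ_of {N : ℕ} {z w : Fin N → ℂ} {R : ℝ} {σ : Fin N → ℂ} (hC : Cfg2 N z w R σ)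
    (hR : 29 / 12 ≤ R) {K : ℝ} (hK : 0 < K) (hM : N ≤ K * (R - (muR K R (uu w)).re)) :
    TailQ (qq (uu w)) N K R (muR K R (uu w)).re := by
  intro x hx1 hx2 G hG1 hG2
  have hR0 : 0 < R := by linarith
  have hRx : 0 < R - x := by linarith
  have hRx1 : 0 < R * x - 1 := by nlinarith
  have hR2 : 0 < R ^ 2 - 1 := by nlinarith
  refine H74.TailQ.tailq' hC hR hK hM hx1 (by linarith) hG1 (le_trans (le_of_eq ?_) hG2)
  have e : R / (R ^ 2 - 1) * ((R * x - 1) / (R - x) - (R - x) / (R * x - 1)) =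
      R / (R ^ 2 - 1) * (((R * x - 1) ^ 2 - (R - x) ^ 2) / ((R - x) * (R * x - 1))) := by
    congr 1
    field_simp
  have e2 : (R * x - 1) ^ 2 - (R - x) ^ 2 = (R ^ 2 - 1) * (x ^ 2 - 1) := by ring
  rw [e, e2]
  field_simp

end Pool.Agent.Lib.MP_af3a4a_an.P1.H11
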