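import Pool.Agent.Lib.MP_af3a4a_an.P1.H11.Need

/-!
# The need at `y = 3R/5` for `R ≥ 7` and `R ≥ 8` (council 2, module MAININEQ, helper11)
-/

set_option autoImplicit false

namespace Pool.Agent.Lib.MP_af3a4a_an.P1.H11

open Finset MeasureTheory intervalIntegral
open Pool.Agent.Lib.MP_af3a4a_an.SV (uu av sq EE)
open Pool.Agent.Lib.MP_af3a4a_an.P1.H80

variable {N : ℕ} {z w : Fin N → ℂ} {R : ℝ} {σ : Fin N → ℂ}

theorem log_slope' {R₀ R : ℝ} (hR₀ : 1 < R₀) (hR : R₀ ≤ R) :
    Real.log R / (R - 1) ≤ Real.log R₀ / (R₀ - 1) := by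
  set t := (R - R₀) / (R - 1) with ht
  have hR1 : 0 < R - 1 := by linarith
  have hR01 : 0 < R₀ - 1 := by linarith
  have ht0 : 0 ≤ t := div_nonneg (by linarith) hR1.le
  have ht1 : t ≤ 1 := (div_le_one hR1).2 (by linarith)
  have h4 := strictConcaveOn_log_Ioi.concaveOn.2 (show (R : ℝ) ∈ Set.Ioi (0 : ℝ) by
      simp only [Set.mem_Ioi]; linarith) (show (1 : ℝ) ∈ Set.Ioi (0 : ℝ) by simp)
      (show 0 ≤ 1 - t by linarith) ht0 (by ring)
  simp only [smul_eq_mul, Real.log_one, mul_zero, add_zero, mul_one] at h4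
  have h5 : (1 - t) * R + t = R₀ := by
    rw [ht]
    field_simp
    ring
  rw [h5] at h4
  have h6 : 1 - t = (R₀ - 1) / (R - 1) := by
    rw [ht]
    field_simp
    ring
  rw [h6] at h4
  rw [div_le_div_iff₀ hR1 hR01]
  have h7 : (R₀ - 1) / (R - 1) * Real.log R = ((R₀ - 1) * Real.log R) / (R - 1) := by ring
  rw [h7, div_le_iff₀ hR1] at h4
  linarith

/-- the general form at `y = 3R/5` -/
theorem needG (hC : Cfg2 N z w R σ) {R₀ v : ℝ} {N₀ : ℕ} (h6 : 6 ≤ R₀) (hR : R₀ ≤ R)
    (hN : N₀ ≤ N) (hv : 0 < v)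
    (hD₀ : 0 ≤ Real.log (R₀ / (2 / 5 * R₀ + 1)) - Real.log R₀ / (R₀ - 1))
    (key : Real.log v ≤ N₀ * (Real.log (R₀ / (2 / 5 * R₀ + 1)) - Real.log R₀ / (R₀ - 1)) +
      (R₀ - 1) / (2 / 5 * R₀ + 1)) :
    (((N : ℝ) + 1) / R) * ‖∫ x in (0 : ℝ)..(3 / 5 * R), qq (uu w) x‖ < 3 / 5 / v := by
  have hRp : 0 < R := hC.hR
  have h := main_ineq hC (by linarith) (show 0 < 3 / 5 * R by positivity) (by linarith)
  have hlR := large_R hC
  have hNr : (N₀ : ℝ) ≤ N := by exact_mod_cast hN
  set n : ℝ := (N : ℝ) with hn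
  set c := R - 1 with hc
  set A := R - 3 / 5 * R + 1 with hA
  have hn0 : 0 < n := by linarith
  have hAp : 0 < A := by rw [hA]; linarith
  set x := c / A with hx
  have hx0 : (R₀ - 1) / (2 / 5 * R₀ + 1) ≤ x := by
    rw [hx, div_le_div_iff₀ (by linarith) hAp, hA, hc]
    nlinarith
  have hx1 : x ≤ 5 / 2 := by
    rw [hx, div_le_div_iff₀ hAp (by norm_num), hA, hc]
    linarith
  have hxp : 0 ≤ x := div_nonneg (by rw [hc]; linarith) hAp.le
  have hxn : x / n < 1 := by
    rw [div_lt_one hn0]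
    linarith
  have hxn0 : 0 ≤ x / n := div_nonneg hxp hn0.le
  -- the logarithm
  set D := Real.log (R / A) - Real.log R / c with hD
  set D₀ := Real.log (R₀ / (2 / 5 * R₀ + 1)) - Real.log R₀ / (R₀ - 1) with hD₀'
  have hD6 : D₀ ≤ D := by
    have h1 := log_slope' (show 1 < R₀ by linarith) hR
    have h2 : Real.log (R₀ / (2 / 5 * R₀ + 1)) ≤ Real.log (R / A) := by
      apply Real.log_le_log (div_pos (by linarith) (by linarith))
      rw [div_le_div_iff₀ (by linarith) hAp, hA]
      nlinarith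
    rw [hD, hD₀']
    linarith
  have key2 : Real.log v ≤ n * D + x := by
    refine key.trans ?_
    have h1 : N₀ * D₀ ≤ n * D := mul_le_mul hNr hD6 hD₀ hn0.le
    linarith
  -- the power
  have hex : ex N R * Real.log R = n * (Real.log R - Real.log R / c) := by
    unfold ex
    have hc0 : c ≠ 0 := by rw [hc]; linarith
    have e2 : R - 2 = c - 1 := by rw [hc]; ring
    rw [e2, ← hc, ← hn]
    field_simp
  have hpow : (R - 3 / 5 * R + 1 - (R - 1) / N) ^ N ≤ R ^ ex N R * (1 / v) := by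
    have e1 : R - 3 / 5 * R + 1 - (R - 1) / N = A * (1 - x / n) := by
      rw [← hA, ← hc, ← hn, hx]
      field_simp
    rw [e1, mul_pow]
    have h2 : (1 - x / n) ^ N ≤ Real.exp (-x) := by
      have h1 : 1 - x / n ≤ Real.exp (-(x / n)) := by
        have := Real.add_one_le_exp (-(x / n))
        linarith
      have h3 := pow_le_pow_left₀ (by linarith : 0 ≤ 1 - x / n) h1 N
      refine h3.trans (le_of_eq ?_)
      rw [← Real.exp_nat_mul]
      congr 1
      rw [← hn]
      field_simp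
    have h4 : A ^ N = Real.exp (n * Real.log A) := by
      rw [hn, Real.exp_nat_mul, Real.exp_log hAp]
    have h5 : A ^ N * (1 - x / n) ^ N ≤ Real.exp (n * Real.log A) * Real.exp (-x) := by
      rw [h4]
      exact mul_le_mul_of_nonneg_left h2 (Real.exp_pos _).le
    refine h5.trans ?_
    have h6 : (1 / v : ℝ) = Real.exp (-Real.log v) := by
      rw [Real.exp_neg, Real.exp_log hv, one_div]
    rw [h6, Real.rpow_def_of_pos hRp, ← Real.exp_add, ← Real.exp_add]
    apply Real.exp_le_exp.2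
    have h7 : Real.log (R / A) = Real.log R - Real.log A := Real.log_div hRp.ne' hAp.ne'
    have h8 : Real.log R * ex N R = n * (Real.log R - Real.log R / c) := by
      rw [mul_comm, hex]
    rw [h8]
    have h9 : n * D = n * (Real.log R - Real.log R / c) - n * Real.log A := by
      rw [hD, h7]
      ring
    linarith
  have hRe : 0 < R ^ ex N R := Real.rpow_pos_of_pos hRp _
  have h9 : (n + 1) * ‖∫ x in (0 : ℝ)..(3 / 5 * R), qq (uu w) x‖ * R ^ ex N R <
      (R * (3 / 5 / v)) * R ^ ex N R := by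
    refine lt_of_lt_of_le h ?_
    have h10 : 3 / 5 * R * (R - 3 / 5 * R + 1 - (R - 1) / N) ^ N ≤
        3 / 5 * R * (R ^ ex N R * (1 / v)) :=
      mul_le_mul_of_nonneg_left hpow (by positivity)
    refine h10.trans (le_of_eq ?_)
    ring
  have h10 := lt_of_mul_lt_mul_right h9 hRe.le
  have e : (n + 1) / R * ‖∫ x in (0 : ℝ)..(3 / 5 * R), qq (uu w) x‖ =
      ((n + 1) * ‖∫ x in (0 : ℝ)..(3 / 5 * R), qq (uu w) x‖) / R := by ring
  rw [e, div_lt_iff₀ hRp]
  linarith

theorem num7 : Real.log 200 ≤ 13 * (Real.log (35 / 19) - Real.log 7 / 6) + 30 / 19 := by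
  have h1 : (6 : ℝ) * Real.log 200 + 13 * Real.log 7 - 78 * Real.log (35 / 19) ≤
      6 * (30 / 19) := by
    have e : (6 : ℝ) * Real.log 200 + 13 * Real.log 7 - 78 * Real.log (35 / 19) =
        Real.log (200 ^ 6 * 7 ^ 13 / (35 / 19) ^ 78) := by
      have h48 : (200 : ℝ) ^ 6 * 7 ^ 13 ≠ 0 := by positivity
      have h30 : (35 / 19 : ℝ) ^ 78 ≠ 0 := by positivity
      rw [Real.log_div h48 h30, Real.log_mul (by positivity) (by positivity), Real.log_pow,
        Real.log_pow, Real.log_pow (n := 78)]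
      push_cast
      ring
    rw [e, Real.log_le_iff_le_exp (by positivity)]
    refine le_trans ?_ (Real.sum_le_exp_of_nonneg (by norm_num) 30)
    norm_num [Finset.sum_range_succ, Nat.factorial]
  linarith

theorem num7' : 0 ≤ Real.log (35 / 19) - Real.log 7 / 6 := by
  have h1 : Real.log 7 ≤ 6 * Real.log (35 / 19) := by
    have e : 6 * Real.log (35 / 19) = Real.log ((35 / 19) ^ 6) := by
      rw [Real.log_pow]
      push_cast
      ring
    rw [e]
    apply Real.log_le_log (by norm_num)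
    norm_num
  linarith

/-- `R ≥ 7` -/
theorem need7 (hC : Cfg2 N z w R σ) (hR : 7 ≤ R) :
    (((N : ℝ) + 1) / R) * ‖∫ x in (0 : ℝ)..(3 / 5 * R), qq (uu w) x‖ < 3 / 1000 := by
  have hlR := large_R hC
  have hN13 : 13 ≤ N := by
    have h1 : (12 : ℝ) < N := by linarith
    have : 12 < N := by exact_mod_cast h1
    omega
  have e1 : (7 : ℝ) / (2 / 5 * 7 + 1) = 35 / 19 := by norm_num
  have h := needG hC (R₀ := 7) (v := 200) (N₀ := 13) (by norm_num) hR hN13 (by norm_num)
    (by rw [e1]; norm_num only; exact num7') (by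
      rw [e1]
      have := num7
      norm_num only at this ⊢
      exact this)
  refine h.trans_le ?_
  norm_num

theorem num8 : Real.log 900 ≤ 15 * (Real.log (40 / 21) - Real.log 8 / 7) + 5 / 3 := by
  have h1 : (7 : ℝ) * Real.log 900 + 15 * Real.log 8 - 105 * Real.log (40 / 21) ≤
      7 * (5 / 3) := by
    have e : (7 : ℝ) * Real.log 900 + 15 * Real.log 8 - 105 * Real.log (40 / 21) =
        Real.log (900 ^ 7 * 8 ^ 15 / (40 / 21) ^ 105) := by
      have h48 : (900 : ℝ) ^ 7 * 8 ^ 15 ≠ 0 := by positivity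
      have h30 : (40 / 21 : ℝ) ^ 105 ≠ 0 := by positivity
      rw [Real.log_div h48 h30, Real.log_mul (by positivity) (by positivity), Real.log_pow,
        Real.log_pow, Real.log_pow (n := 105)]
      push_cast
      ring
    rw [e, Real.log_le_iff_le_exp (by positivity)]
    refine le_trans ?_ (Real.sum_le_exp_of_nonneg (by norm_num) 34)
    norm_num [Finset.sum_range_succ, Nat.factorial]
  linarith

theorem num8' : 0 ≤ Real.log (40 / 21) - Real.log 8 / 7 := by
  have h1 : Real.log 8 ≤ 7 * Real.log (40 / 21) := by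
    have e : 7 * Real.log (40 / 21) = Real.log ((40 / 21) ^ 7) := by
      rw [Real.log_pow]
      push_cast
      ring
    rw [e]
    apply Real.log_le_log (by norm_num)
    norm_num
  linarith

/-- `R ≥ 8` -/
theorem need8 (hC : Cfg2 N z w R σ) (hR : 8 ≤ R) :
    (((N : ℝ) + 1) / R) * ‖∫ x in (0 : ℝ)..(3 / 5 * R), qq (uu w) x‖ < 1 / 1500 := by
  have hlR := large_R hC
  have hN15 : 15 ≤ N := by
    have h1 : (14 : ℝ) < N := by linarith
    have : 14 < N := by exact_mod_cast h1
    omega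
  have e1 : (8 : ℝ) / (2 / 5 * 8 + 1) = 40 / 21 := by norm_num
  have h := needG hC (R₀ := 8) (v := 900) (N₀ := 15) (by norm_num) hR hN15 (by norm_num)
    (by rw [e1]; norm_num only; exact num8') (by
      rw [e1]
      have := num8
      norm_num only at this ⊢
      exact this)
  refine h.trans_le ?_
  norm_num

end Pool.Agent.Lib.MP_af3a4a_an.P1.H11
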