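import Pool.Agent.Lib.MP_af3a4a_an.P1.H11.Comb
import Pool.Agent.Lib.MP_af3a4a_an.P1.H11.Need2
import Pool.Agent.Lib.MP_af3a4a_an.P1.H28.CellN

/-!
# The factors `g` and the need in natural numbers (council 2, CELL, helper11)
-/

set_option autoImplicit false

namespace Pool.Agent.Lib.MP_af3a4a_an.P1.H11

open Finset MeasureTheory intervalIntegral
open Pool.Agent.Lib.MP_af3a4a_an.SV (uu av sq EE)
open Pool.Agent.Lib.MP_af3a4a_an.P1.H80
open Pool.Agent.Lib.MP_af3a4a_an.P1.CHK.H80
open Pool.Agent.Lib.MP_af3a4a_an.P1.CHK.Arith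
open Pool.Agent.Lib.MP_af3a4a_an.P1.H28 (ndU gaF)

/-! ### the need -/

theorem ndU_sound {N P Q LR : ℕ} (hN : 0 < N) (hQ : 0 < Q) (h2 : 2 * Q ≤ P)
    (hNP : P - Q < Q * N) (hL : ep LR * Q ≤ P * 1099511627776) :
    nd N ((P : ℝ) / Q) ≤ (ndU N P Q LR : ℝ) / 2 ^ 40 := by
  have hNr : (0 : ℝ) < N := by exact_mod_cast hN
  have hQr : (0 : ℝ) < Q := by exact_mod_cast hQ
  have hP0 : 0 < P := by omega
  have hPr : (0 : ℝ) < P := by exact_mod_cast hP0
  have hPQ : ((P - Q : ℕ) : ℝ) = P - Q := Nat.cast_sub (by omega)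
  have hP2Q : ((P - 2 * Q : ℕ) : ℝ) = P - 2 * Q := by
    rw [Nat.cast_sub h2]
    push_cast
    ring
  have hPQ0 : 0 < P - Q := by omega
  have hPQpos : (0 : ℝ) < (P : ℝ) - Q := by
    rw [← hPQ]
    exact_mod_cast hPQ0
  set R : ℝ := (P : ℝ) / Q with hR
  have hRp : 0 < R := by positivity
  have hLR : (LR : ℝ) / 2 ^ 40 ≤ Real.log R := by
    rw [Real.le_log_iff_exp_le hRp]
    refine (ep_spec LR).trans ?_
    rw [hR, div_le_div_iff₀ (by positivity) hQr]
    have : ((ep LR * Q : ℕ) : ℝ) ≤ ((P * 1099511627776 : ℕ) : ℝ) := by exact_mod_cast hL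
    push_cast at this
    norm_num
    linarith only [this]
  -- first factor
  have hA : (1 - (R - 1) / N) ^ N ≤
      (((Q * N - (P - Q)) ^ N * 1099511627776 / (Q * N) ^ N + 1 : ℕ) : ℝ) / 2 ^ 40 := by
    have h3 := real_le_div ((Q * N - (P - Q)) ^ N * 1099511627776) ((Q * N) ^ N) (by positivity)
    rw [le_div_iff₀ (by positivity)]
    refine le_trans (le_of_eq ?_) h3
    have e1 : ((Q * N - (P - Q) : ℕ) : ℝ) = Q * N - (P - Q) := by
      rw [Nat.cast_sub hNP.le, hPQ]
      push_cast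
      ring
    rw [Nat.cast_mul, Nat.cast_pow, Nat.cast_pow, e1, Nat.cast_mul]
    have e2 : 1 - (R - 1) / N = ((Q : ℝ) * N - (P - Q)) / (Q * N) := by
      rw [hR]
      field_simp
    rw [e2, div_pow]
    push_cast
    ring
  -- second factor
  have hB : R ^ (-ex N R) ≤ (em (N * (P - 2 * Q) * LR / (P - Q)) : ℝ) / 2 ^ 40 := by
    refine le_trans ?_ (em_spec _)
    rw [Real.rpow_def_of_pos hRp]
    apply Real.exp_le_exp.2
    have h3 := div_le_real (N * (P - 2 * Q) * LR) (P - Q)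
    rw [hPQ] at h3
    push_cast at h3
    rw [hP2Q] at h3
    have h4 : ex N R = N * (P - 2 * Q) / (P - Q) := by
      unfold ex
      rw [hR]
      have h5 : (P : ℝ) / Q - 1 = (P - Q) / Q := by field_simp
      have h6 : (P : ℝ) / Q - 2 = (P - 2 * Q) / Q := by field_simp
      rw [h5, h6]
      field_simp
    have h5 : (N : ℝ) * (P - 2 * Q) * LR / (P - Q) / 2 ^ 40 ≤ Real.log R * ex N R := by
      rw [h4]
      have h6 : 0 ≤ (N : ℝ) * (P - 2 * Q) / (P - Q) := by
        have : (0 : ℝ) ≤ P - 2 * Q := by rw [← hP2Q]; exact Nat.cast_nonneg _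
        positivity
      have h7 := mul_le_mul_of_nonneg_right hLR h6
      refine le_trans (le_of_eq ?_) h7
      ring
    have h6 : (((N * (P - 2 * Q) * LR / (P - Q) : ℕ) : ℝ)) / 2 ^ 40 ≤
        (N : ℝ) * (P - 2 * Q) * LR / (P - Q) / 2 ^ 40 :=
      div_le_div_of_nonneg_right h3 (by positivity)
    linarith only [h3, h5]
  unfold nd ndU
  simp only [ev_eq]
  have h3 := le_mU ((Q * N - (P - Q)) ^ N * 1099511627776 / (Q * N) ^ N + 1)
    (em (N * (P - 2 * Q) * LR / (P - Q)))
  refine le_trans ?_ h3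
  apply mul_le_mul hA hB (Real.rpow_nonneg hRp.le _) (by positivity)

/-! ### the factor `g` -/

theorem log_pade {r : ℝ} (hr : 1 ≤ r) : 3 * (r ^ 2 - 1) / (r ^ 2 + 4 * r + 1) ≤ Real.log r := by
  have hd : ∀ x ∈ Set.Icc 1 r, HasDerivAt
      (fun x : ℝ => Real.log x - 3 * (x ^ 2 - 1) / (x ^ 2 + 4 * x + 1))
      ((x - 1) ^ 4 / (x * (x ^ 2 + 4 * x + 1) ^ 2)) x := by
    intro x hx
    have hx0 : 0 < x := by linarith only [hx, hx.1]
    have hD : x ^ 2 + 4 * x + 1 ≠ 0 := by positivity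
    have h1 : HasDerivAt (fun x : ℝ => 3 * (x ^ 2 - 1)) (3 * (2 * x)) x := by
      simpa using ((hasDerivAt_pow 2 x).sub_const 1).const_mul 3
    have h2 : HasDerivAt (fun x : ℝ => x ^ 2 + 4 * x + 1) (2 * x + 4) x := by
      have := ((hasDerivAt_pow 2 x).add ((hasDerivAt_id x).const_mul 4)).add_const 1
      simpa using this
    refine ((Real.hasDerivAt_log hx0.ne').sub (h1.div h2 hD)).congr_deriv ?_
    field_simp
    ring
  have hmono : MonotoneOn (fun x : ℝ => Real.log x - 3 * (x ^ 2 - 1) / (x ^ 2 + 4 * x + 1))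
      (Set.Icc 1 r) := by
    apply monotoneOn_of_deriv_nonneg (convex_Icc 1 r)
    · intro x hx
      exact (hd x hx).continuousAt.continuousWithinAt
    · intro x hx
      exact (hd x (interior_subset hx)).differentiableAt.differentiableWithinAt
    · intro x hx
      have hx' := interior_subset hx
      rw [(hd x hx').deriv]
      have : 0 < x := by linarith only [hx', hx'.1]
      positivity
  have h := hmono (Set.left_mem_Icc.2 hr) (Set.right_mem_Icc.2 hr) hr
  simp only [Real.log_one] at h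
  norm_num at h
  linarith only [h]

/-- `(r - 1/r) max(0, κ - 3/(r + 1/r + 4))` -/
noncomputable def gaR (r κ : ℝ) : ℝ := (r - 1 / r) * max 0 (κ - 3 / (r + 1 / r + 4))

theorem gaR_nonneg {r κ : ℝ} (hr : 1 ≤ r) : 0 ≤ gaR r κ := by
  unfold gaR
  have h1 : 1 / r ≤ 1 := by
    rw [div_le_one (by linarith only [hr])]
    exact hr
  exact mul_nonneg (by linarith only [hr, h1]) (le_max_left _ _)

theorem pade' {r : ℝ} (hr : 1 ≤ r) : 3 * (r - 1 / r) / (r + 1 / r + 4) ≤ Real.log r := by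
  refine le_trans (le_of_eq ?_) (log_pade hr)
  have hr0 : 0 < r := by linarith only [hr]
  have h1 : r + 1 / r + 4 ≠ 0 := by positivity
  have h2 : r ^ 2 + 4 * r + 1 ≠ 0 := by positivity
  field_simp
  ring

theorem ga_ok {r κ : ℝ} (hr : 1 ≤ r) :
    Real.log r ≤ Real.log r + gaR r κ ∧ κ * (r - 1 / r) ≤ Real.log r + gaR r κ := by
  have hr0 : 0 < r := by linarith only [hr]
  have h0 := gaR_nonneg (κ := κ) hr
  refine ⟨by linarith only [h0], ?_⟩
  have h1 : 1 / r ≤ 1 := by
    rw [div_le_one hr0]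
    exact hr
  have h2 := pade' hr
  unfold gaR
  have h3 : κ - 3 / (r + 1 / r + 4) ≤ max 0 (κ - 3 / (r + 1 / r + 4)) := le_max_right _ _
  have h4 := mul_le_mul_of_nonneg_left h3 (show 0 ≤ r - 1 / r by linarith only [hr, h1])
  have h5 : (r - 1 / r) * (κ - 3 / (r + 1 / r + 4)) =
      κ * (r - 1 / r) - 3 * (r - 1 / r) / (r + 1 / r + 4) := by ring
  rw [h5] at h4
  linarith only [h2, h4]

theorem add_inv_mono {r s : ℝ} (hr : 1 ≤ r) (hrs : r ≤ s) : r + 1 / r ≤ s + 1 / s := by
  have hr0 : 0 < r := by linarith only [hr]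
  have hs0 : 0 < s := by linarith only [hr, hrs]
  have h1 : s + 1 / s - (r + 1 / r) = (s - r) * (r * s - 1) / (r * s) := by
    field_simp
    ring
  have h2 : 0 ≤ (s - r) * (r * s - 1) / (r * s) := by
    apply div_nonneg _ (by positivity)
    apply mul_nonneg (by linarith only [hrs])
    nlinarith only [hr, hrs]
  linarith only [h1, h2]

theorem gaR_mono {r s κ κ' : ℝ} (hr : 1 ≤ r) (hrs : r ≤ s) (hκ : κ ≤ κ') :
    gaR r κ ≤ gaR s κ' := by
  have hr0 : 0 < r := by linarith only [hr]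
  have hs0 : 0 < s := by linarith only [hr, hrs]
  unfold gaR
  have h1 : 1 / r ≤ 1 := by
    rw [div_le_one hr0]
    exact hr
  have h2 : 1 / s ≤ 1 / r := one_div_le_one_div_of_le hr0 hrs
  have h3 : 3 / (s + 1 / s + 4) ≤ 3 / (r + 1 / r + 4) := by
    apply div_le_div_of_nonneg_left (by norm_num) (by positivity)
    have := add_inv_mono hr hrs
    linarith only [this]
  apply mul_le_mul (by linarith only [hrs, h2]) _ (le_max_left _ _) (by linarith only [hr, hrs, h1, h2])
  exact max_le_max le_rfl (by linarith only [hκ, h3])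

/-- `(x - ε)/(1 - ε x)` increases in `ε` and `x` -/
theorem rr_mono {ε ε' x x' : ℝ} (h0 : 0 ≤ ε) (h1 : ε ≤ ε') (h2 : 1 ≤ x) (h3 : x ≤ x')
    (h4 : ε' * x' < 1) (h5 : ε' < 1) :
    (x - ε) / (1 - ε * x) ≤ (x' - ε') / (1 - ε' * x') := by
  have h6 : ε * x ≤ ε' * x' := mul_le_mul h1 h3 (by linarith only [h2]) (by linarith only [h0, h1])
  rw [div_le_div_iff₀ (by linarith only [h4, h6]) (by linarith only [h4])]
  have e : (x' - ε') * (1 - ε * x) - (x - ε) * (1 - ε' * x') =
      (x' - x) * (1 - ε * ε') + (ε' - ε) * (x * x' - 1) := by ring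
  have h7 : 0 ≤ (x' - x) * (1 - ε * ε') := by
    apply mul_nonneg (by linarith only [h3])
    nlinarith only [h0, h1, h5]
  have h8 : 0 ≤ (ε' - ε) * (x * x' - 1) := by
    apply mul_nonneg (by linarith only [h1])
    nlinarith only [h2, h3]
  linarith only [h7, h8]

theorem kap_mono {ε ε' : ℝ} (h0 : 0 ≤ ε) (h1 : ε ≤ ε') (h5 : ε' < 1) :
    ε / (1 - ε ^ 2) ≤ ε' / (1 - ε' ^ 2) := by
  rw [div_le_div_iff₀ (by nlinarith only [h0, h1, h5]) (by nlinarith only [h0, h1, h5])]
  linarith only [h0, h1, mul_nonneg (sub_nonneg.2 h1) (mul_nonneg h0 (h0.trans h1))]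

/-- the meaning of `gaF` -/
theorem gaF_sound {e k : ℕ} (he : e * (9 + k) < 8192) (he1 : e < 1024) (he0 : 0 < e) :
    gaR (((9 + k : ℝ) / 8 - e / 1024) / (1 - e / 1024 * ((9 + k : ℝ) / 8)))
      (e / 1024 / (1 - (e / 1024 : ℝ) ^ 2)) ≤ (gaF e k : ℝ) / 2 ^ 40 ∧
    (gaF e k = 0 → gaR (((9 + k : ℝ) / 8 - e / 1024) / (1 - e / 1024 * ((9 + k : ℝ) / 8)))
      (e / 1024 / (1 - (e / 1024 : ℝ) ^ 2)) = 0) := by
  set P : ℕ := 8 * (128 * (9 + k) - e) with hP
  set Q : ℕ := 8192 - e * (9 + k) with hQ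
  set F : ℕ := 1048576 - e * e with hF
  set D : ℕ := P * P + Q * Q + 4 * (P * Q) with hD
  have her : (e : ℝ) < 1024 := by exact_mod_cast he1
  have he0r : (0 : ℝ) < e := by exact_mod_cast he0
  have hekr : (e : ℝ) * (9 + k) < 8192 := by exact_mod_cast he
  have hPr : (P : ℝ) = 8192 * ((9 + k : ℝ) / 8 - e / 1024) := by
    rw [hP, Nat.cast_mul, Nat.cast_sub (by omega)]
    push_cast
    ring
  have hQr : (Q : ℝ) = 8192 * (1 - e / 1024 * ((9 + k : ℝ) / 8)) := by
    rw [hQ, Nat.cast_sub he.le]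
    push_cast
    ring
  have hee : e * e ≤ 1048576 := by nlinarith only [he, he1]
  have hFr : (F : ℝ) = 1048576 * (1 - (e / 1024 : ℝ) ^ 2) := by
    rw [hF, Nat.cast_sub hee]
    push_cast
    ring
  have hQ0 : (0 : ℝ) < Q := by
    have : 0 < Q := by omega
    exact_mod_cast this
  have hP0 : (0 : ℝ) < P := by
    have : 0 < P := by omega
    exact_mod_cast this
  have hF0 : (0 : ℝ) < F := by
    have : 0 < F := by
      have : e * e < 1048576 := by nlinarith only [he, he1]
      omega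
    exact_mod_cast this
  have hD0 : (0 : ℝ) < D := by
    rw [hD]
    push_cast
    positivity
  have e1 : ((9 + k : ℝ) / 8 - e / 1024) / (1 - e / 1024 * ((9 + k : ℝ) / 8)) = P / Q := by
    rw [hPr, hQr]
    have : (8192 : ℝ) ≠ 0 := by norm_num
    rw [mul_div_mul_left _ _ this]
  have e2 : (e / 1024 / (1 - (e / 1024 : ℝ) ^ 2)) = 1024 * e / F := by
    rw [hFr]
    have : (1 - (e / 1024 : ℝ) ^ 2) ≠ 0 := by
      intro h
      rw [h, mul_zero] at hFr
      linarith only [hFr, hF0]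
    field_simp
    ring
  rw [e1, e2]
  set Y : ℕ := 1024 * e * D - 3 * (P * Q) * F with hY
  -- the maximum
  have hmax : max 0 (1024 * (e : ℝ) / F - 3 / ((P : ℝ) / Q + 1 / ((P : ℝ) / Q) + 4)) =
      Y / (F * D) := by
    have h1 : 3 / ((P : ℝ) / Q + 1 / ((P : ℝ) / Q) + 4) = 3 * (P * Q) / D := by
      rw [hD]
      push_cast
      field_simp
    have h2 : 1024 * (e : ℝ) / F - 3 * (P * Q) / D =
        (1024 * e * D - 3 * (P * Q) * F) / (F * D) := by
      field_simp
    rw [h1, h2]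
    rcases le_total (3 * (P * Q) * F) (1024 * e * D) with h | h
    · have h3 : (Y : ℝ) = 1024 * e * D - 3 * (P * Q) * F := by
        rw [hY, Nat.cast_sub h]
        push_cast
        ring
      rw [h3, max_eq_right]
      rw [← h3]
      positivity
    · have h3 : Y = 0 := by rw [hY]; omega
      have h4 : (1024 * (e : ℝ) * D - 3 * (P * Q) * F) ≤ 0 := by
        have : ((1024 * e * D : ℕ) : ℝ) ≤ ((3 * (P * Q) * F : ℕ) : ℝ) := by exact_mod_cast h
        push_cast at this
        linarith only [this]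
      rw [h3, max_eq_left]
      · simp
      · exact div_nonpos_of_nonpos_of_nonneg h4 (by positivity)
  have hga : gaR ((P : ℝ) / Q) (1024 * e / F) = (P * P - Q * Q) * Y / (P * Q * F * D) := by
    unfold gaR
    rw [hmax]
    field_simp
  have hgaF : gaF e k = bif Nat.beq Y 0 then 0 else
      ((P * P - Q * Q) * Y) <<< 40 / (P * Q * F * D) + 1 := by
    unfold gaF
    simp only [ev_eq]
    rfl
  rw [hga, hgaF]
  rcases Nat.eq_zero_or_pos Y with h | h
  · rw [h]
    simp
  · have hb : Nat.beq Y 0 = false := by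
      generalize Y = y at h
      cases y with
      | zero => exact absurd h (lt_irrefl 0)
      | succ n => rfl
    rw [hb, cond_false]
    refine ⟨?_, fun h0 => absurd h0 (Nat.succ_ne_zero _)⟩
    have hPQD : 0 < P * Q * F * D := by
      have : (0 : ℝ) < P * Q * F * D := by positivity
      exact_mod_cast this
    have h3 := real_le_div (((P * P - Q * Q) * Y) <<< 40) (P * Q * F * D) hPQD
    rw [le_div_iff₀ (by positivity)]
    refine le_trans ?_ h3
    rw [Nat.shiftLeft_eq]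
    push_cast
    have h4 : (P : ℝ) * P - Q * Q ≤ ((P * P - Q * Q : ℕ) : ℝ) := by
      have := sub_le_cast (P * P) (Q * Q)
      push_cast at this
      exact this
    rw [div_mul_eq_mul_div]
    apply div_le_div_of_nonneg_right _ (by positivity)
    have h5 := mul_le_mul_of_nonneg_right h4 (Nat.cast_nonneg Y)
    norm_num
    linarith only [h5]

/-! ### the tail bound -/

/-- helper74's TAILQ for a function `q` -/
def TailQ (q : ℝ → ℂ) (N K R μ : ℝ) : Prop :=
  ∀ x : ℝ, 1 < x → x ≤ 3 / 5 * R → ∀ G : ℝ, Real.log ((R * x - 1) / (R - x)) ≤ G →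
    R / (R ^ 2 - 1) * ((R * x - 1) / (R - x) - (R - x) / (R * x - 1)) ≤ G →
    ‖q x‖ ≤ Real.exp ((N - K) * Real.log (1 - x / R) +
      K * (Real.log (gg μ x) / 2 + G - Real.log ((R * x - 1) / (R - x))))

theorem gg_pos_of_one_lt {μ x : ℝ} (hμ : |μ| ≤ 1) (hx : 1 < x) : 0 < gg μ x := by
  unfold gg
  have h1 := abs_le.1 hμ
  nlinarith only [hx, h1, mul_pos (sub_pos.2 hx) (sub_pos.2 hx)]

theorem tail_ga {q : ℝ → ℂ} {N K R μ x : ℝ} (h : TailQ q N K R μ) (hR : 1 < R) (hμ : |μ| ≤ 1)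
    (h1 : 1 < x) (h2 : x ≤ 3 / 5 * R) :
    ‖q x‖ ≤ Real.exp (K * gaR ((x - 1 / R) / (1 - 1 / R * x)) (1 / R / (1 - (1 / R) ^ 2))) *
      (Wf R ((N - K) / R) x * GK K μ x) := by
  have hR0 : 0 < R := by linarith only [h1, h2]
  have hxR : x < R := by linarith only [h1, h2]
  have hRx : 0 < R - x := by linarith only [h1, h2]
  have hRx1 : 0 < R * x - 1 := by nlinarith only [hR, h1, h2]
  have er : (x - 1 / R) / (1 - 1 / R * x) = (R * x - 1) / (R - x) := by
    have : (1 - 1 / R * x) ≠ 0 := by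
      have : 1 - 1 / R * x = (R - x) / R := by field_simp
      rw [this]
      positivity
    field_simp
  have hR2 : (0 : ℝ) < R ^ 2 - 1 := by nlinarith only [hR, h1, h2]
  have ek : 1 / R / (1 - (1 / R) ^ 2) = R / (R ^ 2 - 1) := by
    have : (1 - (1 / R) ^ 2) ≠ 0 := by
      have : 1 - (1 / R) ^ 2 = (R ^ 2 - 1) / R ^ 2 := by field_simp
      rw [this]
      positivity
    field_simp
  rw [er, ek]
  set r := (R * x - 1) / (R - x) with hr
  have hr1 : 1 ≤ r := by
    rw [hr, le_div_iff₀ hRx]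
    nlinarith only [hR, h1]
  have hinv : (R - x) / (R * x - 1) = 1 / r := by
    rw [hr, one_div_div]
  obtain ⟨g1, g2⟩ := ga_ok (κ := R / (R ^ 2 - 1)) hr1
  have h3 := h x h1 h2 (Real.log r + gaR r (R / (R ^ 2 - 1))) g1 (by rw [hinv]; exact g2)
  refine h3.trans (le_of_eq ?_)
  rw [GK_exp (gg_pos_of_one_lt hμ h1)]
  unfold Wf el
  rw [← Real.exp_add, ← Real.exp_add]
  congr 1
  rw [← hr]
  field_simp
  ring

/-- a closed inequality at the left end -/
theorem le_at_left {f g : ℝ → ℝ} {a b : ℝ} (hab : a < b) (hf : ContinuousAt f a)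
    (hg : ContinuousAt g a) (h : ∀ x, a < x → x ≤ b → f x ≤ g x) : f a ≤ g a := by
  refine le_of_tendsto_of_tendsto (b := nhdsWithin a (Set.Ioi a))
    (hf.tendsto.mono_left nhdsWithin_le_nhds) (hg.tendsto.mono_left nhdsWithin_le_nhds) ?_
  filter_upwards [Ioc_mem_nhdsGT hab] with x hx
  exact h x hx.1 hx.2

/-- the factor -/
def gFac (k16 e k : ℕ) : ℕ :=
  bif Nat.beq (gaF e k) 0 then 1099511627776 else ep ((k16 * gaF e k) >>> 4 + 1)

/-- **the tail with the factors**, case B -/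
theorem gaB {q : ℝ → ℂ} (hq : Continuous q) {N K R μ : ℝ} {k16 e nt : ℕ}
    (h : TailQ q N K R μ) (hR : 1 < R) (hμ : |μ| ≤ 1) (hK : K = (k16 : ℝ) / 16)
    (he : 1 / R ≤ (e : ℝ) / 1024) (he1 : e < 1024) (hnt : 5 * e * (8 + nt) ≤ 24576) {k : ℕ}
    (hk : k < nt) {x : ℝ} (h1 : Xn k ≤ x) (h2 : x ≤ Xn (k + 1)) :
    ‖q x‖ ≤ (gFac k16 e k : ℝ) / 2 ^ 40 * (Wf R ((N - K) / R) x * GK K μ x) := by
  have hR0 : 0 < R := by linarith only [hR]
  have hK0 : 0 ≤ K := by rw [hK]; positivity
  have he0r : (0 : ℝ) < e := by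
    have : 0 < 1 / R := by positivity
    have h3 := lt_of_lt_of_le this he
    by_contra hcon
    push Not at hcon
    have : (e : ℝ) / 1024 ≤ 0 := div_nonpos_of_nonpos_of_nonneg hcon (by norm_num)
    linarith
  have he0 : 0 < e := by exact_mod_cast he0r
  have hntr : (5 : ℝ) * e * (8 + nt) ≤ 24576 := by exact_mod_cast hnt
  have hR10 : (1024 : ℝ) ≤ R * e := by
    rw [div_le_div_iff₀ hR0 (by norm_num)] at he
    linarith only [he]
  have hkr : (k : ℝ) + 1 ≤ nt := by exact_mod_cast hk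
  -- the range
  have hXR : Xn (k + 1) ≤ 3 / 5 * R := by
    unfold Xn
    push_cast
    have h3 : (8 + ((k : ℝ) + 1)) * (5 * e) ≤ 24576 := by
      refine le_trans ?_ hntr
      nlinarith only [hkr]
    have h4 : (8 + ((k : ℝ) + 1)) * (5 * e) ≤ 24 * R * e := by linarith only [hR10, h3]
    have h5 : (8 + ((k : ℝ) + 1)) * 5 ≤ 24 * R := by
      have : ((8 + ((k : ℝ) + 1)) * 5) * e ≤ (24 * R) * e := by linarith only [hR10, h3]
      exact le_of_mul_le_mul_right this he0r
    linarith only [h5]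
  have her1 : (e : ℝ) / 1024 < 1 := by
    rw [div_lt_one (by norm_num)]
    exact_mod_cast he1
  have hek : e * (9 + k) < 8192 := by
    have h3 : 5 * e * (8 + nt) ≤ 24576 := hnt
    have h4 : 5 * e * (9 + k) ≤ 5 * e * (8 + nt) := Nat.mul_le_mul_left _ (by omega)
    have h5 : 5 * (e * (9 + k)) ≤ 24576 := by
      rw [← mul_assoc]
      exact h4.trans h3
    omega
  obtain ⟨s1, s2⟩ := gaF_sound hek he1 he0
  have hX : ((9 + k : ℝ) / 8) = Xn (k + 1) := by
    unfold Xn
    push_cast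
    ring
  rw [hX] at s1 s2
  set g0 := gaR ((Xn (k + 1) - e / 1024) / (1 - e / 1024 * Xn (k + 1)))
    (e / 1024 / (1 - (e / 1024 : ℝ) ^ 2)) with hg0
  have hexk : (e : ℝ) / 1024 * Xn (k + 1) < 1 := by
    rw [← hX]
    have : (e : ℝ) * (9 + k) < 8192 := by exact_mod_cast hek
    linarith only [this]
  -- the factor
  have hfac : Real.exp (K * g0) ≤ (gFac k16 e k : ℝ) / 2 ^ 40 := by
    unfold gFac
    rcases Nat.eq_zero_or_pos (gaF e k) with h0 | h0
    · rw [s2 h0, h0]
      simp only [mul_zero, Real.exp_zero]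
      norm_num
    · have hb : Nat.beq (gaF e k) 0 = false := by
        generalize gaF e k = y at h0
        cases y with
        | zero => exact absurd h0 (lt_irrefl 0)
        | succ n => rfl
      rw [hb, cond_false]
      refine le_trans ?_ (ep_spec _)
      apply Real.exp_le_exp.2
      have h3 := le_shr (k16 * gaF e k) 4
      have h4 : K * g0 ≤ K * ((gaF e k : ℝ) / 2 ^ 40) := mul_le_mul_of_nonneg_left s1 hK0
      refine h4.trans ?_
      rw [hK]
      rw [le_div_iff₀ (by positivity)]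
      refine le_trans (le_of_eq ?_) h3
      push_cast
      ring
  -- for `x > 1`
  have main : ∀ y : ℝ, 1 < y → y ≤ Xn (k + 1) →
      ‖q y‖ ≤ (gFac k16 e k : ℝ) / 2 ^ 40 * (Wf R ((N - K) / R) y * GK K μ y) := by
    intro y hy1 hy2
    refine (tail_ga h hR hμ hy1 (hy2.trans hXR)).trans ?_
    apply mul_le_mul_of_nonneg_right _ (mul_nonneg (Wf_pos _ _ _).le (GK_nonneg hμ))
    refine le_trans ?_ hfac
    apply Real.exp_le_exp.2
    apply mul_le_mul_of_nonneg_left _ hK0
    have hRi : 0 < 1 / R := by positivity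
    apply gaR_mono
    · rw [le_div_iff₀]
      · have : 1 / R < 1 := by
          rw [div_lt_one hR0]
          exact hR
        nlinarith only [hy1, hRi]
      · have : y / R < 1 := by
          rw [div_lt_one hR0]
          linarith only [he, hXR, her1, hy1, hy2, hRi]
        have e3 : 1 / R * y = y / R := by ring
        rw [e3]
        linarith only [this]
    · exact rr_mono hRi.le he hy1.le hy2 hexk her1
    · exact kap_mono hRi.le he her1
  rcases (Xn_ge k).eq_or_lt with hXk | hXk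
  · rcases h1.eq_or_lt with h3 | h3
    · rw [← h3, ← hXk]
      have hX1 : 1 < Xn (k + 1) := by
        have := Xn_succ k
        linarith
      have hWc : ContinuousAt (Wf R ((N - K) / R)) 1 :=
        (Wf_cont hR0 _).continuousAt (Iio_mem_nhds hR)
      exact le_at_left (f := fun y => ‖q y‖)
        (g := fun y => (gFac k16 e k : ℝ) / 2 ^ 40 * (Wf R ((N - K) / R) y * GK K μ y)) hX1
        hq.norm.continuousAt
        (continuousAt_const.mul (hWc.mul (GK_cont hK0 μ).continuousAt)) main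
    · exact main x (by linarith only [hXk, h3]) h2
  · exact main x (by linarith only [h1, hXk]) h2

/-- **the tail without factors**, case A: `R ≥ 6` -/
theorem gaA {q : ℝ → ℂ} (hq : Continuous q) {N K R μ : ℝ} (h : TailQ q N K R μ) (hR : 6 ≤ R)
    (hμ : |μ| ≤ 1) (hK0 : 0 ≤ K) {x : ℝ} (h1 : 1 ≤ x) (h2 : x ≤ 3 / 5 * R) :
    ‖q x‖ ≤ Wf R ((N - K) / R) x * GK K μ x := by
  have hR0 : 0 < R := by linarith only [hR]
  have hR1 : 1 < R := by linarith only [hR]
  have main : ∀ y : ℝ, 1 < y → y ≤ 3 / 5 * R →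
      ‖q y‖ ≤ Wf R ((N - K) / R) y * GK K μ y := by
    intro y hy1 hy2
    have h3 := tail_ga h hR1 hμ hy1 hy2
    have h4 : gaR ((y - 1 / R) / (1 - 1 / R * y)) (1 / R / (1 - (1 / R) ^ 2)) = 0 := by
      unfold gaR
      rw [max_eq_left, mul_zero]
      have hRx : 0 < R - y := by linarith only [hR, hy2]
      have hRx1 : 0 < R * y - 1 := by nlinarith only [hR, hy1]
      have er : (y - 1 / R) / (1 - 1 / R * y) = (R * y - 1) / (R - y) := by
        have : (1 - 1 / R * y) ≠ 0 := by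
          have : 1 - 1 / R * y = (R - y) / R := by field_simp
          rw [this]
          positivity
        field_simp
      have hR2 : (0 : ℝ) < R ^ 2 - 1 := by nlinarith only [hR]
      have ek : 1 / R / (1 - (1 / R) ^ 2) = R / (R ^ 2 - 1) := by
        have : (1 - (1 / R) ^ 2) ≠ 0 := by
          have : 1 - (1 / R) ^ 2 = (R ^ 2 - 1) / R ^ 2 := by field_simp
          rw [this]
          positivity
        field_simp
      rw [er, ek]
      set r := (R * y - 1) / (R - y) with hr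
      have hr1 : 1 ≤ r := by
        rw [hr, le_div_iff₀ hRx]
        nlinarith only [hR, hy1]
      have hr0 : 0 < r := by linarith only [hr1]
      have hr2 : r ≤ 3 / 2 * R := by
        rw [hr, div_le_iff₀ hRx]
        nlinarith only [hR, hy2]
      have hir : 1 / r ≤ 1 := by
        rw [div_le_one hr0]
        exact hr1
      rw [sub_nonpos, div_le_div_iff₀ hR2 (by positivity)]
      have h5 : r + 1 / r + 4 ≤ 3 / 2 * R + 5 := by linarith only [hr2, hir]
      have h6 := mul_le_mul_of_nonneg_left h5 hR0.le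
      nlinarith only [hR, h6]
    rw [h4, mul_zero, Real.exp_zero, one_mul] at h3
    exact h3
  rcases h1.eq_or_lt with h3 | h3
  · rw [← h3]
    have hX1 : (1 : ℝ) < 3 / 5 * R := by linarith only [hR]
    have hWc : ContinuousAt (Wf R ((N - K) / R)) 1 :=
      (Wf_cont hR0 _).continuousAt (Iio_mem_nhds hR1)
    exact le_at_left (f := fun y => ‖q y‖)
      (g := fun y => Wf R ((N - K) / R) y * GK K μ y) hX1
      hq.norm.continuousAt (hWc.mul (GK_cont hK0 μ).continuousAt) main
  · exact main x h3 h2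

end Pool.Agent.Lib.MP_af3a4a_an.P1.H11
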