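import Pool.Agent.Lib.MP_af3a4a_an.P1.H11.MainIneq

/-!
# Numbers for the main inequality (council 2, module MAININEQ, helper11)
-/

namespace Pool.Agent.Lib.MP_af3a4a_an.P1.H11

open Finset MeasureTheory intervalIntegral
open Pool.Agent.Lib.MP_af3a4a_an.SV (uu av sq EE)
open Pool.Agent.Lib.MP_af3a4a_an.P1.H80

/-- the check of `nd N (P/Q) ≤ a/b` by exact powers -/
def ndLe (N P Q a b : ℕ) : Bool :=
  Nat.ble (((N * Q + Q - P) ^ (P - Q) * Q ^ (P - 2 * Q)) ^ N * b ^ (P - Q))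
    (a ^ (P - Q) * ((N * Q) ^ (P - Q) * P ^ (P - 2 * Q)) ^ N)

theorem ndLe_sound {N P Q a b : ℕ} (hN : 0 < N) (hQ : 0 < Q) (h2 : 2 * Q ≤ P)
    (hNP : P ≤ N * Q + Q) (hb : 0 < b) (h : ndLe N P Q a b = true) :
    nd N ((P : ℝ) / Q) ≤ (a : ℝ) / b := by
  have h' := Nat.le_of_ble_eq_true h
  have hr : ((((N * Q + Q - P : ℕ) : ℝ) ^ (P - Q) * (Q : ℝ) ^ (P - 2 * Q)) ^ N *
      (b : ℝ) ^ (P - Q)) ≤
      ((a : ℝ) ^ (P - Q) * (((N : ℝ) * Q) ^ (P - Q) * (P : ℝ) ^ (P - 2 * Q)) ^ N) := by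
    exact_mod_cast h'
  have hNr : (0 : ℝ) < N := by exact_mod_cast hN
  have hQr : (0 : ℝ) < Q := by exact_mod_cast hQ
  have hbr : (0 : ℝ) < b := by exact_mod_cast hb
  have hPN : 0 < P := by omega
  have hPr : (0 : ℝ) < P := by exact_mod_cast hPN
  have e1 : ((N * Q + Q - P : ℕ) : ℝ) = N * Q + Q - P := by
    rw [Nat.cast_sub hNP]
    push_cast
    ring
  have hPQ : ((P - Q : ℕ) : ℝ) = P - Q := Nat.cast_sub (by omega)
  have hP2Q : ((P - 2 * Q : ℕ) : ℝ) = P - 2 * Q := by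
    rw [Nat.cast_sub h2]
    push_cast
    ring
  have hPQ0 : P - Q ≠ 0 := by omega
  have hPQpos : (0 : ℝ) < (P : ℝ) - Q := by
    rw [← hPQ]
    exact_mod_cast Nat.pos_of_ne_zero hPQ0
  set R : ℝ := (P : ℝ) / Q with hR
  have hRp : 0 < R := by positivity
  -- the base
  have hbase : 1 - (R - 1) / N = ((N * Q + Q - P : ℕ) : ℝ) / (N * Q) := by
    rw [e1, hR]
    field_simp
    ring
  have hex : (P - Q : ℕ) * ex N R = ((N * (P - 2 * Q) : ℕ) : ℝ) := by
    unfold ex
    rw [Nat.cast_mul, hP2Q, hPQ, hR]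
    have h3 : (P : ℝ) / Q - 1 = (P - Q) / Q := by field_simp
    have h4 : (P : ℝ) / Q - 2 = (P - 2 * Q) / Q := by field_simp
    rw [h3, h4]
    have h5 : (P : ℝ) - Q ≠ 0 := hPQpos.ne'
    field_simp
  -- powers
  have hnd : 0 ≤ nd N R := by
    apply nd_nonneg hRp
    rw [hR, sub_le_iff_le_add, div_le_iff₀ hQr]
    have : (P : ℝ) ≤ N * Q + Q := by exact_mod_cast hNP
    linarith
  have hab : 0 ≤ (a : ℝ) / b := by positivity
  refine le_of_pow_le_pow_left₀ hPQ0 hab ?_
  have hpow : nd N R ^ (P - Q) = (((N * Q + Q - P : ℕ) : ℝ) / (N * Q)) ^ (N * (P - Q)) *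
      (R ^ (N * (P - 2 * Q)))⁻¹ := by
    unfold nd
    rw [hbase, mul_pow, ← pow_mul]
    congr 1
    rw [← Real.rpow_natCast, ← Real.rpow_mul hRp.le]
    have : -ex N R * ((P - Q : ℕ) : ℝ) = -((N * (P - 2 * Q) : ℕ) : ℝ) := by
      rw [← hex]
      ring
    rw [this, Real.rpow_neg hRp.le, Real.rpow_natCast]
  rw [hpow, hR, div_pow, div_pow, div_pow, pow_mul' _ N (P - Q), pow_mul' _ N (P - Q),
    pow_mul' _ N (P - 2 * Q), pow_mul' _ N (P - 2 * Q)]
  rw [mul_pow, mul_pow] at hr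
  rw [inv_div, div_mul_div_comm, div_le_div_iff₀ (by positivity) (by positivity)]
  refine hr.trans (le_of_eq ?_)
  rw [mul_pow]

/-- the complete check of the need: `N ≥ N0`, `R ≥ P/Q` -/
def needOK (N0 P Q a b : ℕ) : Bool :=
  Nat.ble 6 N0 && Nat.ble 1 Q && Nat.ble (29 * Q) (12 * P) && Nat.ble (2 * P) (N0 * Q + 2 * Q) &&
    Nat.ble 1 b && ndLe N0 P Q a b

section

variable {N : ℕ} {z w : Fin N → ℂ} {R : ℝ} {σ : Fin N → ℂ}

theorem need_ok (hC : Cfg2 N z w R σ) {N0 P Q a b : ℕ} (h : needOK N0 P Q a b = true)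
    (hN : N0 ≤ N) (hR : (P : ℝ) / Q ≤ R) :
    (((N : ℝ) + 1) / R) * ‖∫ x in (0 : ℝ)..R, qq (uu w) x‖ < (a : ℝ) / b := by
  unfold needOK at h
  simp only [Bool.and_eq_true] at h
  obtain ⟨⟨⟨⟨⟨h1, h2⟩, h3⟩, h4⟩, h5⟩, h6⟩ := h
  replace h1 := Nat.le_of_ble_eq_true h1
  replace h2 := Nat.le_of_ble_eq_true h2
  replace h3 := Nat.le_of_ble_eq_true h3
  replace h4 := Nat.le_of_ble_eq_true h4
  replace h5 := Nat.le_of_ble_eq_true h5
  have hQr : (0 : ℝ) < Q := by exact_mod_cast h2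
  have h3r : (29 : ℝ) * Q ≤ 12 * P := by exact_mod_cast h3
  have h4r : (2 : ℝ) * P ≤ N0 * Q + 2 * Q := by exact_mod_cast h4
  have h7 : (29 : ℝ) / 12 ≤ P / Q := by
    rw [div_le_div_iff₀ (by norm_num) hQr]
    linarith
  have h8 : 2 * ((P : ℝ) / Q - 1) ≤ N0 := by
    have : (P : ℝ) / Q * Q = P := by field_simp
    have h9 : (2 * ((P : ℝ) / Q - 1)) * Q ≤ N0 * Q := by
      calc (2 * ((P : ℝ) / Q - 1)) * Q = 2 * ((P : ℝ) / Q * Q) - 2 * Q := by ring
        _ = 2 * P - 2 * Q := by rw [this]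
        _ ≤ N0 * Q := by linarith
    exact le_of_mul_le_mul_right h9 hQr
  refine lt_of_lt_of_le (need hC h1 hN h7 hR h8) ?_
  refine ndLe_sound (by omega) h2 ?_ ?_ h5 h6
  · have : (2 : ℝ) * Q ≤ P := by linarith
    exact_mod_cast this
  · have h9 : (P : ℝ) ≤ N0 * Q + Q := by
      have : (0 : ℝ) ≤ N0 * Q := by positivity
      linarith
    exact_mod_cast h9

/-! ### `R ≥ 6` -/

theorem one_sub_le_exp {t : ℝ} (h0 : 0 ≤ t) (h1 : t < 1) :
    1 - t ≤ Real.exp (-(t + t ^ 2 / 2)) := by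
  have h2 : |t| < 1 := by rwa [abs_of_nonneg h0]
  have h3 := Real.hasSum_pow_div_log_of_abs_lt_one h2
  have h4 := sum_le_hasSum (Finset.range 2) (fun i _ => by positivity) h3
  simp only [Finset.sum_range_succ, Finset.sum_range_zero] at h4
  norm_num at h4
  have h5 : Real.log (1 - t) ≤ -(t + t ^ 2 / 2) := by linarith
  have h6 := Real.exp_le_exp.2 h5
  rwa [Real.exp_log (by linarith)] at h6

theorem log_slope {R : ℝ} (hR : 6 ≤ R) : Real.log R / (R - 1) ≤ Real.log 6 / 5 := by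
  set t := (R - 6) / (R - 1) with ht
  have hR1 : 0 < R - 1 := by linarith
  have ht0 : 0 ≤ t := div_nonneg (by linarith) hR1.le
  have ht1 : t ≤ 1 := (div_le_one hR1).2 (by linarith)
  have h4 := strictConcaveOn_log_Ioi.concaveOn.2 (show (R : ℝ) ∈ Set.Ioi (0 : ℝ) by
      simp only [Set.mem_Ioi]; linarith) (show (1 : ℝ) ∈ Set.Ioi (0 : ℝ) by simp)
      (show 0 ≤ 1 - t by linarith) ht0 (by ring)
  simp only [smul_eq_mul, Real.log_one, mul_zero, add_zero, mul_one] at h4
  have h5 : (1 - t) * R + t = 6 := by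
    rw [ht]
    field_simp
    ring
  rw [h5] at h4
  have h6 : 1 - t = 5 / (R - 1) := by
    rw [ht]
    field_simp
    ring
  rw [h6] at h4
  rw [div_le_div_iff₀ hR1 (by norm_num)]
  have h7 : 5 / (R - 1) * Real.log R = (5 * Real.log R) / (R - 1) := by ring
  rw [h7, div_le_iff₀ hR1] at h4
  linarith

theorem num11 : Real.log 48 ≤ 11 * (Real.log (30 / 17) - Real.log 6 / 5) + 25 / 17 +
    (25 / 17) ^ 2 / 22 := by
  have h1 : (5 : ℝ) * Real.log 48 + 11 * Real.log 6 - 55 * Real.log (30 / 17) ≤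
      5 * (25 / 17 + (25 / 17) ^ 2 / 22) := by
    have e : (5 : ℝ) * Real.log 48 + 11 * Real.log 6 - 55 * Real.log (30 / 17) =
        Real.log (48 ^ 5 * 6 ^ 11 / (30 / 17) ^ 55) := by
      have h48 : (48 : ℝ) ^ 5 * 6 ^ 11 ≠ 0 := by positivity
      have h30 : (30 / 17 : ℝ) ^ 55 ≠ 0 := by positivity
      rw [Real.log_div h48 h30, Real.log_mul (by positivity) (by positivity), Real.log_pow,
        Real.log_pow, Real.log_pow (n := 55)]
      push_cast
      ring
    rw [e, Real.log_le_iff_le_exp (by positivity)]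
    refine le_trans ?_ (Real.sum_le_exp_of_nonneg (by norm_num) 24)
    norm_num [Finset.sum_range_succ, Nat.factorial]
  linarith

theorem num12 : Real.log 48 ≤ 12 * (Real.log (30 / 17) - Real.log 6 / 5) + 25 / 17 := by
  have h1 : (5 : ℝ) * Real.log 48 + 12 * Real.log 6 - 60 * Real.log (30 / 17) ≤
      5 * (25 / 17) := by
    have e : (5 : ℝ) * Real.log 48 + 12 * Real.log 6 - 60 * Real.log (30 / 17) =
        Real.log (48 ^ 5 * 6 ^ 12 / (30 / 17) ^ 60) := by
      have h48 : (48 : ℝ) ^ 5 * 6 ^ 12 ≠ 0 := by positivity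
      have h30 : (30 / 17 : ℝ) ^ 60 ≠ 0 := by positivity
      rw [Real.log_div h48 h30, Real.log_mul (by positivity) (by positivity), Real.log_pow,
        Real.log_pow, Real.log_pow (n := 60)]
      push_cast
      ring
    rw [e, Real.log_le_iff_le_exp (by positivity)]
    refine le_trans ?_ (Real.sum_le_exp_of_nonneg (by norm_num) 24)
    norm_num [Finset.sum_range_succ, Nat.factorial]
  linarith

theorem num0 : 0 ≤ Real.log (30 / 17) - Real.log 6 / 5 := by
  have h1 : Real.log 6 ≤ 5 * Real.log (30 / 17) := by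
    have e : 5 * Real.log (30 / 17) = Real.log ((30 / 17) ^ 5) := by
      rw [Real.log_pow]
      push_cast
      ring
    rw [e]
    apply Real.log_le_log (by norm_num)
    norm_num
  linarith

/-- **the main inequality at `y = 3R/5`, `R ≥ 6`** -/
theorem need6 (hC : Cfg2 N z w R σ) (hR : 6 ≤ R) :
    (((N : ℝ) + 1) / R) * ‖∫ x in (0 : ℝ)..(3 / 5 * R), qq (uu w) x‖ < 1 / 80 := by
  have hRp : 0 < R := hC.hR
  have h := main_ineq hC (by linarith) (show 0 < 3 / 5 * R by positivity) (by linarith)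
  have hlR := large_R hC
  have hN11 : 11 ≤ N := by
    have h1 : (10 : ℝ) < N := by linarith
    have : 10 < N := by exact_mod_cast h1
    omega
  have hNr : (11 : ℝ) ≤ N := by exact_mod_cast hN11
  set n : ℝ := (N : ℝ) with hn
  set c := R - 1 with hc
  set A := R - 3 / 5 * R + 1 with hA
  have hn0 : 0 < n := by linarith
  have hc5 : 5 ≤ c := by rw [hc]; linarith
  have hAp : 0 < A := by rw [hA]; linarith
  set x := c / A with hx
  have hx0 : 25 / 17 ≤ x := by
    rw [hx, div_le_div_iff₀ (by norm_num) hAp, hA, hc]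
    linarith
  have hx1 : x ≤ 5 / 2 := by
    rw [hx, div_le_div_iff₀ hAp (by norm_num), hA, hc]
    linarith
  have hxn : x / n < 1 := by
    rw [div_lt_one hn0]
    linarith
  have hxn0 : 0 ≤ x / n := div_nonneg (by linarith) hn0.le
  -- the logarithm
  set D := Real.log (R / A) - Real.log R / c with hD
  have hD6 : Real.log (30 / 17) - Real.log 6 / 5 ≤ D := by
    have h1 := log_slope hR
    have h2 : Real.log (30 / 17) ≤ Real.log (R / A) := by
      apply Real.log_le_log (by norm_num)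
      rw [div_le_div_iff₀ (by norm_num) hAp, hA]
      linarith
    rw [hD]
    linarith
  have hD0 : 0 ≤ D := num0.trans hD6
  have key : Real.log 48 ≤ n * D + x + x ^ 2 / (2 * n) := by
    have hsq : (25 / 17 : ℝ) ^ 2 ≤ x ^ 2 := pow_le_pow_left₀ (by norm_num) hx0 2
    rcases Nat.lt_or_ge N 12 with h12 | h12
    · have hN : N = 11 := by omega
      have hn11 : n = 11 := by rw [hn, hN]; norm_num
      rw [hn11]
      have := num11
      linarith
    · have hn12 : (12 : ℝ) ≤ n := by rw [hn]; exact_mod_cast h12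
      have := num12
      have h1 : 12 * D ≤ n * D := mul_le_mul_of_nonneg_right hn12 hD0
      have h2 : 0 ≤ x ^ 2 / (2 * n) := by positivity
      linarith
  -- the power
  have hex : ex N R * Real.log R = n * (Real.log R - Real.log R / c) := by
    unfold ex
    have hc0 : c ≠ 0 := by linarith
    have e2 : R - 2 = c - 1 := by rw [hc]; ring
    rw [e2, ← hc, ← hn]
    field_simp
  have hpow : (R - 3 / 5 * R + 1 - (R - 1) / N) ^ N ≤ R ^ ex N R * (1 / 48) := by
    have e1 : R - 3 / 5 * R + 1 - (R - 1) / N = A * (1 - x / n) := by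
      rw [← hA, ← hc, ← hn, hx]
      field_simp
    rw [e1, mul_pow]
    have h2 : (1 - x / n) ^ N ≤ Real.exp (-(x + x ^ 2 / (2 * n))) := by
      have h3 := pow_le_pow_left₀ (by linarith : 0 ≤ 1 - x / n) (one_sub_le_exp hxn0 hxn) N
      refine h3.trans (le_of_eq ?_)
      rw [← Real.exp_nat_mul]
      congr 1
      rw [← hn]
      field_simp
    have h4 : A ^ N = Real.exp (n * Real.log A) := by
      rw [hn, Real.exp_nat_mul, Real.exp_log hAp]
    have h5 : A ^ N * (1 - x / n) ^ N ≤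
        Real.exp (n * Real.log A) * Real.exp (-(x + x ^ 2 / (2 * n))) := by
      rw [h4]
      exact mul_le_mul_of_nonneg_left h2 (Real.exp_pos _).le
    refine h5.trans ?_
    have h6 : (1 / 48 : ℝ) = Real.exp (-Real.log 48) := by
      rw [Real.exp_neg, Real.exp_log (by norm_num)]
      norm_num
    rw [h6, Real.rpow_def_of_pos hRp, ← Real.exp_add, ← Real.exp_add]
    apply Real.exp_le_exp.2
    have h7 : Real.log (R / A) = Real.log R - Real.log A := Real.log_div hRp.ne' hAp.ne'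
    have h8 : Real.log R * ex N R = n * (Real.log R - Real.log R / c) := by
      rw [mul_comm, hex]
    rw [h8]
    have h9 : n * D = n * (Real.log R - Real.log R / c) - n * Real.log A := by
      rw [hD, h7]
      ring
    linarith
  have hRe : 0 < R ^ ex N R := Real.rpow_pos_of_pos hRp _
  have h9 : (n + 1) * ‖∫ x in (0 : ℝ)..(3 / 5 * R), qq (uu w) x‖ * R ^ ex N R <
      (R / 80) * R ^ ex N R := by
    refine lt_of_lt_of_le h ?_
    have h10 : 3 / 5 * R * (R - 3 / 5 * R + 1 - (R - 1) / N) ^ N ≤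
        3 / 5 * R * (R ^ ex N R * (1 / 48)) :=
      mul_le_mul_of_nonneg_left hpow (by positivity)
    refine h10.trans (le_of_eq ?_)
    ring
  have h10 := lt_of_mul_lt_mul_right h9 hRe.le
  have e : (n + 1) / R * ‖∫ x in (0 : ℝ)..(3 / 5 * R), qq (uu w) x‖ =
      ((n + 1) * ‖∫ x in (0 : ℝ)..(3 / 5 * R), qq (uu w) x‖) / R := by ring
  rw [e, div_lt_iff₀ hRp]
  linarith

end

end Pool.Agent.Lib.MP_af3a4a_an.P1.H11
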