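import Pool.Agent.Lib.MP_af3a4a_an.P1.CHK.BIG.RA
import Pool.Agent.Lib.MP_af3a4a_an.P1.CHK.BIG.RB
import Pool.Agent.Lib.MP_af3a4a_an.P1.CHK.BIG.RC
import Pool.Agent.Lib.MP_af3a4a_an.P1.CHK.BIG.RD
import Pool.Agent.Lib.MP_af3a4a_an.P1.CHK.BIG.RE
import Pool.Agent.Lib.MP_af3a4a_an.P1.CHK.BIG.RF
import Pool.Agent.Lib.MP_af3a4a_an.P1.CHK.BIG.RG
import Pool.Agent.Lib.MP_af3a4a_an.P1.CHK.BIG.RH
import Pool.Agent.Lib.MP_af3a4a_an.P1.CHK.BIG.RI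
import Pool.Agent.Lib.MP_af3a4a_an.P1.CHK.BIG.RJ
import Pool.Agent.Lib.MP_af3a4a_an.P1.CHK.BIG.RK
import Pool.Agent.Lib.MP_af3a4a_an.P1.H32.Tail24
import Pool.Agent.Lib.MP_af3a4a_an.P1.H81.Main24

/-!
# BIGR: no counterexample with `N ≥ 6`, `R > 29/12` (council 2)
-/

set_option autoImplicit false

namespace Pool.Agent.Lib.MP_af3a4a_an.P1.H11

open Pool.Agent.Lib.MP_af3a4a_an.P1.H80
open Pool.Agent.Lib.MP_af3a4a_an.P1.CHK.BIG

/-- no counterexample with `N M* ≤ 24`, `N ≥ 6`, `R ≥ 29/12` -/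
theorem kp384 : KP 384 :=
  KPr.full (rangeA.app (rangeB.app (rangeC.app (rangeD.app (rangeE.app (rangeF.app
    (rangeG.app (rangeH.app (rangeI.app (rangeJ.app rangeK))))))))))

/-- **BIGR** -/
theorem high6 {N : ℕ} (hN : 6 ≤ N) {z w : Fin N → ℂ} {R : ℝ} {σ : Fin N → ℂ}
    (hC : Cfg2 N z w R σ) : R < 29 / 12 := by
  by_contra hcon
  push Not at hcon
  have h1 := kp384 N z w R σ hC hN hcon
  have h2 : 24 < H79.NM N w R := by
    have h3 : 24 < NM N w R := by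
      refine lt_of_le_of_lt ?_ h1
      norm_num
    exact h3
  exact absurd (H32.Tail24.tail24 hC hcon h2) (not_lt.2 (H81.main24 hC hcon h2))

end Pool.Agent.Lib.MP_af3a4a_an.P1.H11
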