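import Pool.Agent.Lib.MP_af3a4a_an.P1.H80.Contour

/-!
# The main inequality for large `R` (council 2, module MAININEQ, helper11)

For a counterexample in normal form with `R ≥ 2` and `0 < y ≤ R`
`(N+1) ‖∫_0^y q‖ R^(N (R-2)/(R-1)) < y (R - y + 1 - (R-1)/N)^N`.
-/

namespace Pool.Agent.Lib.MP_af3a4a_an.P1.H11

open Finset MeasureTheory intervalIntegral
open Pool.Agent.Lib.MP_af3a4a_an.SV (uu av sq EE)
open Pool.Agent.Lib.MP_af3a4a_an.P1.H80

/-- `log |w| ≥ log R (1 - |w - R|/(R-1))` for `|w| ≥ 1` -/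
theorem log_norm_ge {R : ℝ} (hR : 1 < R) {w : ℂ} (hw : 1 ≤ ‖w‖) :
    Real.log R * (1 - ‖w - (R : ℂ)‖ / (R - 1)) ≤ Real.log ‖w‖ := by
  have hR1 : 0 < R - 1 := by linarith
  have hlogR : 0 < Real.log R := Real.log_pos hR
  set C := ‖w - (R : ℂ)‖ with hC
  have hC0 : 0 ≤ C := norm_nonneg _
  rcases le_or_gt (R - 1) C with h | h
  · have h1 : 1 ≤ C / (R - 1) := (one_le_div hR1).2 h
    have h2 : 0 ≤ Real.log ‖w‖ := Real.log_nonneg hw
    nlinarith
  · set t := C / (R - 1) with ht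
    have ht0 : 0 ≤ t := by positivity
    have ht1 : t < 1 := (div_lt_one hR1).2 h
    have htC : t * (R - 1) = C := by rw [ht]; field_simp
    have h1 : R - C ≤ ‖w‖ := by
      have h3 := norm_sub_norm_le (R : ℂ) ((R : ℂ) - w)
      rw [sub_sub_cancel, Complex.norm_real, Real.norm_of_nonneg (by linarith), norm_sub_rev] at h3
      exact h3
    have h2 : 0 < R - C := by linarith
    have h3 : Real.log (R - C) ≤ Real.log ‖w‖ := Real.log_le_log h2 h1
    have h4 := strictConcaveOn_log_Ioi.concaveOn.2 (show (R : ℝ) ∈ Set.Ioi (0 : ℝ) by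
      simp only [Set.mem_Ioi]; linarith) (show (1 : ℝ) ∈ Set.Ioi (0 : ℝ) by simp)
      (show 0 ≤ 1 - t by linarith) ht0 (by ring)
    simp only [smul_eq_mul, Real.log_one, mul_zero, add_zero, mul_one] at h4
    have h5 : (1 - t) * R + t = R - C := by rw [← htC]; ring
    rw [h5] at h4
    nlinarith

/-- the exponent -/
noncomputable def ex (N : ℕ) (R : ℝ) : ℝ := N * (R - 2) / (R - 1)

section

variable {N : ℕ} {z w : Fin N → ℂ} {R : ℝ} {σ : Fin N → ℂ}

theorem EE_ge (hC : Cfg2 N z w R σ) (hR : 1 < R) : R ^ ex N R < EE w := by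
  have hR1 : 0 < R - 1 := by linarith
  have hlogR : 0 < Real.log R := Real.log_pos hR
  have hpos : ∀ k, 0 < ‖w k‖ := fun k => lt_of_lt_of_le one_pos (hC.cfg.far k)
  have h1 : EE w = Real.exp (∑ k, Real.log ‖w k‖) := by
    unfold EE
    rw [Real.exp_sum]
    refine Finset.prod_congr rfl fun k _ => ?_
    rw [Real.exp_log (hpos k)]
  rw [h1, Real.rpow_def_of_pos hC.hR]
  apply Real.exp_lt_exp.2
  have h2 : ∑ k, Real.log R * (1 - ‖w k - (R : ℂ)‖ / (R - 1)) ≤ ∑ k, Real.log ‖w k‖ :=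
    Finset.sum_le_sum fun k _ => log_norm_ge hR (hC.cfg.far k)
  refine lt_of_lt_of_le ?_ h2
  rw [← Finset.mul_sum, Finset.sum_sub_distrib, ← Finset.sum_div]
  simp only [Finset.sum_const, Finset.card_univ, Fintype.card_fin, nsmul_eq_mul, mul_one]
  apply mul_lt_mul_of_pos_left _ hlogR
  have h3 := hC.dist
  have h4 : ex N R = N - N / (R - 1) := by
    unfold ex
    field_simp
    ring
  rw [h4]
  have h5 : (∑ k, ‖w k - (R : ℂ)‖) / (R - 1) < N / (R - 1) := div_lt_div_of_pos_right h3 hR1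
  linarith

theorem amgm_pos (hC : Cfg2 N z w R σ) : 0 < 1 - (R - 1) / N := by
  have h := large_R hC
  have hN : (3 : ℝ) ≤ N := by exact_mod_cast hC.hN
  have hN0 : (0 : ℝ) < N := by linarith
  rw [sub_pos, div_lt_one hN0]
  linarith

/-- AM-GM for the zeros -/
theorem prod_lt (hC : Cfg2 N z w R σ) {y : ℝ} (hy : y ≤ R) :
    ∏ j, ‖(y : ℂ) - z j‖ < (R - y + 1 - (R - 1) / N) ^ N := by
  have hN : (3 : ℝ) ≤ N := by exact_mod_cast hC.hN
  have hN0 : (0 : ℝ) < N := by linarith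
  set A := R - y + 1 - (R - 1) / N with hA
  have hA0 : 0 < A := by
    have := amgm_pos hC
    rw [hA]
    linarith
  have h1 : ∀ j, ‖(y : ℂ) - z j‖ ≤ A * Real.exp (‖(y : ℂ) - z j‖ / A - 1) := by
    intro j
    have h := Real.add_one_le_exp (‖(y : ℂ) - z j‖ / A - 1)
    rw [sub_add_cancel, div_le_iff₀ hA0] at h
    linarith
  have h2 : ∏ j, ‖(y : ℂ) - z j‖ ≤ ∏ j, (A * Real.exp (‖(y : ℂ) - z j‖ / A - 1)) :=
    Finset.prod_le_prod (fun j _ => norm_nonneg _) fun j _ => h1 j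
  refine lt_of_le_of_lt h2 ?_
  rw [Finset.prod_mul_distrib, ← Real.exp_sum]
  simp only [Finset.prod_const, Finset.card_univ, Fintype.card_fin]
  have h3 : ∑ j, (‖(y : ℂ) - z j‖ / A - 1) < 0 := by
    rw [Finset.sum_sub_distrib, ← Finset.sum_div]
    simp only [Finset.sum_const, Finset.card_univ, Fintype.card_fin, nsmul_eq_mul, mul_one]
    rw [sub_neg, div_lt_iff₀ hA0]
    have h4 : ∑ j, ‖(y : ℂ) - z j‖ ≤ ∑ j, ((R - y) + ‖z j - (R : ℂ)‖) := by
      refine Finset.sum_le_sum fun j _ => ?_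
      have h5 : (y : ℂ) - z j = ((y : ℂ) - (R : ℂ)) - (z j - (R : ℂ)) := by ring
      rw [h5]
      refine (norm_sub_le _ _).trans ?_
      rw [← Complex.ofReal_sub, Complex.norm_real, Real.norm_of_nonpos (by linarith)]
      linarith
    have h5 := hC.mass'
    rw [Finset.sum_add_distrib] at h4
    simp only [Finset.sum_const, Finset.card_univ, Fintype.card_fin, nsmul_eq_mul] at h4
    have h6 : (N : ℝ) * A = N * (R - y) + N - (R - 1) := by
      rw [hA]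
      field_simp
    rw [h6]
    linarith
  have h4 : Real.exp (∑ j, (‖(y : ℂ) - z j‖ / A - 1)) < 1 := by
    have := Real.exp_lt_exp.2 h3
    rwa [Real.exp_zero] at this
  have h5 : 0 < A ^ N := by positivity
  nlinarith

/-- **the main inequality** -/
theorem main_ineq (hC : Cfg2 N z w R σ) (hR : 1 < R) {y : ℝ} (h0 : 0 < y) (h1 : y ≤ R) :
    ((N : ℝ) + 1) * ‖∫ x in (0 : ℝ)..y, qq (uu w) x‖ * R ^ ex N R <
      y * (R - y + 1 - (R - 1) / N) ^ N := by
  have h2 := hC.cfg.prod_eq (y : ℂ)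
  have h3 := prod_lt hC h1
  have h4 := EE_ge hC hR
  rw [← Cfg2.fI_eq w h0.le]
  rw [h2] at h3
  have h5 : (0 : ℝ) < N + 1 := by positivity
  have h6 : 0 ≤ ‖fI w (y : ℂ)‖ := norm_nonneg _
  have h7 : ((N : ℝ) + 1) * (y * ‖fI w (y : ℂ)‖) * R ^ ex N R ≤
      ((N : ℝ) + 1) * (y * ‖fI w (y : ℂ)‖) * EE w :=
    mul_le_mul_of_nonneg_left h4.le (by positivity)
  refine lt_of_le_of_lt h7 ?_
  have h8 : ((N : ℝ) + 1) * (y * ‖fI w (y : ℂ)‖) * EE w =
      y * (((N : ℝ) + 1) * EE w * ‖fI w (y : ℂ)‖) := by ring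
  rw [h8]
  exact mul_lt_mul_of_pos_left h3 h0

end

/-! ### the bound `nd` -/

/-- `(1 - (R-1)/N)^N R^(-N (R-2)/(R-1))` -/
noncomputable def nd (N : ℕ) (R : ℝ) : ℝ := (1 - (R - 1) / N) ^ N * R ^ (-ex N R)

theorem ex_nonneg {N : ℕ} {R : ℝ} (hR : 2 ≤ R) : 0 ≤ ex N R := by
  unfold ex
  have h1 : 0 < R - 1 := by linarith
  have h2 : 0 ≤ R - 2 := by linarith
  positivity

theorem ex_mono {N : ℕ} {R₀ R : ℝ} (hR₀ : 2 ≤ R₀) (hR : R₀ ≤ R) : ex N R₀ ≤ ex N R := by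
  have h1 : 0 < R₀ - 1 := by linarith
  have h2 : 0 < R - 1 := by linarith
  have e : ∀ x : ℝ, 0 < x - 1 → ex N x = N - N / (x - 1) := by
    intro x hx
    unfold ex
    field_simp
    ring
  rw [e _ h1, e _ h2]
  have h3 : (N : ℝ) / (R - 1) ≤ N / (R₀ - 1) :=
    div_le_div_of_nonneg_left (Nat.cast_nonneg N) h1 (by linarith)
  linarith

theorem nd_nonneg {N : ℕ} {R : ℝ} (hR : 0 < R) (hN : R - 1 ≤ N) : 0 ≤ nd N R := by
  unfold nd
  have h1 : 0 ≤ 1 - (R - 1) / N := by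
    rw [sub_nonneg]
    exact div_le_one_of_le₀ hN (Nat.cast_nonneg N)
  positivity

/-- `nd` decreases in `R` -/
theorem nd_anti {N : ℕ} {R₀ R : ℝ} (hR₀ : 2 ≤ R₀) (hR : R₀ ≤ R) (hN : R - 1 ≤ N) :
    nd N R ≤ nd N R₀ := by
  unfold nd
  have hN0 : (0 : ℝ) ≤ N := Nat.cast_nonneg N
  have h1 : 0 ≤ 1 - (R - 1) / N := by
    rw [sub_nonneg]
    exact div_le_one_of_le₀ hN (Nat.cast_nonneg N)
  have h2 : 1 - (R - 1) / N ≤ 1 - (R₀ - 1) / N := by
    have : (R₀ - 1) / N ≤ (R - 1) / N := div_le_div_of_nonneg_right (by linarith) hN0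
    linarith
  have h3 : (1 - (R - 1) / (N : ℝ)) ^ N ≤ (1 - (R₀ - 1) / N) ^ N := pow_le_pow_left₀ h1 h2 N
  have h4 : R ^ (-ex N R) ≤ R₀ ^ (-ex N R₀) := by
    have hR0 : 0 < R₀ := by linarith
    have hRp : 0 < R := by linarith
    rw [Real.rpow_def_of_pos hRp, Real.rpow_def_of_pos hR0]
    apply Real.exp_le_exp.2
    have h5 : Real.log R₀ ≤ Real.log R := Real.log_le_log hR0 hR
    have h6 : 0 ≤ Real.log R₀ := Real.log_nonneg (by linarith)
    have h7 := ex_mono (N := N) hR₀ hR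
    have h8 := ex_nonneg (N := N) hR₀
    nlinarith [mul_le_mul h5 h7 h8 (h6.trans h5)]
  exact mul_le_mul h3 h4 (Real.rpow_nonneg (by linarith) _) (pow_nonneg (h1.trans h2) _)

/-- the arithmetic of the step `N → N + 1` -/
theorem step_arith {n c L : ℝ} (hc : 17 / 12 ≤ c) (hn : 6 ≤ n) (hnc : 2 * c ≤ n)
    (hL : 22 / 25 ≤ L) (hL3 : 3 ≤ c → 1 ≤ L) :
    c ^ 2 / ((n + 1) * (n - c)) ≤ L * ((c - 1) / c) := by
  have hc0 : 0 < c := by linarith
  have h1 : 0 < (n + 1) * (n - c) := by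
    apply mul_pos <;> linarith
  rw [div_le_iff₀ h1]
  have key : c ^ 3 ≤ L * (c - 1) * ((n + 1) * (n - c)) := by
    rcases le_or_gt c 3 with h | h
    · have h2 : 7 * (6 - c) ≤ (n + 1) * (n - c) :=
        mul_le_mul (by linarith) (by linarith) (by linarith) (by linarith)
      have h3 : c ^ 3 ≤ 22 / 25 * (c - 1) * (7 * (6 - c)) := by
        nlinarith [mul_nonneg (sub_nonneg.2 hc) (sub_nonneg.2 h),
          mul_nonneg (mul_nonneg (sub_nonneg.2 hc) (sub_nonneg.2 h)) hc0.le]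
      have h4 : 22 / 25 * (c - 1) ≤ L * (c - 1) := mul_le_mul_of_nonneg_right hL (by linarith)
      calc c ^ 3 ≤ 22 / 25 * (c - 1) * (7 * (6 - c)) := h3
        _ ≤ L * (c - 1) * ((n + 1) * (n - c)) :=
          mul_le_mul h4 h2 (by linarith) (by nlinarith)
    · have h2 : (2 * c + 1) * c ≤ (n + 1) * (n - c) :=
        mul_le_mul (by linarith) (by linarith) hc0.le (by linarith)
      have h4 : 1 * (c - 1) ≤ L * (c - 1) := mul_le_mul_of_nonneg_right (hL3 h.le) (by linarith)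
      have h5 : 0 ≤ c * (c * (c - 3) + 2 * (c - 3) + 5) := by
        have : 0 ≤ c - 3 := by linarith
        positivity
      calc c ^ 3 ≤ 1 * (c - 1) * ((2 * c + 1) * c) := by nlinarith
        _ ≤ L * (c - 1) * ((n + 1) * (n - c)) :=
          mul_le_mul h4 h2 (by positivity) (by nlinarith)
  have e : L * ((c - 1) / c) * ((n + 1) * (n - c)) =
      (L * (c - 1) * ((n + 1) * (n - c))) / c := by ring
  rw [e, le_div_iff₀ hc0]
  calc c ^ 2 * c = c ^ 3 := by ring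
    _ ≤ _ := key

theorem log_ge_22_25 : (22 / 25 : ℝ) ≤ Real.log (29 / 12) := by
  rw [Real.le_log_iff_exp_le (by norm_num)]
  have h := Real.exp_bound' (x := 22 / 25) (by norm_num) (by norm_num) (n := 8) (by norm_num)
  refine h.trans ?_
  norm_num [Finset.sum_range_succ, Nat.factorial]

theorem log_ge_one {R : ℝ} (hR : 4 ≤ R) : 1 ≤ Real.log R := by
  rw [Real.le_log_iff_exp_le (by linarith)]
  have := Real.exp_one_lt_d9
  linarith

/-- `nd` decreases in `N` -/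
theorem nd_succ {N : ℕ} {R : ℝ} (hR : 29 / 12 ≤ R) (hN6 : 6 ≤ N) (hN : 2 * (R - 1) ≤ N) :
    nd (N + 1) R ≤ nd N R := by
  have hn : (6 : ℝ) ≤ N := by exact_mod_cast hN6
  set n : ℝ := (N : ℝ) with hn'
  set c := R - 1 with hc
  have hc1 : 17 / 12 ≤ c := by rw [hc]; linarith
  have hRp : 0 < R := by linarith
  have hn0 : 0 < n := by linarith
  have hnc : 0 < n - c := by linarith
  have hA : 0 < 1 - c / n := by
    rw [sub_pos, div_lt_one hn0]
    linarith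
  have hB : 0 < 1 - c / (n + 1) := by
    rw [sub_pos, div_lt_one (by linarith)]
    linarith
  have hL : 22 / 25 ≤ Real.log R :=
    log_ge_22_25.trans (Real.log_le_log (by norm_num) hR)
  have hstep := step_arith hc1 hn hN hL (fun h => log_ge_one (by rw [hc] at h; linarith))
  -- `B ≤ exp (-c/(n+1))`
  have hB1 : 1 - c / (n + 1) ≤ Real.exp (-(c / (n + 1))) := by
    have := Real.add_one_le_exp (-(c / (n + 1)))
    linarith
  -- `B ≤ A exp (c/((n+1)(n-c)))`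
  have hBA : 1 - c / (n + 1) ≤ (1 - c / n) * Real.exp (c / ((n + 1) * (n - c))) := by
    have h1 := Real.add_one_le_exp (c / ((n + 1) * (n - c)))
    have h2 : (1 - c / n) * (c / ((n + 1) * (n - c)) + 1) = 1 - c / (n + 1) := by
      field_simp
      ring
    rw [← h2]
    exact mul_le_mul_of_nonneg_left h1 hA.le
  have hpow : (1 - c / (n + 1)) ^ (N + 1) ≤
      (1 - c / n) ^ N * Real.exp (c ^ 2 / ((n + 1) * (n - c))) := by
    rw [pow_succ]
    have h1 : (1 - c / (n + 1)) ^ N ≤ ((1 - c / n) * Real.exp (c / ((n + 1) * (n - c)))) ^ N :=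
      pow_le_pow_left₀ hB.le hBA N
    have h2 : (1 - c / (n + 1)) ^ N * (1 - c / (n + 1)) ≤
        ((1 - c / n) * Real.exp (c / ((n + 1) * (n - c)))) ^ N * Real.exp (-(c / (n + 1))) :=
      mul_le_mul h1 hB1 hB.le (by positivity)
    refine h2.trans (le_of_eq ?_)
    rw [mul_pow, mul_assoc, ← Real.exp_nat_mul, ← Real.exp_add]
    congr 2
    rw [← hn']
    field_simp
    ring
  -- the power of `R`
  have hex : ex (N + 1) R = ex N R + (c - 1) / c := by
    unfold ex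
    have hc0 : c ≠ 0 := by linarith
    have e2 : R - 2 = c - 1 := by rw [hc]; ring
    rw [e2, ← hc, Nat.cast_add, Nat.cast_one]
    field_simp
  unfold nd
  rw [Nat.cast_add, Nat.cast_one, ← hn', ← hc, hex, neg_add, Real.rpow_add hRp]
  have hE : Real.exp (c ^ 2 / ((n + 1) * (n - c))) * R ^ (-((c - 1) / c)) ≤ 1 := by
    rw [Real.rpow_def_of_pos hRp, ← Real.exp_add]
    apply Real.exp_le_one_iff.2
    linarith
  have h0 : 0 < R ^ (-ex N R) := Real.rpow_pos_of_pos hRp _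
  have h1 : 0 < R ^ (-((c - 1) / c)) := Real.rpow_pos_of_pos hRp _
  have h2 : 0 < (1 - c / n) ^ N := by positivity
  calc (1 - c / (n + 1)) ^ (N + 1) * (R ^ (-ex N R) * R ^ (-((c - 1) / c)))
      ≤ ((1 - c / n) ^ N * Real.exp (c ^ 2 / ((n + 1) * (n - c)))) *
        (R ^ (-ex N R) * R ^ (-((c - 1) / c))) :=
        mul_le_mul_of_nonneg_right hpow (by positivity)
    _ = (1 - c / n) ^ N * R ^ (-ex N R) *
        (Real.exp (c ^ 2 / ((n + 1) * (n - c))) * R ^ (-((c - 1) / c))) := by ring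
    _ ≤ (1 - c / n) ^ N * R ^ (-ex N R) * 1 :=
        mul_le_mul_of_nonneg_left hE (by positivity)
    _ = _ := mul_one _

theorem nd_mono {N₀ N : ℕ} {R : ℝ} (hR : 29 / 12 ≤ R) (hN6 : 6 ≤ N₀) (hN₀ : 2 * (R - 1) ≤ N₀)
    (hN : N₀ ≤ N) : nd N R ≤ nd N₀ R := by
  induction N, hN using Nat.le_induction with
  | base => exact le_refl _
  | succ n hn ih =>
    refine (nd_succ hR (hN6.trans hn) ?_).trans ih
    have : (N₀ : ℝ) ≤ n := by exact_mod_cast hn
    linarith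

section

variable {N : ℕ} {z w : Fin N → ℂ} {R : ℝ} {σ : Fin N → ℂ}

theorem need_nd (hC : Cfg2 N z w R σ) (hR : 1 < R) :
    (((N : ℝ) + 1) / R) * ‖∫ x in (0 : ℝ)..R, qq (uu w) x‖ < nd N R := by
  have hRp : 0 < R := hC.hR
  have h := main_ineq hC hR hRp le_rfl
  rw [sub_self, zero_add] at h
  have h1 : 0 < R ^ ex N R := Real.rpow_pos_of_pos hRp _
  unfold nd
  rw [Real.rpow_neg hRp.le, ← div_eq_mul_inv, lt_div_iff₀ h1]
  have e : ((N : ℝ) + 1) / R * ‖∫ x in (0 : ℝ)..R, qq (uu w) x‖ * R ^ ex N R =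
      (((N : ℝ) + 1) * ‖∫ x in (0 : ℝ)..R, qq (uu w) x‖ * R ^ ex N R) / R := by ring
  rw [e, div_lt_iff₀ hRp]
  linarith

/-- **the need** -/
theorem need (hC : Cfg2 N z w R σ) {N₀ : ℕ} {R₀ : ℝ} (h6 : 6 ≤ N₀) (hN : N₀ ≤ N)
    (hR₀ : 29 / 12 ≤ R₀) (hR : R₀ ≤ R) (hNR : 2 * (R₀ - 1) ≤ N₀) :
    (((N : ℝ) + 1) / R) * ‖∫ x in (0 : ℝ)..R, qq (uu w) x‖ < nd N₀ R₀ := by
  have h1 := need_nd hC (by linarith)
  have h2 := large_R hC
  have hN0 : (0 : ℝ) ≤ N := Nat.cast_nonneg N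
  refine lt_of_lt_of_le h1 ((nd_anti (by linarith) hR (by linarith)).trans ?_)
  exact nd_mono hR₀ h6 hNR hN

end

end Pool.Agent.Lib.MP_af3a4a_an.P1.H11
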