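import Pool.Agent.Lib.MP_af3a4a_an.P1.H28.CellN
import Pool.Agent.Lib.MP_af3a4a_an.P1.H28.Cost
import Pool.Agent.Lib.MP_af3a4a_an.P1.CHK.CurveK.Leaf
import Pool.Agent.Lib.MP_af3a4a_an.P1.H32.SweepR

/-!
# BIGR: the configurations of a cell, chaining (council 2, helper11)
-/

set_option autoImplicit false

namespace Pool.Agent.Lib.MP_af3a4a_an.P1.H11

open Pool.Agent.Lib.MP_af3a4a_an.SV (uu av sq EE)
open Pool.Agent.Lib.MP_af3a4a_an.P1.H80
open Pool.Agent.Lib.MP_af3a4a_an.P1.CHK.H80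
open Pool.Agent.Lib.MP_af3a4a_an.P1.H32
open Pool.Agent.Lib.MP_af3a4a_an.P1.H28 (cost_sum mstar_le_iff)

/-- A configuration in the cell: `K = k/16`, `K⁻ = km/16`, `1/R ∈ [ea/1024, eb/1024]`,
`1 + μ₁ ∈ [A/512, B/512]`, where `μ = muR K R (uu w)`. -/
structure InC (k km ea eb A B : ℕ) {N : ℕ} (z w : Fin N → ℂ) (R : ℝ) (σ : Fin N → ℂ) : Prop where
  hC : Cfg2 N z w R σ
  h6 : 6 ≤ N
  hR : 29 / 12 ≤ R
  he0 : (ea : ℝ) / 1024 ≤ 1 / R
  he1 : 1 / R ≤ (eb : ℝ) / 1024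
  hN1 : (N : ℝ) ≤ (k : ℝ) / 16 * (R - (muR ((k : ℝ) / 16) R (uu w)).re)
  hN0 : (km : ℝ) / 16 * (R - 1 / R) - (k : ℝ) / 16 * ((muR ((k : ℝ) / 16) R (uu w)).re - 1 / R) ≤ N
  hA : (A : ℝ) / 512 ≤ 1 + (muR ((k : ℝ) / 16) R (uu w)).re
  hB : 1 + (muR ((k : ℝ) / 16) R (uu w)).re ≤ (B : ℝ) / 512

/-- no configuration in the cell -/
def BigC (k km ea eb A B : ℕ) : Prop :=
  ∀ (N : ℕ) (z w : Fin N → ℂ) (R : ℝ) (σ : Fin N → ℂ), ¬ InC k km ea eb A B z w R σ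

section

variable {k km ea eb ec A B C : ℕ}

/-- two intervals of `μ₁` -/
theorem BigC.col (h1 : BigC k km ea eb A B) (h2 : BigC k km ea eb B C) :
    BigC k km ea eb A C := by
  intro N z w R σ h
  rcases le_total (1 + (muR ((k : ℝ) / 16) R (uu w)).re) ((B : ℝ) / 512) with hb | hb
  · exact h1 N z w R σ ⟨h.hC, h.h6, h.hR, h.he0, h.he1, h.hN1, h.hN0, h.hA, hb⟩
  · exact h2 N z w R σ ⟨h.hC, h.h6, h.hR, h.he0, h.he1, h.hN1, h.hN0, hb, h.hB⟩

/-- two intervals of `1/R` -/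
theorem BigC.eps (h1 : BigC k km ea eb A B) (h2 : BigC k km eb ec A B) :
    BigC k km ea ec A B := by
  intro N z w R σ h
  rcases le_total (1 / R) ((eb : ℝ) / 1024) with hb | hb
  · exact h1 N z w R σ ⟨h.hC, h.h6, h.hR, h.he0, hb, h.hN1, h.hN0, h.hA, h.hB⟩
  · exact h2 N z w R σ ⟨h.hC, h.h6, h.hR, hb, h.he1, h.hN1, h.hN0, h.hA, h.hB⟩

/-- `N M* = N (R - 1 + R m₁)/(R² - 1)` -/
noncomputable def NM (N : ℕ) (w : Fin N → ℂ) (R : ℝ) : ℝ :=
  N * (R - 1 + R * (av (uu w)).re) / (R ^ 2 - 1)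

/-- no counterexample with `N M* ≤ k/16` (`N ≥ 6`, `R ≥ 29/12`) -/
def KP (k : ℕ) : Prop :=
  ∀ (N : ℕ) (z w : Fin N → ℂ) (R : ℝ) (σ : Fin N → ℂ), Cfg2 N z w R σ → 6 ≤ N → 29 / 12 ≤ R →
    (k : ℝ) / 16 < NM N w R

theorem muR_rel {N : ℕ} {w : Fin N → ℂ} {K R : ℝ} (hK : K ≠ 0) :
    K * (muR K R (uu w)).re = N * (av (uu w)).re - (N - K) / R := by
  have hK0 : (K : ℂ) ≠ 0 := by exact_mod_cast hK
  have h : (K : ℂ) * muR K R (uu w) = (N : ℂ) * av (uu w) - (((N - K) / R : ℝ) : ℂ) := by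
    unfold muR
    field_simp
  have h2 := congrArg Complex.re h
  rw [Complex.re_ofReal_mul, Complex.sub_re, Complex.ofReal_re] at h2
  have h3 : ((N : ℂ) * av (uu w)).re = N * (av (uu w)).re := by
    have := Complex.re_ofReal_mul (N : ℝ) (av (uu w))
    rwa [Complex.ofReal_natCast] at this
  rw [h3] at h2
  exact h2

theorem NM_nonneg {N : ℕ} {z w : Fin N → ℂ} {R : ℝ} {σ : Fin N → ℂ} (hC : Cfg2 N z w R σ)
    (hR : 29 / 12 ≤ R) : 0 ≤ NM N w R := by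
  have h := cost_sum hC hR
  refine le_trans ?_ h
  apply Finset.sum_nonneg
  intro k _
  unfold om
  positivity

/-- no counterexample with `N M* ≤ k/16`, `N ≥ 6`, `R ≥ 29/12`, `1/R ∈ [ea/1024, eb/1024]` -/
def KPr (k ea eb : ℕ) : Prop :=
  ∀ (N : ℕ) (z w : Fin N → ℂ) (R : ℝ) (σ : Fin N → ℂ), Cfg2 N z w R σ → 6 ≤ N → 29 / 12 ≤ R →
    (ea : ℝ) / 1024 ≤ 1 / R → 1 / R ≤ (eb : ℝ) / 1024 → (k : ℝ) / 16 < NM N w R

/-- two intervals of `1/R` -/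
theorem KPr.app (h1 : KPr k ea eb) (h2 : KPr k eb ec) : KPr k ea ec := by
  intro N z w R σ hC h6 hR ha hc
  rcases le_total (1 / R) ((eb : ℝ) / 1024) with hb | hb
  · exact h1 N z w R σ hC h6 hR ha hb
  · exact h2 N z w R σ hC h6 hR hb hc

/-- all `R ≥ 29/12` -/
theorem KPr.full (h : KPr k 0 424) : KP k := by
  intro N z w R σ hC h6 hR
  have hR0 : 0 < R := by linarith
  refine h N z w R σ hC h6 hR ?_ ?_
  · simp only [Nat.cast_zero, zero_div]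
    positivity
  · rw [div_le_div_iff₀ hR0 (by norm_num)]
    push_cast
    linarith

/-- **the step in `K`** -/
theorem KPr.step (h : KPr km ea eb ∨ km = 0) (hk : 16 ≤ k) (hB : BigC k km ea eb 0 1024) :
    KPr k ea eb := by
  intro N z w R σ hC h6 hR ha hb'
  by_contra hcon
  push Not at hcon
  have hkr : (16 : ℝ) ≤ k := by exact_mod_cast hk
  set K : ℝ := (k : ℝ) / 16 with hK
  have hK0 : 0 < K := by rw [hK]; positivity
  have hR0 : 0 < R := by linarith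
  have hb : 0 < R ^ 2 - 1 := by nlinarith
  have hm := muR_rel (N := N) (w := w) (R := R) hK0.ne'
  set μ₁ := (muR K R (uu w)).re with hμ
  have hN1 : (N : ℝ) ≤ K * (R - μ₁) := (mstar_le_iff (by linarith) hm).1 hcon
  have hlow : (km : ℝ) / 16 ≤ NM N w R := by
    rcases h with h | h
    · exact (h N z w R σ hC h6 hR ha hb').le
    · subst h
      simp only [Nat.cast_zero, zero_div]
      exact NM_nonneg hC hR
  have hN0 : (km : ℝ) / 16 * (R - 1 / R) - K * (μ₁ - 1 / R) ≤ N := by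
    unfold NM at hlow
    rw [le_div_iff₀ hb] at hlow
    have e1 : R * (K * μ₁) = N * (R * (av (uu w)).re) - (N - K) := by
      rw [hm]
      field_simp
    have e2 : (km : ℝ) / 16 * (R - 1 / R) - K * (μ₁ - 1 / R) =
        ((km : ℝ) / 16 * (R ^ 2 - 1) - (R * (K * μ₁) - K)) / R := by
      field_simp
    rw [e2, div_le_iff₀ hR0, e1]
    linarith
  have hu : ∀ j, ‖uu w j‖ ≤ 1 := hC.u_le
  have hmu : ‖muR K R (uu w)‖ ≤ 1 :=
    muR_norm_le hK0 (by omega) (by linarith) hu ((cost_sum hC hR).trans hcon)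
  have hre := abs_le.1 ((Complex.abs_re_le_norm _).trans hmu)
  refine hB N z w R σ ⟨hC, h6, hR, ha, hb', hN1, hN0, ?_, ?_⟩
  · simp only [Nat.cast_zero, zero_div]
    linarith [hre.1]
  · have h1024 : ((1024 : ℕ) : ℝ) / 512 = 2 := by norm_num
    rw [h1024]
    linarith [hre.2]

end

end Pool.Agent.Lib.MP_af3a4a_an.P1.H11
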