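import Pool.Agent.Lib.MP_af3a4a_an.P1.H11.TreeD
import Pool.Agent.Lib.MP_af3a4a_an.P1.H11.DataD
import Pool.Agent.Lib.MP_af3a4a_an.P1.H21.VTT
import Pool.Agent.Lib.MP_af3a4a_an.P1.H28.CellV
import Pool.Agent.Lib.MP_af3a4a_an.P1.H11.Need2

/-!
# BIGR: soundness of the tree of boxes (council 2, helper11)
-/

set_option autoImplicit false

namespace Pool.Agent.Lib.MP_af3a4a_an.P1.H11

open Pool.Agent.Lib.MP_af3a4a_an.SV (uu av sq EE)
open Pool.Agent.Lib.MP_af3a4a_an.P1.H80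
open Pool.Agent.Lib.MP_af3a4a_an.P1.CHK.H80
open Pool.Agent.Lib.MP_af3a4a_an.P1.CHK.Arith
open Pool.Agent.Lib.MP_af3a4a_an.P1.CHK.CurveK
open Pool.Agent.Lib.MP_af3a4a_an.P1.CHK.Curve (bi bi_and mr)
open Pool.Agent.Lib.MP_af3a4a_an.P1.H32
open Pool.Agent.Lib.MP_af3a4a_an.P1.H28 (EC CT mkA mkB cellsK leafT dg PK dg_PK PK_zero PK_succ
  cost_sum mstar_le_iff kOK)
open Pool.Agent.Lib.MP_af3a4a_an.P1.H21 (vtT)

/-! ### soundness -/

/-- the claims of a leaf (output of helper62's `leafK_sound`) -/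
def LfC (K : ℝ) {N : ℕ} (w : Fin N → ℂ) (R : ℝ) (phi J0 J1 : ℕ) (p n₁ n₂ : ℕ → ℕ) : Prop :=
  (∀ i < J0, p i < 2 ^ 80 ∧
      PosCell (QR K R (uu w)) ((phi : ℝ) / 1099511627776) ((i : ℝ) / (32 : ℕ))
        (((i + 1 : ℕ) : ℝ) / (32 : ℕ)) ((p i : ℝ) / ((32 : ℕ) * 1099511627776))) ∧
    (∀ i < J1, n₁ i < 2 ^ 80 ∧ n₂ i < 2 ^ 80 ∧
      NegCell (QR K R (uu w)) ((phi : ℝ) / 1099511627776) (((J0 + i : ℕ) : ℝ) / (32 : ℕ))
        (((J0 + i + 1 : ℕ) : ℝ) / (32 : ℕ)) ((n₁ i : ℝ) / ((32 : ℕ) * 1099511627776))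
        ((n₂ i : ℝ) / ((32 : ℕ) * 1099511627776)))

/-- the list of the cell data excludes the configurations of the column -/
def GoodCT (k km ea eb A B : ℕ) (ct : CT) : Prop :=
  ∀ (N : ℕ) (z w : Fin N → ℂ) (R : ℝ) (σ : Fin N → ℂ), InC k km ea eb A B z w R σ →
    ct ≠ CT.nil ∧ ∀ (phi J0 J1 : ℕ) (p n₁ n₂ : ℕ → ℕ), J0 + J1 = 31 →
      LfC ((k : ℝ) / 16) w R phi J0 J1 p n₁ n₂ →
      leafT J0 J1 (hp p J0) (hp n₁ J1) (hp n₂ J1) ct = true → False

/-- the condition on the step (it gives `K ≤ N`) and the range -/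
def CondK (k km ea eb : ℕ) : Prop := kOK k km = true ∧ ea < eb

/-- the soundness of `cellsK` -/
def CellsS (ECok : EC → ℕ → ℕ → Prop) : Prop :=
  ∀ (k km ea eb A B EL EE : ℕ) (ec : EC) (kk : CT → Bool), 16 ≤ k → CondK k km ea eb →
    ECok ec ea eb →
    (∀ m : ℝ, |m| ≤ 1 → (A : ℝ) / 512 ≤ 1 + m →
      EK ((k : ℝ) / 16) m ((31 : ℕ) / (32 : ℕ)) ≤ (EL : ℝ) / 1099511627776) →
    (∀ i ≤ 24, ∀ m : ℝ, |m| ≤ 1 → (A : ℝ) / 512 ≤ 1 + m →
      EK ((k : ℝ) / 16) m (((8 + i : ℕ) : ℝ) / (8 : ℕ)) ≤ (dg EE i : ℝ) / 1099511627776) →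
    cellsK k km A B EL EE ec CT.nil kk = true →
    ∃ ct, kk ct = true ∧ GoodCT k km ea eb A B ct

theorem sq_neg_le {a m : ℝ} (h0 : 0 ≤ a) (h : a ≤ -m) : a ^ 2 ≤ m ^ 2 := by nlinarith

theorem sq_le' {a m : ℝ} (h0 : 0 ≤ a) (h : a ≤ m) : a ^ 2 ≤ m ^ 2 := pow_le_pow_left₀ h0 h 2

theorem sq_s0 {s0 : ℕ} {y : ℝ} (h : (s0 : ℝ) / 4096 ≤ y) : ((s0 : ℝ) / 4096) ^ 2 ≤ y ^ 2 :=
  pow_le_pow_left₀ (by positivity) h 2

theorem nil_arith {s0 mm : ℕ} {x y : ℝ}
    (h : 1099511627776 ≤ Nat.add (Nat.mul (Nat.mul s0 s0) 65536) mm)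
    (hm : (mm : ℝ) / 1099511627776 ≤ x ^ 2) (h0 : (s0 : ℝ) / 4096 ≤ y) (h1 : (s0 : ℝ) / 4096 < y) :
    1 < x ^ 2 + y ^ 2 := by
  have h3 : (1099511627776 : ℝ) ≤ (s0 : ℝ) * s0 * 65536 + mm := by
    have : 1099511627776 ≤ s0 * s0 * 65536 + mm := h
    exact_mod_cast this
  have h4 : ((s0 : ℝ) / 4096) ^ 2 < y ^ 2 := by
    have : 0 ≤ (s0 : ℝ) / 4096 := by positivity
    nlinarith
  rw [div_le_iff₀ (by norm_num)] at hm
  nlinarith

theorem mmF_eq (A B : ℕ) : mmF A B = ((512 - B) + (A - 512)) * ((512 - B) + (A - 512)) * 4194304 := by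
  unfold mmF
  rw [ev_eq]
  rfl

theorem mmF_le {A B : ℕ} {m : ℝ} (hA : (A : ℝ) / 512 ≤ 1 + m) (hB : 1 + m ≤ (B : ℝ) / 512) :
    (mmF A B : ℝ) / 1099511627776 ≤ m ^ 2 := by
  rw [mmF_eq]
  rcases le_total B 512 with h | h
  · have hA5 : A - 512 = 0 := by
      have : (A : ℝ) ≤ 512 := by
        have h5 : (B : ℝ) ≤ 512 := by exact_mod_cast h
        linarith
      have : A ≤ 512 := by exact_mod_cast this
      omega
    have e : ((512 - B : ℕ) : ℝ) = 512 - B := by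
      rw [Nat.cast_sub h]
      norm_num
    rw [hA5, add_zero]
    push_cast
    rw [e]
    have h1 : 0 ≤ (512 - (B : ℝ)) / 512 := by
      have : (B : ℝ) ≤ 512 := by exact_mod_cast h
      apply div_nonneg <;> linarith
    have h2 : (512 - (B : ℝ)) / 512 ≤ -m := by linarith
    have h3 : ((512 - (B : ℝ)) / 512) ^ 2 ≤ m ^ 2 := sq_neg_le h1 h2
    refine le_trans (le_of_eq ?_) h3
    ring
  · have hB5 : 512 - B = 0 := by omega
    rw [hB5, zero_add]
    rcases le_total A 512 with h' | h'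
    · have : A - 512 = 0 := by omega
      rw [this]
      simp
      positivity
    · have e : ((A - 512 : ℕ) : ℝ) = A - 512 := by
        rw [Nat.cast_sub h']
        norm_num
      push_cast
      rw [e]
      have h1 : 0 ≤ ((A : ℝ) - 512) / 512 := by
        have : (512 : ℝ) ≤ A := by exact_mod_cast h'
        apply div_nonneg <;> linarith
      have h2 : ((A : ℝ) - 512) / 512 ≤ m := by linarith
      have h3 : (((A : ℝ) - 512) / 512) ^ 2 ≤ m ^ 2 := sq_le' h1 h2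
      refine le_trans (le_of_eq ?_) h3
      ring

theorem lvs_nil (mm : ℕ) (col : Col) (ct : CT) (s0 : ℕ) : lvs mm col ct [] s0 =
    bi (Nat.ble 1 s0)
      (Nat.ble 1099511627776 (Nat.add (Nat.mul (Nat.mul s0 s0) 65536) mm)) false := rfl

theorem lvs_cons_eq (mm : ℕ) (col : Col) (ct : CT) (l : ℕ) (L : List ℕ) (s0 : ℕ) :
    lvs mm col ct (l :: L) s0 =
      ev (Nat.mod l 8192) fun s1 =>
      ev (Nat.mul (Nat.mod (Nat.shiftRight l 13) 8192) 1073741824) fun phi =>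
      ev (Nat.mod (Nat.shiftRight l 26) 64) fun J0 =>
      ev (Nat.mod (Nat.shiftRight l 32) 256) fun t0 =>
      ev (Nat.mod (Nat.shiftRight l 40)
        452312848583266388373324160190187140051835877600158453279131187530910662656) fun st1 =>
      ev (Nat.shiftRight l 288) fun st2 =>
      ev (Nat.sub 1099511627776 (Nat.add (Nat.mul (Nat.mul s0 s0) 65536) mm)) fun c1 =>
      ev (Nat.sub 31 J0) fun J1 =>
      bi (Nat.ble J0 31) (bi (leafK (Nat.mul s0 268435456) (Nat.mul s1 268435456) c1 phi J0 J1 t0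
        st1 st2 col (fun PP N1 N2 => leafT J0 J1 PP N1 N2 ct)) (lvs mm col ct L s1) false)
        false := by
  simp only [← leafTF_eq]
  rfl

theorem lvs_cons (mm : ℕ) (col : Col) (ct : CT) (l : ℕ) (L : List ℕ) (s0 : ℕ)
    (h : lvs mm col ct (l :: L) s0 = true) :
    ∃ s1 phi J0 J1 t0 st1 st2 : ℕ, J0 + J1 = 31 ∧
      leafK (Nat.mul s0 268435456) (Nat.mul s1 268435456)
        (Nat.sub 1099511627776 (Nat.add (Nat.mul (Nat.mul s0 s0) 65536) mm)) phi J0 J1 t0
        st1 st2 col (fun PP N1 N2 => leafT J0 J1 PP N1 N2 ct) = true ∧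
      lvs mm col ct L s1 = true := by
  rw [lvs_cons_eq] at h
  simp only [ev_eq] at h
  rw [bi_and, bi_and] at h
  obtain ⟨h1, h2, h3⟩ := h
  have h1' := Nat.le_of_ble_eq_true h1
  refine ⟨_, _, _, _, _, _, _, ?_, h2, h3⟩
  have e : Nat.sub 31 (Nat.mod (Nat.shiftRight l 26) 64) =
      31 - Nat.mod (Nat.shiftRight l 26) 64 := rfl
  rw [e]
  omega

theorem lvs_sound {k km ea eb A B : ℕ} {col : Col} {ct : CT} (hk : 16 ≤ k)
    (hct : GoodCT k km ea eb A B ct)
    {N : ℕ} {z w : Fin N → ℂ} {R : ℝ} {σ : Fin N → ℂ} (H : InC k km ea eb A B z w R σ)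
    (hcol : ColOK ((k : ℝ) / 16) (muR ((k : ℝ) / 16) R (uu w)).re 32 col 0 0 0)
    (hrep : RepR ((k : ℝ) / 16) (muR ((k : ℝ) / 16) R (uu w)) (QR ((k : ℝ) / 16) R (uu w))) :
    ∀ (L : List ℕ) (s0 : ℕ), (s0 : ℝ) / 4096 ≤ (muR ((k : ℝ) / 16) R (uu w)).im →
      (1 ≤ s0 → (s0 : ℝ) / 4096 < (muR ((k : ℝ) / 16) R (uu w)).im) →
      lvs (mmF A B) col ct L s0 = true → False := by
  set K : ℝ := (k : ℝ) / 16 with hK
  set μ : ℂ := muR K R (uu w) with hμ
  have hkr : (16 : ℝ) ≤ k := by exact_mod_cast hk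
  have hK1 : 1 ≤ K := by rw [hK]; linarith
  have hm := mmF_le (m := μ.re) H.hA H.hB
  have hm1 := hrep.m_le
  have hsq : ‖μ‖ ^ 2 = μ.re ^ 2 + μ.im ^ 2 := by
    rw [← Complex.normSq_eq_norm_sq, Complex.normSq_apply]
    ring
  have hle1 : ‖μ‖ ^ 2 ≤ 1 := pow_le_one₀ (norm_nonneg _) hm1
  intro L
  induction L with
  | nil =>
    intro s0 hs0 hs1 h
    rw [lvs_nil, bi_and] at h
    obtain ⟨h1, h2⟩ := h
    replace h1 := Nat.le_of_ble_eq_true h1
    replace h2 := Nat.le_of_ble_eq_true h2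
    have h3 := nil_arith h2 hm hs0 (hs1 h1)
    rw [← hsq] at h3
    exact absurd hle1 (not_le.2 h3)
  | cons l L ih =>
    intro s0 hs0 _ h
    obtain ⟨s1, phi, J0, J1, t0, st1, st2, hJ, h1, h2⟩ := lvs_cons _ _ _ _ _ _ h
    rcases le_or_gt μ.im ((s1 : ℝ) / 4096) with hs | hs
    · have i1 : ((s0 * 268435456 : ℕ) : ℝ) / 1099511627776 ≤ μ.im := by
        refine le_trans (le_of_eq ?_) hs0
        push_cast
        ring
      have i2 : μ.im ≤ ((s1 * 268435456 : ℕ) : ℝ) / 1099511627776 := by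
        refine hs.trans (le_of_eq ?_)
        push_cast
        ring
      have hc : 1 - ‖μ‖ ^ 2 ≤
          ((1099511627776 - (s0 * s0 * 65536 + mmF A B) : ℕ) : ℝ) / 1099511627776 := by
        have h3 := sub_le_cast 1099511627776 (s0 * s0 * 65536 + mmF A B)
        have h4 : ((s0 : ℝ) / 4096) ^ 2 ≤ μ.im ^ 2 := sq_s0 hs0
        rw [le_div_iff₀ (by norm_num)]
        refine le_trans ?_ h3
        push_cast
        rw [hsq]
        have h5 : (mmF A B : ℝ) ≤ μ.re ^ 2 * 1099511627776 := by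
          rw [div_le_iff₀ (by norm_num)] at hm
          exact hm
        nlinarith
      obtain ⟨p, n₁, n₂, a1, a2, a3⟩ := leafK_sound (Q := 32) (by norm_num) hK1 hrep i1 i2 hc
        hcol h1
      exact (hct N z w R σ H).2 phi J0 J1 p n₁ n₂ hJ ⟨a1, a2⟩ a3
    · exact ih s1 hs.le (fun _ => hs) h2

theorem mr_low (A : ℕ) : mr (Nat.mul A 2147483648) 1099511627776 = (A : ℝ) / 512 - 1 := by
  unfold mr
  have : ((Nat.mul A 2147483648 : ℕ) : ℝ) = A * 2147483648 := by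
    change ((A * 2147483648 : ℕ) : ℝ) = _
    push_cast
    ring
  rw [this]
  push_cast
  ring

theorem eeT_zero (k lp : ℕ) (kk : ℕ → Bool) (acc : ℕ) : eeT k lp kk 0 acc = kk acc := rfl

theorem eeT_succ (k lp : ℕ) (kk : ℕ → Bool) (j acc : ℕ) : eeT k lp kk (j + 1) acc =
    ev (nodeE k lp 1099511627776 (Nat.add 8 j) 8) fun d =>
      bi (Nat.blt d 340282366920938463463374607431768211456)
        (ev (Nat.add (Nat.mul acc 340282366920938463463374607431768211456) d) fun acc =>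
          eeT k lp kk j acc) false := rfl

theorem eeT_sound (k lp : ℕ) (kk : ℕ → Bool) : ∀ (j acc : ℕ), eeT k lp kk j acc = true →
    (∀ i < j, nodeE k lp 1099511627776 (8 + i) 8 < 340282366920938463463374607431768211456) ∧
      kk (PK (fun i => nodeE k lp 1099511627776 (8 + i) 8) j +
        acc * 340282366920938463463374607431768211456 ^ j) = true := by
  intro j
  induction j with
  | zero =>
    intro acc h
    rw [eeT_zero] at h
    refine ⟨fun i hi => absurd hi (Nat.not_lt_zero i), ?_⟩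
    rw [PK_zero, pow_zero, mul_one, zero_add]
    exact h
  | succ j ih =>
    intro acc h
    rw [eeT_succ] at h
    simp only [ev_eq] at h
    rw [bi_and] at h
    obtain ⟨h1, h2⟩ := h
    rw [Nat.blt_eq] at h1
    obtain ⟨h3, h4⟩ := ih _ h2
    refine ⟨fun i hi => ?_, ?_⟩
    · rcases Nat.lt_succ_iff_lt_or_eq.1 hi with h5 | h5
      · exact h3 i h5
      · rw [h5]
        exact h1
    · rw [PK_succ]
      refine (congrArg (fun x => kk x) ?_).trans h4
      change _ = _ + (acc * 340282366920938463463374607431768211456 +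
        nodeE k lp 1099511627776 (8 + j) 8) * _
      ring

theorem isNil_false {ct : CT} (h : ct ≠ CT.nil) : isNil ct = false := by
  cases ct with
  | nil => exact absurd rfl h
  | cons SS WW WB TH r => rfl

/-- **a column** -/
theorem colD_sound {ECok : EC → ℕ → ℕ → Prop} (hS : CellsS ECok) {k km ea eb A B : ℕ} {ec : EC}
    {L : List ℕ} (hc : CondK k km ea eb) (hec : ECok ec ea eb)
    (h : colD k km A B ec L = true) : BigC k km ea eb A B := by
  unfold colD at h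
  simp only [ev_eq, cellsKF_eq] at h
  obtain ⟨hk, -, col, hcol, h⟩ := colK_sound h
  obtain ⟨h1, h2⟩ := eeT_sound _ _ _ _ _ h
  rw [zero_mul, add_zero] at h2
  intro N z w R σ H
  set K : ℝ := (k : ℝ) / 16 with hK
  set μ : ℂ := muR K R (uu w) with hμ
  have hkr : (16 : ℝ) ≤ k := by exact_mod_cast hk
  have hK0 : 0 < K := by rw [hK]; linarith
  have hC := H.hC
  have hR := H.hR
  have hu : ∀ j, ‖uu w j‖ ≤ 1 := hC.u_le
  have hN1 : 1 ≤ N := by have := H.h6; omega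
  have hm := muR_rel (N := N) (w := w) (R := R) hK0.ne'
  have hcost := (cost_sum hC hR).trans ((mstar_le_iff (by linarith) hm).2 H.hN1)
  have hrep : RepR K μ (QR K R (uu w)) := sweepR hK0 hN1 (by linarith) hu hcost
  have hre : |μ.re| ≤ 1 := (Complex.abs_re_le_norm _).trans hrep.m_le
  have hlow : mr (Nat.mul A 2147483648) 1099511627776 ≤ μ.re := by
    rw [mr_low]
    have := H.hA
    linarith
  have hhigh : μ.re ≤ mr (Nat.mul B 2147483648) 1099511627776 := by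
    rw [mr_low]
    have := H.hB
    linarith
  have hcol' := hcol μ.re hre hlow hhigh
  have hlabs : ∀ m : ℝ, |m| ≤ 1 → (A : ℝ) / 512 ≤ 1 + m →
      |mr (Nat.mul A 2147483648) 1099511627776| ≤ 1 := by
    intro m hm1 hm2
    rw [mr_low, abs_le]
    have := (abs_le.1 hm1).2
    constructor
    · have : (0 : ℝ) ≤ (A : ℝ) / 512 := by positivity
      linarith
    · linarith
  obtain ⟨ct, h3, h4⟩ := hS k km ea eb A B _ _ ec _ hk hc hec (fun m hm1 hm2 =>
      nodeE_ge (by omega) (by norm_num) (hlabs m hm1 hm2) (by rw [mr_low]; linarith))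
    (fun i hi m hm1 hm2 => by
      rw [dg_PK h1 (by omega)]
      exact nodeE_ge (by omega) (by norm_num) (hlabs m hm1 hm2) (by rw [mr_low]; linarith)) h2
  have h5 := (h4 N z w R σ H).1
  rw [isNil_false h5] at h3
  have him : 0 ≤ μ.im := by
    have e : (K : ℂ) * μ = (N : ℂ) * av (uu w) - (((N - K) / R : ℝ) : ℂ) := by
      have hKc : (K : ℂ) ≠ 0 := by exact_mod_cast hK0.ne'
      rw [hμ]
      unfold muR
      field_simp
    have h6 := congrArg Complex.im e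
    rw [Complex.im_ofReal_mul, Complex.sub_im, Complex.ofReal_im, sub_zero] at h6
    have h7 : ((N : ℂ) * av (uu w)).im = N * (av (uu w)).im := by
      have := Complex.im_ofReal_mul (N : ℝ) (av (uu w))
      rwa [Complex.ofReal_natCast] at this
    rw [h7] at h6
    have h8 : 0 ≤ K * μ.im := by
      rw [h6]
      exact mul_nonneg (Nat.cast_nonneg N) hC.him
    exact nonneg_of_mul_nonneg_right h8 hK0
  exact lvs_sound hk h4 H hcol' hrep L 0 (by simpa using him) (fun h0 => absurd h0 (by norm_num)) h3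

theorem colsD_nil (k km : ℕ) (ec : EC) (Bf A : ℕ) : colsD k km ec Bf [] A = Nat.beq A Bf := rfl

theorem colsD_cons (k km : ℕ) (ec : EC) (Bf : ℕ) (c : ℕ × List ℕ) (C : List (ℕ × List ℕ))
    (A : ℕ) : colsD k km ec Bf (c :: C) A =
      bi (Nat.ble A c.1) (bi (colD k km A c.1 ec c.2) (colsD k km ec Bf C c.1) false) false := rfl

/-- **the columns** -/
theorem colsD_sound {ECok : EC → ℕ → ℕ → Prop} (hS : CellsS ECok) {k km ea eb Bf : ℕ} {ec : EC}
    (hc : CondK k km ea eb) (hec : ECok ec ea eb) : ∀ (C : List (ℕ × List ℕ)) (A : ℕ), C ≠ [] →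
      colsD k km ec Bf C A = true → BigC k km ea eb A Bf := by
  intro C
  induction C with
  | nil => exact fun A h => absurd rfl h
  | cons c C ih =>
    intro A _ h
    rw [colsD_cons, bi_and, bi_and] at h
    obtain ⟨-, h2, h3⟩ := h
    have h4 := colD_sound hS hc hec h2
    rcases C with _ | ⟨c', C⟩
    · rw [colsD_nil] at h3
      have h5 := Nat.eq_of_beq_eq_true h3
      rw [← h5]
      exact h4
    · exact h4.col (ih c.1 (by simp) h3)

end Pool.Agent.Lib.MP_af3a4a_an.P1.H11
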